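import Mathlib

/-!
The number of cycles of a permutation of a finite set, and its behaviour under multiplication by
a transposition.
-/

namespace Pool.Agent.Lib.MP_72b45c_co

open Equiv Equiv.Perm

/-- the number of cycles of a permutation, fixed points included -/
noncomputable def cyc {X : Type*} (π : Perm X) : ℕ :=
  Nat.card (Quotient (SameCycle.setoid π))

variable {X : Type*} [Finite X] [DecidableEq X]

omit [DecidableEq X] in
/-- a set closed under the permutation is closed under `SameCycle` -/
theorem CycleCount_closed (π : Perm X) (O : Set X) (hO : ∀ x ∈ O, π x ∈ O) {x y : X}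
    (hx : x ∈ O) (h : π.SameCycle x y) : y ∈ O := by
  obtain ⟨n, rfl⟩ := h.exists_nat_pow_eq
  induction n with
  | zero => simpa using hx
  | succ n ih =>
    rw [pow_succ', Perm.mul_apply]
    exact hO _ (ih ⟨n, by simp⟩)

omit [Finite X] in
theorem CycleCount_swap_left (π : Perm X) (a b : X) : (π * swap a b) a = π b := by simp

omit [Finite X] in
theorem CycleCount_swap_right (π : Perm X) (a b : X) : (π * swap a b) b = π a := by simp

omit [Finite X] in
theorem CycleCount_swap_ne (π : Perm X) {a b x : X} (ha : x ≠ a) (hb : x ≠ b) :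
    (π * swap a b) x = π x := by
  rw [Perm.mul_apply, swap_apply_of_ne_of_ne ha hb]

/-- multiplication by a transposition that joins two cycles: cycles only get larger -/
theorem sameCycle_mul_swap (π : Perm X) {a b : X} (h : ¬ π.SameCycle a b) :
    (π * swap a b).SameCycle a b ∧ ∀ x y, π.SameCycle x y → (π * swap a b).SameCycle x y := by
  have hab : (π * swap a b).SameCycle a b := by
    by_contra hcon
    have hO : ∀ x ∈ {x | (π * swap a b).SameCycle a x ∧ π.SameCycle b x},
        π x ∈ {x | (π * swap a b).SameCycle a x ∧ π.SameCycle b x} := by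
      rintro x ⟨h1, h2⟩
      have hxa : x ≠ a := by
        rintro rfl
        exact h h2.symm
      have hxb : x ≠ b := by
        rintro rfl
        exact hcon h1
      refine ⟨?_, sameCycle_apply_right.2 h2⟩
      rw [← CycleCount_swap_ne π hxa hxb]
      exact sameCycle_apply_right.2 h1
    have h1 : π b ∈ {x | (π * swap a b).SameCycle a x ∧ π.SameCycle b x} := by
      refine ⟨?_, sameCycle_apply_right.2 (SameCycle.refl _ _)⟩
      rw [← CycleCount_swap_left π a b]
      exact sameCycle_apply_right.2 (SameCycle.refl _ _)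
    have h2 := CycleCount_closed π _ hO h1 (sameCycle_apply_left.2 (SameCycle.refl π b))
    exact hcon h2.1
  refine ⟨hab, fun x y hxy => ?_⟩
  have hO : ∀ z ∈ {z | (π * swap a b).SameCycle x z}, π z ∈ {z | (π * swap a b).SameCycle x z} := by
    intro z hz
    simp only [Set.mem_ofPred_eq] at hz ⊢
    by_cases hza : z = a
    · subst hza
      rw [← CycleCount_swap_right π z b]
      exact sameCycle_apply_right.2 (hz.trans hab)
    · by_cases hzb : z = b
      · subst hzb
        rw [← CycleCount_swap_left π a z]
        exact sameCycle_apply_right.2 (hz.trans hab.symm)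
      · rw [← CycleCount_swap_ne π hza hzb]
        exact sameCycle_apply_right.2 hz
  exact CycleCount_closed π _ hO (SameCycle.refl _ _) hxy

theorem cyc_mul_swap_of_not_sameCycle (π : Perm X) {a b : X} (h : ¬ π.SameCycle a b) :
    cyc (π * swap a b) + 1 = cyc π := by
  obtain ⟨hab, hmono⟩ := sameCycle_mul_swap π h
  set p := π * swap a b with hp
  have hfin1 : Finite (Quotient (SameCycle.setoid π)) := Quotient.finite _
  -- classes of `p`
  have hcls : ∀ x y, p.SameCycle x y → ¬ π.SameCycle x b → ¬ π.SameCycle y b →
      π.SameCycle x y := by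
    intro x y hxy hxb hyb
    by_cases hxa : π.SameCycle x a
    · have hO : ∀ z ∈ {z | π.SameCycle z a ∨ π.SameCycle z b},
          p z ∈ {z | π.SameCycle z a ∨ π.SameCycle z b} := by
        intro z hz
        simp only [Set.mem_ofPred_eq] at hz ⊢
        by_cases hza : z = a
        · subst hza
          rw [hp, CycleCount_swap_left]
          exact Or.inr (sameCycle_apply_left.2 (SameCycle.refl _ _))
        · by_cases hzb : z = b
          · subst hzb
            rw [hp, CycleCount_swap_right]
            exact Or.inl (sameCycle_apply_left.2 (SameCycle.refl _ _))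
          · rw [hp, CycleCount_swap_ne π hza hzb, sameCycle_apply_left, sameCycle_apply_left]
            exact hz
      have h1 := CycleCount_closed p _ hO (Or.inl hxa) hxy
      rcases h1 with h1 | h1
      · exact hxa.trans h1.symm
      · exact absurd h1 hyb
    · have hO : ∀ z ∈ {z | π.SameCycle x z}, p z ∈ {z | π.SameCycle x z} := by
        intro z hz
        simp only [Set.mem_ofPred_eq] at hz ⊢
        have hza : z ≠ a := by
          rintro rfl
          exact hxa hz
        have hzb : z ≠ b := by
          rintro rfl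
          exact hxb hz
        rw [hp, CycleCount_swap_ne π hza hzb, sameCycle_apply_right]
        exact hz
      exact CycleCount_closed p _ hO (SameCycle.refl _ _) hxy
  let f : {q : Quotient (SameCycle.setoid π) // q ≠ Quotient.mk _ b} →
      Quotient (SameCycle.setoid p) := fun q =>
    Quotient.map' (s₁ := SameCycle.setoid π) (s₂ := SameCycle.setoid p) id
      (fun x y hxy => hmono x y hxy) q.1
  have hf : Function.Bijective f := by
    constructor
    · rintro ⟨q, hq⟩ ⟨q', hq'⟩ hqq
      induction q using Quotient.inductionOn with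
      | _ x =>
        induction q' using Quotient.inductionOn with
        | _ y =>
          have h1 : p.SameCycle x y := Quotient.exact hqq
          have h2 : ¬ π.SameCycle x b := fun h3 => hq (Quotient.sound h3)
          have h3 : ¬ π.SameCycle y b := fun h3 => hq' (Quotient.sound h3)
          exact Subtype.ext (Quotient.sound (hcls x y h1 h2 h3))
    · intro q
      induction q using Quotient.inductionOn with
      | _ x =>
        by_cases hxb : π.SameCycle x b
        · refine ⟨⟨Quotient.mk _ a, fun h1 => h (Quotient.exact h1)⟩, ?_⟩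
          exact Quotient.sound (hab.trans (hmono x b hxb).symm)
        · exact ⟨⟨Quotient.mk _ x, fun h1 => hxb (Quotient.exact h1)⟩, rfl⟩
  have h1 : Nat.card {q : Quotient (SameCycle.setoid π) // q ≠ Quotient.mk _ b} =
      Nat.card (Quotient (SameCycle.setoid p)) := Nat.card_congr (Equiv.ofBijective f hf)
  classical
  have h2 := Nat.card_congr (Equiv.optionSubtypeNe
    (Quotient.mk (SameCycle.setoid π) b : Quotient (SameCycle.setoid π)))
  rw [Finite.card_option, h1] at h2
  exact h2

theorem not_sameCycle_mul_swap (π : Perm X) {a b : X} (hab : a ≠ b) (h : π.SameCycle a b) :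
    ¬ (π * swap a b).SameCycle a b := by
  classical
  have hex : ∃ n : ℕ, (π ^ n) b = a := h.symm.exists_nat_pow_eq
  set k := Nat.find hex with hk
  have hk1 : (π ^ k) b = a := Nat.find_spec hex
  have hk2 : ∀ m < k, (π ^ m) b ≠ a := fun m hm => Nat.find_min hex hm
  have hk0 : 1 ≤ k := by
    rcases Nat.eq_zero_or_pos k with h0 | h0
    · rw [h0, pow_zero, Perm.one_apply] at hk1
      exact absurd hk1.symm hab
    · exact h0
  have hb : ∀ i, 1 ≤ i → i < k → (π ^ i) b ≠ b := by
    intro i hi hik h1
    apply hk2 (k - i) (by omega)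
    have h2 : (π ^ k) b = (π ^ (k - i)) ((π ^ i) b) := by
      rw [← Perm.mul_apply, ← pow_add]
      congr 2
      omega
    rw [h1] at h2
    rw [← h2, hk1]
  intro hcon
  have hO : ∀ x ∈ {x | ∃ i, 1 ≤ i ∧ i ≤ k ∧ (π ^ i) b = x},
      (π * swap a b) x ∈ {x | ∃ i, 1 ≤ i ∧ i ≤ k ∧ (π ^ i) b = x} := by
    rintro x ⟨i, hi, hik, rfl⟩
    rcases Nat.lt_or_ge i k with h1 | h1
    · rw [CycleCount_swap_ne π (hk2 i h1) (hb i hi h1)]
      exact ⟨i + 1, by omega, by omega, by rw [pow_succ', Perm.mul_apply]⟩
    · have h2 : i = k := by omega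
      rw [h2, hk1, CycleCount_swap_left]
      exact ⟨1, le_rfl, hk0, by simp⟩
  obtain ⟨i, hi, hik, h1⟩ := CycleCount_closed _ _ hO ⟨k, hk0, le_rfl, hk1⟩ hcon
  rcases Nat.lt_or_ge i k with h2 | h2
  · exact hb i hi h2 h1
  · have h3 : i = k := by omega
    rw [h3, hk1] at h1
    exact hab h1

theorem cyc_mul_swap_of_sameCycle (π : Perm X) {a b : X} (hab : a ≠ b) (h : π.SameCycle a b) :
    cyc (π * swap a b) = cyc π + 1 := by
  have h1 := cyc_mul_swap_of_not_sameCycle (π * swap a b) (not_sameCycle_mul_swap π hab h)
  rw [mul_assoc, swap_mul_self, mul_one] at h1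
  exact h1.symm

/-- crossing transpositions: `a, b, c, d` occur in this cyclic order on one cycle of `π` -/
theorem not_sameCycle_of_crossing (π : Perm X) {a b c d : X} {i j k l : ℕ} (h1 : (π ^ i) a = b)
    (h2 : (π ^ j) a = c) (h3 : (π ^ k) a = d) (h4 : (π ^ l) a = a) (hi : 0 < i) (hij : i < j)
    (hjk : j < k) (hkl : k < l) (hmin : ∀ m, 0 < m → m < l → (π ^ m) a ≠ a) :
    ¬ (π * swap a c).SameCycle b d := by
  have hinj : ∀ s t : ℕ, s < t → t - s < l → (π ^ t) a ≠ (π ^ s) a := by
    intro s t hst hl h5
    apply hmin (t - s) (by omega) hl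
    apply (π ^ s).injective
    rw [← Perm.mul_apply, ← pow_add, show s + (t - s) = t by omega, h5]
  intro hcon
  have hO : ∀ x ∈ {x | ∃ t, j < t ∧ t ≤ l ∧ (π ^ t) a = x},
      (π * swap a c) x ∈ {x | ∃ t, j < t ∧ t ≤ l ∧ (π ^ t) a = x} := by
    rintro x ⟨t, ht, htl, rfl⟩
    rcases Nat.lt_or_ge t l with h5 | h5
    · rw [CycleCount_swap_ne π (hmin t (by omega) h5)
        (by rw [← h2]; exact hinj j t ht (by omega))]
      exact ⟨t + 1, by omega, by omega, by rw [pow_succ', Perm.mul_apply]⟩
    · have h6 : t = l := by omega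
      rw [h6, h4, CycleCount_swap_left, ← h2]
      exact ⟨j + 1, by omega, by omega, by rw [pow_succ', Perm.mul_apply]⟩
  obtain ⟨t, ht, htl, h5⟩ := CycleCount_closed _ _ hO ⟨k, hjk, hkl.le, h3⟩ hcon.symm
  rw [← h1] at h5
  exact hinj i t (by omega) (by omega) h5

/-! ### Involutions -/

omit [Finite X] in
/-- removing one transposition from an involution -/
theorem CycleCount_remove_apply (κ : Perm X) (hκ : ∀ x, κ (κ x) = x) (x y : X) :
    (κ * swap x (κ x)) y = if y = x ∨ y = κ x then y else κ y := by
  by_cases h1 : y = x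
  · subst h1
    rw [CycleCount_swap_left, hκ, if_pos (Or.inl rfl)]
  · by_cases h2 : y = κ x
    · rw [h2, CycleCount_swap_right, if_pos (Or.inr rfl)]
    · rw [CycleCount_swap_ne κ h1 h2, if_neg (by tauto)]

omit [Finite X] in
theorem CycleCount_remove_invol (κ : Perm X) (hκ : ∀ x, κ (κ x) = x) (x y : X) :
    (κ * swap x (κ x)) ((κ * swap x (κ x)) y) = y := by
  rw [CycleCount_remove_apply κ hκ x y]
  split_ifs with h
  · rw [CycleCount_remove_apply κ hκ x y, if_pos h]
  · push Not at h
    rw [CycleCount_remove_apply κ hκ x (κ y), if_neg, hκ]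
    rintro (h1 | h1)
    · exact h.2 (by rw [← h1, hκ])
    · exact h.1 (κ.injective h1)

theorem CycleCount_remove_ncard (κ : Perm X) (hκ : ∀ x, κ (κ x) = x) {x : X} (hx : κ x ≠ x) :
    {y | κ y ≠ y}.ncard = {y | (κ * swap x (κ x)) y ≠ y}.ncard + 2 := by
  have h1 : {y | κ y ≠ y} = {y | (κ * swap x (κ x)) y ≠ y} ∪ {x, κ x} := by
    ext y
    rw [Set.mem_union, Set.mem_insert_iff, Set.mem_singleton_iff, Set.mem_ofPred_eq,
      Set.mem_ofPred_eq, CycleCount_remove_apply κ hκ x y]
    constructor
    · intro h
      by_cases h2 : y = x ∨ y = κ x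
      · exact Or.inr h2
      · left
        rwa [if_neg h2]
    · rintro (h | h)
      · intro h2
        apply h
        split_ifs
        · rfl
        · exact h2
      · rcases h with rfl | rfl
        · exact hx
        · rw [hκ]
          exact hx.symm
  rw [h1, Set.ncard_union_eq _ (Set.toFinite _) (Set.toFinite _), Set.ncard_pair hx.symm]
  rw [Set.disjoint_left]
  intro y hy hy2
  rw [Set.mem_insert_iff, Set.mem_singleton_iff] at hy2
  rw [Set.mem_ofPred_eq, CycleCount_remove_apply κ hκ x y, if_pos hy2] at hy
  exact hy rfl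

/-- multiplying by an involution changes the number of cycles at most by the number of its
transpositions -/
theorem cyc_mul_invol_le (π κ : Perm X) (hκ : ∀ x, κ (κ x) = x) :
    2 * cyc (π * κ) ≤ 2 * cyc π + {x | κ x ≠ x}.ncard := by
  obtain ⟨n, hn⟩ : ∃ n, {x | κ x ≠ x}.ncard = n := ⟨_, rfl⟩
  induction n using Nat.strong_induction_on generalizing κ with
  | _ n ih =>
    by_cases hex : ∃ x, κ x ≠ x
    · obtain ⟨x, hx⟩ := hex
      have h1 := CycleCount_remove_ncard κ hκ hx
      have h2 := ih _ (by omega) (κ * swap x (κ x)) (CycleCount_remove_invol κ hκ x) rfl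
      have h3 : π * κ = π * (κ * swap x (κ x)) * swap x (κ x) := by
        rw [mul_assoc, mul_assoc, swap_mul_self, mul_one]
      have h4 : cyc (π * κ) ≤ cyc (π * (κ * swap x (κ x))) + 1 := by
        rw [h3]
        by_cases h5 : (π * (κ * swap x (κ x))).SameCycle x (κ x)
        · rw [cyc_mul_swap_of_sameCycle _ hx.symm h5]
        · have := cyc_mul_swap_of_not_sameCycle _ h5
          omega
      omega
    · push Not at hex
      have h1 : κ = 1 := Equiv.ext hex
      rw [h1, mul_one]
      omega

/-- For an involution `τ` one can choose some of its transpositions (product `κ`) such that the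
multiplication of `π` by `κ` only joins cycles, and at the end the cycles are closed under `π` and
`τ`. -/
theorem exists_merge (π τ : Perm X) (hτ : ∀ x, τ (τ x) = x) :
    ∃ κ : Perm X, (∀ x, κ x = x ∨ κ x = τ x) ∧ (∀ x, κ (κ x) = x) ∧
      2 * cyc π = 2 * cyc (π * κ) + {x | κ x ≠ x}.ncard ∧
      ∀ x, (π * κ).SameCycle x (π x) ∧ (π * κ).SameCycle x (τ x) := by
  obtain ⟨κ, ⟨hκ1, hκ2, hκ3⟩, hmax⟩ := Set.exists_max_image
    {κ : Perm X | (∀ x, κ x = x ∨ κ x = τ x) ∧ (∀ x, κ (κ x) = x) ∧
      2 * cyc π = 2 * cyc (π * κ) + {x | κ x ≠ x}.ncard}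
    (fun κ => {x | κ x ≠ x}.ncard) (Set.toFinite _) ⟨1, fun x => Or.inl rfl, fun x => rfl, by simp⟩
  have key : ∀ x, (π * κ).SameCycle x (τ x) := by
    intro x
    by_cases hτx : τ x = x
    · rw [hτx]
    by_contra hcon
    by_cases hκx : κ x = x
    · have hκτ : κ (τ x) = τ x := by
        rcases hκ1 (τ x) with h1 | h1
        · exact h1
        · exfalso
          rw [hτ] at h1
          have h2 := hκ2 (τ x)
          rw [h1, hκx] at h2
          exact hτx h2.symm
      have hap : ∀ y, (κ * swap x (τ x)) y = if y = x then τ x else if y = τ x then x else κ y := by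
        intro y
        by_cases h1 : y = x
        · subst h1
          rw [CycleCount_swap_left, hκτ, if_pos rfl]
        · by_cases h2 : y = τ x
          · rw [h2, CycleCount_swap_right, hκx, if_neg hτx, if_pos rfl]
          · rw [CycleCount_swap_ne κ h1 h2, if_neg h1, if_neg h2]
      have hap1 : (κ * swap x (τ x)) x = τ x := by rw [hap, if_pos rfl]
      have hinv : ∀ y, (κ * swap x (τ x)) ((κ * swap x (τ x)) y) = y := by
        intro y
        rw [hap y]
        split_ifs with h1 h2
        · rw [hap, if_neg hτx, if_pos rfl, h1]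
        · rw [hap, if_pos rfl, h2]
        · rw [hap, if_neg, if_neg, hκ2]
          · intro h3
            apply h2
            rw [← hκ2 y, h3, hκτ]
          · intro h3
            apply h1
            rw [← hκ2 y, h3, hκx]
      have hn := CycleCount_remove_ncard (κ * swap x (τ x)) hinv (x := x)
        (by rw [hap1]; exact hτx)
      rw [hap1, mul_assoc, swap_mul_self, mul_one] at hn
      have hc := cyc_mul_swap_of_not_sameCycle _ hcon
      rw [mul_assoc] at hc
      have := hmax (κ * swap x (τ x)) ⟨fun y => ?_, hinv, ?_⟩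
      · omega
      · rw [hap y]
        split_ifs with h1 h2
        · right; rw [h1]
        · right; rw [h2, hτ]
        · exact hκ1 y
      · omega
    · have hκτ : κ x = τ x := (hκ1 x).resolve_left hκx
      have hn := CycleCount_remove_ncard κ hκ2 hκx
      have h1 := cyc_mul_invol_le (π * (κ * swap x (κ x))) (κ * swap x (κ x))
        (CycleCount_remove_invol κ hκ2 x)
      have h2 : π * (κ * swap x (κ x)) * (κ * swap x (κ x)) = π := by
        have h3 : (κ * swap x (κ x)) * (κ * swap x (κ x)) = 1 := by
          ext y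
          exact CycleCount_remove_invol κ hκ2 x y
        rw [mul_assoc, h3, mul_one]
      rw [h2] at h1
      have hc := cyc_mul_swap_of_not_sameCycle (π * κ) (a := x) (b := κ x)
        (by rw [hκτ]; exact hcon)
      rw [mul_assoc] at hc
      omega
  refine ⟨κ, hκ1, hκ2, hκ3, fun x => ⟨?_, key x⟩⟩
  have h1 : (π * κ) (κ x) = π x := by rw [Perm.mul_apply, hκ2]
  rw [← h1, sameCycle_apply_right]
  rcases hκ1 x with h2 | h2
  · rw [h2]
  · rw [h2]
    exact key x

end Pool.Agent.Lib.MP_72b45c_co
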