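import Mathlib

/-!
Minors, rotation systems, embeddability in the closed orientable surface of genus `g`, and the
obstructions (excluded minors) for it.
-/

namespace Pool.Agent.Lib.MP_72b45c_co

open SimpleGraph

/-- `H` is a minor of `G`: there are pairwise disjoint (nonempty) branch sets, each inducing a
connected subgraph of `G`, such that adjacent vertices of `H` have branch sets joined by an edge
of `G`. -/
def IsMinor {V W : Type*} (H : SimpleGraph W) (G : SimpleGraph V) : Prop :=
  ∃ B : W → Set V, (∀ x, (G.induce (B x)).Connected) ∧
    (∀ x y, x ≠ y → Disjoint (B x) (B y)) ∧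
    ∀ x y, H.Adj x y → ∃ u ∈ B x, ∃ v ∈ B y, G.Adj u v

/-- A rotation system of `G`: at every vertex a cyclic permutation of the darts (oriented edges)
that start there. -/
structure RotationSystem {V : Type*} (G : SimpleGraph V) where
  /-- the next dart in the rotation at the starting vertex -/
  next : Equiv.Perm G.Dart
  fst_next : ∀ d, (next d).fst = d.fst
  sameCycle : ∀ d d' : G.Dart, d.fst = d'.fst → next.SameCycle d d'

/-- The face permutation: after the dart `u → v` comes the dart that follows `v → u` in the
rotation at `v`. -/
def RotationSystem.face {V : Type*} {G : SimpleGraph V} (R : RotationSystem G) :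
    Equiv.Perm G.Dart :=
  (Dart.symm_involutive (G := G)).toPerm.trans R.next

/-- The number of orbits of the face permutation. -/
noncomputable def RotationSystem.numFaces {V : Type*} {G : SimpleGraph V}
    (R : RotationSystem G) : ℕ :=
  Nat.card (Quotient (Equiv.Perm.SameCycle.setoid R.face))

/-- The number of isolated vertices of `G` (an isolated vertex, alone on a sphere, has one
face). -/
noncomputable def numIsolated {V : Type*} (G : SimpleGraph V) : ℕ :=
  Nat.card {v : V // ∀ w, ¬ G.Adj v w}

/-- `G` is embeddable in the closed orientable surface of genus `g`: some rotation system of `G`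
has total genus at most `g`. By Euler's formula `2 - 2 g_i = V_i - E_i + F_i` for each connected
component, this says `2 c - V + E - F ≤ 2 g` where `c` is the number of components. -/
def Embeds {V : Type*} (g : ℕ) (G : SimpleGraph V) : Prop :=
  ∃ R : RotationSystem G,
    Nat.card G.edgeSet + 2 * Nat.card G.ConnectedComponent ≤
      Nat.card V + (R.numFaces + numIsolated G) + 2 * g

/-- `G` is a (minor-minimal) obstruction for the surface of genus `g`: it is not embeddable, and
every minor not isomorphic to `G` is. -/
def IsObstruction {V : Type*} (g : ℕ) (G : SimpleGraph V) : Prop :=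
  ¬ Embeds g G ∧ ∀ (m : ℕ) (H : SimpleGraph (Fin m)), IsMinor H G → ¬ Nonempty (H ≃g G) →
    Embeds g H

/-- Isomorphism of finite graphs on the vertex sets `Fin n`. -/
def isoSetoid : Setoid (Σ n : ℕ, SimpleGraph (Fin n)) where
  r A B := Nonempty (A.2 ≃g B.2)
  iseqv := ⟨fun A => ⟨RelIso.refl _⟩, fun ⟨f⟩ => ⟨f.symm⟩, fun ⟨f⟩ ⟨h⟩ => ⟨f.trans h⟩⟩

/-- The obstruction set of the surface of genus `g`, as a set of isomorphism classes. -/
def Obs (g : ℕ) : Set (Quotient isoSetoid) :=
  {q | ∃ A : Σ n : ℕ, SimpleGraph (Fin n), Quotient.mk isoSetoid A = q ∧ IsObstruction g A.2}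

/-- The obstructions with at most `e` edges. -/
def ObsUpTo (g e : ℕ) : Set (Quotient isoSetoid) :=
  {q | ∃ A : Σ n : ℕ, SimpleGraph (Fin n), Quotient.mk isoSetoid A = q ∧ IsObstruction g A.2 ∧
    Nat.card A.2.edgeSet ≤ e}

end Pool.Agent.Lib.MP_72b45c_co
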