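import Mathlib
import Pool.Agent.Lib.MP_72b45c_co.Defs
import Pool.Agent.Lib.MP_72b45c_co.CycleCount

section

/-!
In a graph without short cycles and without vertices of degree one every face is long.
-/

namespace Pool.Agent.Lib.MP_72b45c_co

open SimpleGraph

private theorem girthFaces_edges_length {V : Type*} (G : SimpleGraph V) (L : List (Sym2 V))
    (hna : ¬ (fromEdgeSet {e | e ∈ L} ⊓ G).IsAcyclic) :
    ∃ (w : V) (q : G.Walk w w), q.IsCycle ∧ q.length ≤ L.length := by
  classical
  unfold SimpleGraph.IsAcyclic at hna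
  push Not at hna
  obtain ⟨w, q, hq⟩ := hna
  refine ⟨w, q.mapLe inf_le_right, hq.mapLe _, ?_⟩
  rw [Walk.length_mapLe, ← Walk.length_edges]
  have hsub : q.edges ⊆ L := by
    intro e he
    have h1 := Walk.edges_subset_edgeSet q he
    rw [edgeSet_inf, edgeSet_fromEdgeSet] at h1
    exact h1.1.1
  exact (List.subperm_of_subset hq.edges_nodup hsub).length_le

/-- A closed non-backtracking walk of positive length contains a cycle that is not longer. -/
theorem exists_cycle_of_chain {V : Type*} (G : SimpleGraph V) {v : V} (p : G.Walk v v)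
    (hp : 0 < p.length) (hc : List.IsChain (· ≠ ·) p.edges) :
    ∃ (w : V) (q : G.Walk w w), q.IsCycle ∧ q.length ≤ p.length := by
  by_contra hcon
  have hac : (fromEdgeSet {e | e ∈ p.edges} ⊓ G).IsAcyclic := by
    by_contra hna
    apply hcon
    obtain ⟨w, q, hq, hl⟩ := girthFaces_edges_length G p.edges hna
    exact ⟨w, q, hq, by rwa [Walk.length_edges] at hl⟩
  have hmem : ∀ e ∈ p.edges, e ∈ (fromEdgeSet {e | e ∈ p.edges} ⊓ G).edgeSet := by
    intro e he
    have h1 := Walk.edges_subset_edgeSet p he
    rw [edgeSet_inf, edgeSet_fromEdgeSet]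
    exact ⟨⟨he, fun hd => G.not_isDiag_of_mem_edgeSet h1 hd⟩, h1⟩
  have hpath : (p.transfer _ hmem).IsPath := by
    rw [hac.isPath_iff_isChain, Walk.edges_transfer]
    exact hc
  have h2 := (Walk.isPath_iff_nil).1 hpath
  rw [← Walk.length_eq_zero_iff, Walk.length_transfer] at h2
  omega

/-- Two different non-backtracking walks with the same ends produce a short cycle. -/
theorem exists_cycle_of_two_chains {V : Type*} (G : SimpleGraph V) {u v : V} (p q : G.Walk u v)
    (hpq : p ≠ q) (hp : List.IsChain (· ≠ ·) p.edges) (hq : List.IsChain (· ≠ ·) q.edges) :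
    ∃ (w : V) (r : G.Walk w w), r.IsCycle ∧ r.length ≤ p.length + q.length := by
  by_contra hcon
  have hac : (fromEdgeSet {e | e ∈ p.edges ++ q.edges} ⊓ G).IsAcyclic := by
    by_contra hna
    apply hcon
    obtain ⟨w, r, hr, hl⟩ := girthFaces_edges_length G (p.edges ++ q.edges) hna
    exact ⟨w, r, hr, by rwa [List.length_append, Walk.length_edges, Walk.length_edges] at hl⟩
  have hmemp : ∀ e ∈ p.edges, e ∈ (fromEdgeSet {e | e ∈ p.edges ++ q.edges} ⊓ G).edgeSet := by
    intro e he
    have h1 := Walk.edges_subset_edgeSet p he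
    rw [edgeSet_inf, edgeSet_fromEdgeSet]
    exact ⟨⟨List.mem_append.2 (Or.inl he), fun hd => G.not_isDiag_of_mem_edgeSet h1 hd⟩, h1⟩
  have hmemq : ∀ e ∈ q.edges, e ∈ (fromEdgeSet {e | e ∈ p.edges ++ q.edges} ⊓ G).edgeSet := by
    intro e he
    have h1 := Walk.edges_subset_edgeSet q he
    rw [edgeSet_inf, edgeSet_fromEdgeSet]
    exact ⟨⟨List.mem_append.2 (Or.inr he), fun hd => G.not_isDiag_of_mem_edgeSet h1 hd⟩, h1⟩
  have hpathp : (p.transfer _ hmemp).IsPath := by
    rw [hac.isPath_iff_isChain, Walk.edges_transfer]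
    exact hp
  have hpathq : (q.transfer _ hmemq).IsPath := by
    rw [hac.isPath_iff_isChain, Walk.edges_transfer]
    exact hq
  have h1 := (hac.subsingleton_path u v).elim ⟨_, hpathp⟩ ⟨_, hpathq⟩
  have h2 := congrArg Subtype.val h1
  have h3 := congrArg Walk.support h2
  simp only [Walk.support_transfer] at h3
  exact hpq (Walk.ext_support h3)

private theorem girthFaces_fst_face {V : Type*} {G : SimpleGraph V} (R : RotationSystem G)
    (d : G.Dart) : (R.face d).fst = d.snd := by
  change (R.next d.symm).fst = _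
  rw [R.fst_next]
  rfl

/-- the walk along a face -/
private def girthFacesWalk {V : Type*} {G : SimpleGraph V} (R : RotationSystem G) (d : G.Dart) :
    (n : ℕ) → G.Walk d.fst ((R.face ^ n) d).fst
  | 0 => Walk.nil
  | n + 1 => (girthFacesWalk R d n).append
      ((Walk.cons (((R.face ^ n) d).adj) Walk.nil).copy rfl (by
        rw [pow_succ', Equiv.Perm.mul_apply, girthFaces_fst_face]))

private theorem girthFacesWalk_edges {V : Type*} {G : SimpleGraph V} (R : RotationSystem G)
    (d : G.Dart) (n : ℕ) :
    (girthFacesWalk R d n).edges = (List.range n).map fun i => ((R.face ^ i) d).edge := by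
  induction n with
  | zero => rfl
  | succ n ih =>
    rw [girthFacesWalk, Walk.edges_append, ih, List.range_succ, List.map_append]
    congr 1
    simp
    rfl

private theorem girthFaces_edge_ne {V : Type*} {G : SimpleGraph V}
    (hdeg : ∀ v w, G.Adj v w → ∃ w', w' ≠ w ∧ G.Adj v w') (R : RotationSystem G)
    (d : G.Dart) : d.edge ≠ (R.face d).edge := by
  intro h
  rcases (dart_edge_eq_iff _ _).1 h with h1 | h1
  · have h2 := girthFaces_fst_face R d
    rw [← h1] at h2
    exact d.adj.ne h2
  · have h2 : R.next d.symm = d.symm := by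
      change R.face d = _
      conv_rhs => rw [h1, Dart.symm_symm]
    obtain ⟨w', hw', hadj⟩ := hdeg d.snd d.fst d.adj.symm
    have h4 := R.sameCycle d.symm ⟨(d.snd, w'), hadj⟩ rfl
    obtain ⟨k, hk⟩ := h4
    rw [Function.IsFixedPt.perm_zpow h2 k] at hk
    have h5 := congrArg (fun e : G.Dart => e.snd) hk
    exact hw' h5.symm

private theorem girthFaces_chain {V : Type*} {G : SimpleGraph V}
    (hdeg : ∀ v w, G.Adj v w → ∃ w', w' ≠ w ∧ G.Adj v w') (R : RotationSystem G)
    (d : G.Dart) (n : ℕ) : List.IsChain (· ≠ ·) (girthFacesWalk R d n).edges := by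
  rw [girthFacesWalk_edges, List.isChain_map]
  cases n with
  | zero => simp
  | succ n =>
    rw [List.isChain_range_succ]
    intro m _
    rw [pow_succ', Equiv.Perm.mul_apply]
    exact girthFaces_edge_ne hdeg R _

private theorem girthFaces_minimalPeriod {V : Type*} [Finite V] {G : SimpleGraph V} (γ : ℕ)
    (hγ : ∀ (v : V) (p : G.Walk v v), p.IsCycle → γ ≤ p.length)
    (hdeg : ∀ v w, G.Adj v w → ∃ w', w' ≠ w ∧ G.Adj v w') (R : RotationSystem G)
    (d : G.Dart) : γ ≤ Function.minimalPeriod R.face d := by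
  have hper : (R.face ^ Function.minimalPeriod R.face d) d = d := by
    have := Function.isPeriodicPt_minimalPeriod R.face d
    rwa [Function.IsPeriodicPt, Function.IsFixedPt, ← Equiv.Perm.coe_pow] at this
  have hpos : 0 < Function.minimalPeriod R.face d := by
    classical
    have := Fintype.ofFinite V
    have : Finite G.Dart := inferInstance
    apply Function.minimalPeriod_pos_of_mem_periodicPts
    exact R.face.injective.mem_periodicPts d
  have hp : 0 < (((girthFacesWalk R d (Function.minimalPeriod R.face d)).copy rfl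
      (by rw [hper])) : G.Walk d.fst d.fst).length := by
    rw [Walk.length_copy, ← Walk.length_edges, girthFacesWalk_edges]
    simpa using hpos
  obtain ⟨w, q, hq, hl⟩ := exists_cycle_of_chain G _ hp (by
    rw [Walk.edges_copy]; exact girthFaces_chain hdeg R d _)
  refine (hγ w q hq).trans (hl.trans ?_)
  rw [Walk.length_copy, ← Walk.length_edges, girthFacesWalk_edges]
  simp

/-- Faces of a graph of girth at least `γ` without vertices of degree one have length at least
`γ`. -/
theorem girth_mul_numFaces_le {V : Type*} [Finite V] (G : SimpleGraph V) (γ : ℕ)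
    (hγ : ∀ (v : V) (p : G.Walk v v), p.IsCycle → γ ≤ p.length)
    (hdeg : ∀ v w, G.Adj v w → ∃ w', w' ≠ w ∧ G.Adj v w') (R : RotationSystem G) :
    γ * R.numFaces ≤ 2 * Nat.card G.edgeSet := by
  classical
  have := Fintype.ofFinite V
  have hcard : Fintype.card G.Dart = 2 * Nat.card G.edgeSet := by
    rw [G.dart_card_eq_twice_card_edges, Nat.card_eq_fintype_card, ← edgeFinset_card]
  rw [← hcard, RotationSystem.numFaces, Nat.card_eq_fintype_card, mul_comm, ← smul_eq_mul,
    ← Finset.card_univ, ← Finset.card_univ,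
    Finset.card_eq_sum_card_fiberwise (s := Finset.univ) (t := Finset.univ)
      (f := fun d : G.Dart => Quotient.mk (Equiv.Perm.SameCycle.setoid R.face) d)
      (fun _ _ => Finset.mem_coe.2 (Finset.mem_univ _))]
  apply Finset.card_nsmul_le_sum
  intro q _
  induction q using Quotient.ind with
  | _ d =>
  refine (girthFaces_minimalPeriod γ hγ hdeg R d).trans ?_
  rw [← Finset.card_range (Function.minimalPeriod R.face d)]
  apply Finset.card_le_card_of_injOn (fun i => R.face^[i] d)
  · intro i _
    simp only [Finset.coe_filter, Finset.mem_univ, true_and, Set.mem_ofPred_eq]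
    apply Quotient.sound
    change R.face.SameCycle _ _
    refine Equiv.Perm.SameCycle.symm ⟨i, ?_⟩
    rw [zpow_natCast, Equiv.Perm.coe_pow]
  · rw [Finset.coe_range]
    exact Function.iterate_injOn_Iio_minimalPeriod

end Pool.Agent.Lib.MP_72b45c_co
end

section

/-!
Rotation systems as pairs of permutations of the darts.
-/

namespace Pool.Agent.Lib.MP_72b45c_co

open SimpleGraph Equiv Equiv.Perm

/-- the reversal of darts as a permutation -/
def rev {V : Type*} (G : SimpleGraph V) : Perm G.Dart := (Dart.symm_involutive (G := G)).toPerm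

/-- a function that is invariant under a permutation is constant on its cycles -/
theorem dartIso_invariant {X α : Type*} {π : Perm X} {f : X → α} (hf : ∀ x, f (π x) = f x)
    {x y : X} (h : π.SameCycle x y) : f x = f y := by
  obtain ⟨i, rfl⟩ := h
  have key : ∀ (i : ℤ) (x : X), f ((π ^ i) x) = f x := by
    intro i
    induction i using Int.induction_on with
    | zero => intro x; simp
    | succ n ih =>
      intro x
      rw [zpow_add_one, Perm.mul_apply, ih, hf]
    | pred n ih =>
      intro x
      rw [zpow_sub_one, Perm.mul_apply, ih]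
      have h1 : π (π⁻¹ x) = x := Equiv.apply_symm_apply π x
      rw [← hf (π⁻¹ x), h1]
  exact (key i x).symm

/-- steps of `π` inside cycles of `ρ` -/
theorem dartIso_sameCycle {X : Type*} {π ρ : Perm X} (hf : ∀ x, ρ.SameCycle x (π x))
    {x y : X} (h : π.SameCycle x y) : ρ.SameCycle x y := by
  have h1 := dartIso_invariant (π := π) (f := fun x => Quotient.mk (SameCycle.setoid ρ) x)
    (fun x => Quotient.sound (s := SameCycle.setoid ρ) (hf x).symm) h
  exact Quotient.exact (s := SameCycle.setoid ρ) h1

theorem dartIso_finite {V : Type*} [Finite V] (G : SimpleGraph V) : Finite G.Dart := by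
  refine Finite.of_injective (fun d : G.Dart => (d.fst, d.snd)) ?_
  intro d d' h
  simp only [Prod.mk.injEq] at h
  exact Dart.ext _ _ (Prod.ext h.1 h.2)

/-- the number of cycles of the rotation is the number of vertices that are not isolated -/
theorem cyc_next {V : Type*} [Finite V] (G : SimpleGraph V) (R : RotationSystem G) :
    cyc R.next + numIsolated G = Nat.card V := by
  classical
  have h1 : cyc R.next = Nat.card {v : V // ¬ ∀ w, ¬ G.Adj v w} := by
    unfold cyc
    refine Nat.card_eq_of_bijective (Quotient.lift (s := SameCycle.setoid R.next)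
      (fun d : G.Dart => (⟨d.fst, fun h => h d.snd d.adj⟩ : {v : V // ¬ ∀ w, ¬ G.Adj v w}))
      ?_) ⟨?_, ?_⟩
    · intro d d' h
      exact Subtype.ext (dartIso_invariant (f := fun d : G.Dart => d.fst) R.fst_next h)
    · intro a b
      induction a using Quotient.inductionOn with | h d =>
      induction b using Quotient.inductionOn with | h d' =>
      intro h
      apply Quotient.sound
      exact R.sameCycle d d' (congrArg Subtype.val h)
    · rintro ⟨v, hv⟩
      push Not at hv
      obtain ⟨w, hw⟩ := hv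
      exact ⟨Quotient.mk _ ⟨(v, w), hw⟩, rfl⟩
  rw [h1, numIsolated, add_comm, ← Nat.card_sum]
  exact Nat.card_congr (Equiv.sumCompl _)

theorem dartIso_walk {V : Type*} (G : SimpleGraph V) (R : RotationSystem G)
    (ρ : Perm G.Dart)
    (h : ∀ d, ρ.SameCycle d (R.next d) ∧ ρ.SameCycle d d.symm) {u v : V} (p : G.Walk u v) :
    ∀ d d' : G.Dart, d.fst = u → d'.fst = v → ρ.SameCycle d d' := by
  have hA : ∀ d d' : G.Dart, d.fst = d'.fst → ρ.SameCycle d d' := fun d d' hd =>
    dartIso_sameCycle (fun d => (h d).1) (R.sameCycle d d' hd)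
  induction p with
  | nil => intro d d' h1 h2; exact hA d d' (h1.trans h2.symm)
  | @cons u w v huw p ih =>
    intro d d' h1 h2
    have e1 : ρ.SameCycle d ⟨(u, w), huw⟩ := hA _ _ h1
    have e2 : ρ.SameCycle (⟨(u, w), huw⟩ : G.Dart) (Dart.symm ⟨(u, w), huw⟩) := (h _).2
    exact e1.trans (e2.trans (ih _ d' rfl h2))

/-- If the cycles of `ρ` are closed under the rotation and under reversal, and `ρ` is the product
of the rotation and of a product of reversals, then the cycles of `ρ` are the components with
edges. -/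
theorem cyc_components {V : Type*} [Finite V] (G : SimpleGraph V) (R : RotationSystem G)
    (κ : Perm G.Dart) (hκ : ∀ d, κ d = d ∨ κ d = d.symm)
    (h : ∀ d, (R.next * κ).SameCycle d (R.next d) ∧ (R.next * κ).SameCycle d d.symm) :
    cyc (R.next * κ) + numIsolated G = Nat.card G.ConnectedComponent := by
  classical
  -- the component of the start of a dart
  have hinv : ∀ d : G.Dart, G.connectedComponentMk ((R.next * κ) d).fst =
      G.connectedComponentMk d.fst := by
    intro d
    rw [Perm.mul_apply, R.fst_next]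
    rcases hκ d with hd | hd
    · rw [hd]
    · rw [hd]
      exact ConnectedComponent.sound d.adj.symm.reachable
  have h1 : cyc (R.next * κ) = Nat.card {c : G.ConnectedComponent //
      ∃ d : G.Dart, G.connectedComponentMk d.fst = c} := by
    unfold cyc
    refine Nat.card_eq_of_bijective (Quotient.lift (s := SameCycle.setoid (R.next * κ))
      (fun d : G.Dart => (⟨G.connectedComponentMk d.fst, d, rfl⟩ :
        {c : G.ConnectedComponent // ∃ d : G.Dart, G.connectedComponentMk d.fst = c}))
      ?_) ⟨?_, ?_⟩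
    · intro d d' hd
      exact Subtype.ext (dartIso_invariant
        (f := fun d : G.Dart => G.connectedComponentMk d.fst) hinv hd)
    · intro a b
      induction a using Quotient.inductionOn with | h d =>
      induction b using Quotient.inductionOn with | h d' =>
      intro hdd
      apply Quotient.sound
      have h2 : G.connectedComponentMk d.fst = G.connectedComponentMk d'.fst :=
        congrArg Subtype.val hdd
      obtain ⟨p⟩ := ConnectedComponent.exact h2
      exact dartIso_walk G R _ h p d d' rfl rfl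
    · rintro ⟨c, d, hd⟩
      exact ⟨Quotient.mk _ d, Subtype.ext hd⟩
  have hiso : ∀ {v w : V}, (∀ w, ¬ G.Adj v w) → G.Reachable v w → v = w := by
    rintro v w hv ⟨p⟩
    cases p with
    | nil => rfl
    | cons h _ => exact absurd h (hv _)
  have h2 : numIsolated G = Nat.card {c : G.ConnectedComponent //
      ¬ ∃ d : G.Dart, G.connectedComponentMk d.fst = c} := by
    unfold numIsolated
    refine Nat.card_eq_of_bijective (fun v => (⟨G.connectedComponentMk v.1, ?_⟩ :
        {c : G.ConnectedComponent // ¬ ∃ d : G.Dart, G.connectedComponentMk d.fst = c}))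
      ⟨?_, ?_⟩
    · rintro ⟨d, hd⟩
      have h3 := hiso v.2 (ConnectedComponent.exact hd).symm
      exact v.2 d.snd (h3 ▸ d.adj)
    · intro v v' hv
      have h3 : G.connectedComponentMk v.1 = G.connectedComponentMk v'.1 :=
        congrArg Subtype.val hv
      exact Subtype.ext (hiso v.2 (ConnectedComponent.exact h3))
    · rintro ⟨c, hc⟩
      induction c using ConnectedComponent.ind with | h v =>
      refine ⟨⟨v, fun w hw => hc ⟨⟨(v, w), hw⟩, rfl⟩⟩, rfl⟩
  rw [h1, h2, ← Nat.card_sum]
  exact Nat.card_congr (Equiv.sumCompl _)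

theorem dartIso_fst {V W : Type*} {G : SimpleGraph V} {H : SimpleGraph W} (R : RotationSystem G)
    (R' : RotationSystem H) (e : G.Dart → H.Dart) (h1 : ∀ d, e (R.next d) = R'.next (e d))
    {d d' : G.Dart} (h : d.fst = d'.fst) : (e d).fst = (e d').fst := by
  refine dartIso_invariant (π := R.next) (f := fun d => (e d).fst) ?_ (R.sameCycle d d' h)
  intro d
  simp only [h1, R'.fst_next]

/-- isomorphic dart structures give isomorphic graphs -/
theorem iso_of_dart_equiv {m : ℕ} (G H : SimpleGraph (Fin m)) (R : RotationSystem G)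
    (R' : RotationSystem H) (e : G.Dart ≃ H.Dart) (h1 : ∀ d, e (R.next d) = R'.next (e d))
    (h2 : ∀ d, e d.symm = (e d).symm) : Nonempty (G ≃g H) := by
  classical
  have h1' : ∀ d, e.symm (R'.next d) = R.next (e.symm d) := by
    intro d
    rw [Equiv.symm_apply_eq, h1, Equiv.apply_symm_apply]
  -- the bijection of the vertices that are not isolated
  have hp : ∀ v : {v : Fin m // ∃ w, G.Adj v w}, ∃ d : G.Dart, d.fst = v.1 := by
    rintro ⟨v, w, hw⟩
    exact ⟨⟨(v, w), hw⟩, rfl⟩
  have hq : ∀ v : {v : Fin m // ∃ w, H.Adj v w}, ∃ d : H.Dart, d.fst = v.1 := by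
    rintro ⟨v, w, hw⟩
    exact ⟨⟨(v, w), hw⟩, rfl⟩
  choose dg hdg using hp
  choose dh hdh using hq
  let E : {v : Fin m // ∃ w, G.Adj v w} ≃ {v : Fin m // ∃ w, H.Adj v w} :=
    { toFun := fun v => ⟨(e (dg v)).fst, (e (dg v)).snd, (e (dg v)).adj⟩
      invFun := fun v => ⟨(e.symm (dh v)).fst, (e.symm (dh v)).snd, (e.symm (dh v)).adj⟩
      left_inv := by
        intro v
        apply Subtype.ext
        set v' : {v : Fin m // ∃ w, H.Adj v w} :=
          ⟨(e (dg v)).fst, (e (dg v)).snd, (e (dg v)).adj⟩ with hv'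
        have h3 : (dh v').fst = (e (dg v)).fst := hdh v'
        have h4 := dartIso_fst R' R e.symm h1' h3
        change (e.symm (dh v')).fst = v.1
        rw [h4, Equiv.symm_apply_apply, hdg]
      right_inv := by
        intro v
        apply Subtype.ext
        set v' : {v : Fin m // ∃ w, G.Adj v w} :=
          ⟨(e.symm (dh v)).fst, (e.symm (dh v)).snd, (e.symm (dh v)).adj⟩ with hv'
        have h3 : (dg v').fst = (e.symm (dh v)).fst := hdg v'
        have h4 := dartIso_fst R R' e h1 h3
        change (e (dg v')).fst = v.1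
        rw [h4, Equiv.apply_symm_apply, hdh] }
  have hE : ∀ d : G.Dart, ∀ hd : ∃ w, G.Adj d.fst w, (E ⟨d.fst, hd⟩).1 = (e d).fst := by
    intro d hd
    exact dartIso_fst R R' e h1 (hdg ⟨d.fst, hd⟩)
  refine ⟨⟨E.extendSubtype, ?_⟩⟩
  intro u v
  constructor
  · intro huv
    have hu : ∃ w, G.Adj u w := by
      by_contra hu
      exact E.extendSubtype_not_mem u hu ⟨_, huv⟩
    have hv : ∃ w, G.Adj v w := by
      by_contra hv
      exact E.extendSubtype_not_mem v hv ⟨_, huv.symm⟩
    rw [E.extendSubtype_apply_of_mem u hu, E.extendSubtype_apply_of_mem v hv] at huv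
    set d' : H.Dart := ⟨(_, _), huv⟩ with hd'
    set d : G.Dart := e.symm d' with hd
    have h3 : e d = d' := by rw [hd, Equiv.apply_symm_apply]
    have h4 : d.fst = u := by
      have h5 : E ⟨d.fst, d.snd, d.adj⟩ = E ⟨u, hu⟩ := by
        apply Subtype.ext
        rw [hE d ⟨d.snd, d.adj⟩, h3]
        rfl
      exact congrArg Subtype.val (E.injective h5)
    have h6 : d.snd = v := by
      have h5 : E ⟨d.symm.fst, d.symm.snd, d.symm.adj⟩ = E ⟨v, hv⟩ := by
        apply Subtype.ext
        rw [hE d.symm ⟨d.symm.snd, d.symm.adj⟩, h2, h3]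
        rfl
      exact congrArg Subtype.val (E.injective h5)
    have h7 := d.adj
    rw [h4, h6] at h7
    exact h7
  · intro huv
    set d : G.Dart := ⟨(u, v), huv⟩ with hd
    rw [E.extendSubtype_apply_of_mem u ⟨v, huv⟩, E.extendSubtype_apply_of_mem v ⟨u, huv.symm⟩]
    have h3 := hE d ⟨v, huv⟩
    have h4 := hE d.symm ⟨u, huv.symm⟩
    rw [h2] at h4
    have h5 := (e d).adj
    have e1 : (E ⟨u, v, huv⟩).1 = (e d).fst := h3
    have e2 : (E ⟨v, u, huv.symm⟩).1 = (e d).snd := h4
    rw [e1, e2]
    exact h5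

end Pool.Agent.Lib.MP_72b45c_co
end

section

section

/-!
Two counting lemmas on permutations of `Fin N`.
-/

namespace Pool.Agent.Lib.MP_72b45c_co

open Equiv Equiv.Perm

theorem card_conjClasses_le (N : ℕ) : Nat.card (ConjClasses (Perm (Fin N))) ≤ 2 ^ N := by
  classical
  let f : ConjClasses (Perm (Fin N)) → Nat.Partition (Fintype.card (Fin N)) :=
    Quotient.lift (fun σ : Perm (Fin N) => σ.partition)
      (fun a b h => partition_eq_of_isConj.1 h)
  have hf : Function.Injective f := by
    intro a b
    refine Quotient.inductionOn₂ a b ?_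
    intro σ τ h
    exact Quotient.sound (partition_eq_of_isConj.2 h)
  have h1 : Nat.card (ConjClasses (Perm (Fin N))) ≤
      Nat.card (Nat.Partition (Fintype.card (Fin N))) :=
    Nat.card_le_card_of_injective f hf
  have h2 : Nat.card (Nat.Partition (Fintype.card (Fin N))) ≤
      Nat.card (Composition (Fintype.card (Fin N))) :=
    Nat.card_le_card_of_surjective _
      (Nat.Partition.ofComposition_surj (n := Fintype.card (Fin N)))
  have h3 : Nat.card (Composition (Fintype.card (Fin N))) = 2 ^ (N - 1) := by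
    rw [Nat.card_eq_fintype_card, composition_card, Fintype.card_fin]
  calc _ ≤ _ := h1
    _ ≤ _ := h2
    _ = 2 ^ (N - 1) := h3
    _ ≤ 2 ^ N := Nat.pow_le_pow_right (by norm_num) (Nat.sub_le _ _)

/-- The rank of `x` with respect to `A`: the number of smaller elements of `A`. -/
def permCountRk {N : ℕ} (A : Finset (Fin N)) (x : Fin N) : ℕ := (A.filter (fun a => a < x)).card

theorem permCount_rk_lt_of_lt {N : ℕ} {A : Finset (Fin N)} {x y : Fin N} (hx : x ∈ A)
    (h : x < y) : permCountRk A x < permCountRk A y := by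
  unfold permCountRk
  apply Finset.card_lt_card
  rw [Finset.ssubset_iff_of_subset]
  · refine ⟨x, ?_, ?_⟩
    · rw [Finset.mem_filter]
      exact ⟨hx, h⟩
    · rw [Finset.mem_filter]
      exact fun h' => lt_irrefl _ h'.2
  · intro a ha
    rw [Finset.mem_filter] at ha ⊢
    exact ⟨ha.1, ha.2.trans h⟩

theorem permCount_rk_inj {N : ℕ} {A : Finset (Fin N)} {x y : Fin N} (hx : x ∈ A) (hy : y ∈ A)
    (h : permCountRk A x = permCountRk A y) : x = y := by
  rcases lt_trichotomy x y with hlt | heq | hgt
  · exact absurd h (permCount_rk_lt_of_lt hx hlt).ne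
  · exact heq
  · exact absurd h (permCount_rk_lt_of_lt hy hgt).ne'

theorem permCount_rk_lt_card {N : ℕ} {A : Finset (Fin N)} {x : Fin N} (hx : x ∈ A) :
    permCountRk A x < A.card := by
  unfold permCountRk
  apply Finset.card_lt_card
  rw [Finset.ssubset_iff_of_subset (Finset.filter_subset _ _)]
  refine ⟨x, hx, ?_⟩
  rw [Finset.mem_filter]
  exact fun h' => lt_irrefl _ h'.2

/-- The points moved up. -/
def permCountUp {N : ℕ} (κ : Perm (Fin N)) : Finset (Fin N) :=
  Finset.univ.filter (fun x => x < κ x)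

/-- The points moved down. -/
def permCountDown {N : ℕ} (κ : Perm (Fin N)) : Finset (Fin N) :=
  Finset.univ.filter (fun x => κ x < x)

theorem permCount_mem_up {N : ℕ} {κ : Perm (Fin N)} {x : Fin N} :
    x ∈ permCountUp κ ↔ x < κ x := by
  simp [permCountUp]

theorem permCount_mem_down {N : ℕ} {κ : Perm (Fin N)} {x : Fin N} :
    x ∈ permCountDown κ ↔ κ x < x := by
  simp [permCountDown]

theorem permCount_up_down {N : ℕ} {κ : Perm (Fin N)} (hκ : ∀ x, κ (κ x) = x) {x : Fin N} :
    x ∈ permCountUp κ ↔ κ x ∈ permCountDown κ := by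
  rw [permCount_mem_up, permCount_mem_down, hκ]

theorem permCount_down_up {N : ℕ} {κ : Perm (Fin N)} (hκ : ∀ x, κ (κ x) = x) {x : Fin N} :
    x ∈ permCountDown κ ↔ κ x ∈ permCountUp κ := by
  rw [permCount_mem_up, permCount_mem_down, hκ]

theorem permCount_card_eq {N : ℕ} {κ : Perm (Fin N)} (hκ : ∀ x, κ (κ x) = x) :
    (permCountUp κ).card = (permCountDown κ).card := by
  apply Finset.card_bij (fun x _ => κ x)
  · intro x hx
    exact (permCount_up_down hκ).1 hx
  · intro x _ y _ h
    exact κ.injective h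
  · intro y hy
    exact ⟨κ y, (permCount_down_up hκ).1 hy, hκ y⟩

theorem permCount_card_up_le {N s : ℕ} {κ : Perm (Fin N)} (hκ : ∀ x, κ (κ x) = x)
    (hs : {x | κ x ≠ x}.ncard ≤ 2 * s) : (permCountUp κ).card ≤ s := by
  have hdis : Disjoint (permCountUp κ) (permCountDown κ) := by
    rw [Finset.disjoint_left]
    intro x hx hy
    rw [permCount_mem_up] at hx
    rw [permCount_mem_down] at hy
    exact lt_asymm hx hy
  have hU : {x | κ x ≠ x} = ((permCountUp κ ∪ permCountDown κ : Finset (Fin N)) : Set (Fin N)) := by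
    apply Set.ext
    intro x
    rw [Finset.mem_coe, Finset.mem_union, permCount_mem_up, permCount_mem_down]
    constructor
    · intro h
      rcases lt_or_gt_of_ne (show κ x ≠ x from h) with h | h
      · exact Or.inr h
      · exact Or.inl h
    · rintro (h | h)
      · exact h.ne'
      · exact h.ne
  rw [hU, Set.ncard_coe_finset, Finset.card_union_of_disjoint hdis, ← permCount_card_eq hκ] at hs
  omega

/-- The code of an involution. -/
noncomputable def permCountCode {N s : ℕ}
    (κ : {κ : Perm (Fin N) // (∀ x, κ (κ x) = x) ∧ {x | κ x ≠ x}.ncard ≤ 2 * s}) :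
    (Fin N → Fin 3) × (Fin s → Fin (s + 1)) :=
  (fun x => if x < κ.1 x then 1 else if κ.1 x < x then 2 else 0,
   fun i => by
    classical
    exact if h : ∃ x, x ∈ permCountUp κ.1 ∧ permCountRk (permCountUp κ.1) x = i.val then
      Fin.ofNat (s + 1) (permCountRk (permCountDown κ.1) (κ.1 h.choose)) else 0)

theorem permCount_code_inj {N s : ℕ} : Function.Injective (permCountCode (N := N) (s := s)) := by
  classical
  rintro ⟨κ, hκ, hs⟩ ⟨τ, hτ, ht⟩ h
  have hw : ∀ x, (if x < κ x then (1 : Fin 3) else if κ x < x then 2 else 0) =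
      (if x < τ x then (1 : Fin 3) else if τ x < x then 2 else 0) := fun x =>
    congrFun (congrArg Prod.fst h) x
  have hup : permCountUp κ = permCountUp τ := by
    apply Finset.ext
    intro x
    rw [permCount_mem_up, permCount_mem_up]
    have := hw x
    constructor
    · intro h1
      by_contra h2
      rw [if_pos h1, if_neg h2] at this
      by_cases h3 : τ x < x
      · rw [if_pos h3] at this
        exact absurd this (by decide)
      · rw [if_neg h3] at this
        exact absurd this (by decide)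
    · intro h1
      by_contra h2
      rw [if_pos h1, if_neg h2] at this
      by_cases h3 : κ x < x
      · rw [if_pos h3] at this
        exact absurd this (by decide)
      · rw [if_neg h3] at this
        exact absurd this (by decide)
  have hdown : permCountDown κ = permCountDown τ := by
    apply Finset.ext
    intro x
    rw [permCount_mem_down, permCount_mem_down]
    have := hw x
    constructor
    · intro h1
      by_contra h2
      rw [if_neg (lt_asymm h1), if_pos h1, if_neg h2] at this
      by_cases h3 : x < τ x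
      · rw [if_pos h3] at this
        exact absurd this (by decide)
      · rw [if_neg h3] at this
        exact absurd this (by decide)
    · intro h1
      by_contra h2
      rw [if_neg (lt_asymm h1), if_pos h1, if_neg h2] at this
      by_cases h3 : x < κ x
      · rw [if_pos h3] at this
        exact absurd this (by decide)
      · rw [if_neg h3] at this
        exact absurd this (by decide)
  have key : ∀ (ρ : Perm (Fin N)) (hρ : (∀ x, ρ (ρ x) = x) ∧ {x | ρ x ≠ x}.ncard ≤ 2 * s)
      (x : Fin N) (hx : x ∈ permCountUp ρ) (i : Fin s)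
      (_ : permCountRk (permCountUp ρ) x = i.val),
      ((permCountCode (N := N) (s := s) ⟨ρ, hρ⟩).2 i).val =
        permCountRk (permCountDown ρ) (ρ x) := by
    intro ρ hρ x hx i hi
    have hex : ∃ x, x ∈ permCountUp ρ ∧ permCountRk (permCountUp ρ) x = i.val := ⟨x, hx, hi⟩
    have h1 : (permCountCode (N := N) (s := s) ⟨ρ, hρ⟩).2 i =
        Fin.ofNat (s + 1) (permCountRk (permCountDown ρ) (ρ hex.choose)) := by
      unfold permCountCode
      exact dif_pos hex
    have h2 : hex.choose = x :=
      permCount_rk_inj hex.choose_spec.1 hx (hex.choose_spec.2.trans hi.symm)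
    rw [h1, h2]
    apply Nat.mod_eq_of_lt
    have h3 := permCount_rk_lt_card ((permCount_up_down hρ.1).1 hx)
    have h4 := permCount_card_up_le hρ.1 hρ.2
    rw [permCount_card_eq hρ.1] at h4
    omega
  have hupeq : ∀ x, x ∈ permCountUp κ → κ x = τ x := by
    intro x hx
    have hx' : x ∈ permCountUp τ := hup ▸ hx
    have hlt : permCountRk (permCountUp κ) x < s :=
      lt_of_lt_of_le (permCount_rk_lt_card hx) (permCount_card_up_le hκ hs)
    have e1 := key κ ⟨hκ, hs⟩ x hx ⟨_, hlt⟩ rfl
    have e2 := key τ ⟨hτ, ht⟩ x hx' ⟨_, hlt⟩ (congrArg (fun A => permCountRk A x) hup.symm)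
    rw [h, e2, hdown] at e1
    apply permCount_rk_inj (A := permCountDown τ)
    · rw [← hdown]
      exact (permCount_up_down hκ).1 hx
    · exact (permCount_up_down hτ).1 hx'
    · exact e1.symm
  apply Subtype.ext
  apply Equiv.ext
  intro x
  show κ x = τ x
  rcases lt_trichotomy x (κ x) with h1 | h1 | h1
  · exact hupeq x (permCount_mem_up.2 h1)
  · have n1 : x ∉ permCountUp τ := by
      rw [← hup, permCount_mem_up]
      intro h2
      exact absurd h1 h2.ne
    have n2 : x ∉ permCountDown τ := by
      rw [← hdown, permCount_mem_down]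
      intro h2
      exact absurd h1.symm h2.ne
    rw [permCount_mem_up] at n1
    rw [permCount_mem_down] at n2
    rw [← h1]
    exact le_antisymm (not_lt.1 n2) (not_lt.1 n1)
  · have h2 : κ x ∈ permCountUp κ := (permCount_down_up hκ).1 (permCount_mem_down.2 h1)
    have h3 := hupeq _ h2
    rw [hκ] at h3
    have h4 : τ x = τ (τ (κ x)) := congrArg τ h3
    rw [hτ] at h4
    exact h4.symm

theorem card_involutions_le (N s : ℕ) :
    Nat.card {κ : Perm (Fin N) // (∀ x, κ (κ x) = x) ∧ {x | κ x ≠ x}.ncard ≤ 2 * s} ≤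
      3 ^ N * (s + 1) ^ s := by
  have h := Nat.card_le_card_of_injective (permCountCode (N := N) (s := s)) permCount_code_inj
  refine h.trans (le_of_eq ?_)
  rw [Nat.card_prod, Nat.card_fun, Nat.card_fun]
  simp

end Pool.Agent.Lib.MP_72b45c_co
end

section

/-!
A large family of connected graphs of large girth on `n` vertices: the cycle on `Fin n` plus `M`
edges added one by one.
-/

namespace Pool.Agent.Lib.MP_72b45c_co

open SimpleGraph

/-- the graph obtained from the cycle on `Fin n` by adding the pairs in `l` as edges -/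
def addEdges (n : ℕ) : List (Fin n × Fin n) → SimpleGraph (Fin n)
  | [] => cycleGraph n
  | e :: l => addEdges n l ⊔ edge e.1 e.2

/-- the pair `e` may be added to `G` -/
def Avail {n : ℕ} (γ Δ : ℕ) (G : SimpleGraph (Fin n)) (e : Fin n × Fin n) : Prop :=
  (G.neighborSet e.1).ncard < Δ ∧ (G.neighborSet e.2).ncard < Δ ∧
    ∀ p : G.Walk e.1 e.2, γ ≤ p.length + 1

/-- the lists all of whose entries were admissible when added -/
def Good (n γ Δ : ℕ) : List (Fin n × Fin n) → Prop
  | [] => True
  | e :: l => Good n γ Δ l ∧ Avail γ Δ (addEdges n l) e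

theorem family_edges_of_snd {V : Type*} {G : SimpleGraph V} {u v : V} (p : G.Walk u u)
    (hp : p.IsCycle) (hv : p.snd = v) :
    ∃ q : G.Walk v u, q.length + 1 = p.length ∧ s(u, v) ∉ q.edges := by
  cases p with
  | nil => exact absurd hp Walk.not_isCycle_nil
  | cons h q =>
    rw [Walk.snd_cons] at hv
    subst hv
    exact ⟨q, rfl, ((Walk.cons_isCycle_iff q h).1 hp).2⟩

/-- adding an edge between two vertices at distance at least `γ - 1` keeps the girth at least
`γ` -/
theorem girth_add_edge {V : Type*} (G : SimpleGraph V) (γ : ℕ) (u v : V)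
    (hγ : ∀ (w : V) (p : G.Walk w w), p.IsCycle → γ ≤ p.length)
    (huv : ∀ p : G.Walk u v, γ ≤ p.length + 1) :
    ∀ (w : V) (p : (G ⊔ edge u v).Walk w w), p.IsCycle → γ ≤ p.length := by
  classical
  intro w p hp
  have hedge : ∀ {a b : V} (q : (G ⊔ edge u v).Walk a b), s(u, v) ∉ q.edges →
      ∀ e ∈ q.edges, e ∈ G.edgeSet := by
    intro a b q hq e he
    have h1 := q.edges_subset_edgeSet he
    rw [edgeSet_sup] at h1
    rcases h1 with h1 | h1
    · exact h1
    · have h2 := edgeSet_edge_subset h1
      rw [Set.mem_singleton_iff] at h2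
      subst h2
      exact absurd he hq
  by_cases huvp : s(u, v) ∈ p.edges
  · have hu : u ∈ p.support := p.fst_mem_support_of_mem_edges huvp
    set p' := p.rotate u hu with hp'
    have hc' : p'.IsCycle := (Walk.isCycle_rotate hu).2 hp
    have hlen : p'.length = p.length := by rw [hp', Walk.length_rotate]
    have hmem : s(u, v) ∈ p'.edges := (p.rotate_edges u hu).perm.mem_iff.2 huvp
    have hadj : v ∈ p'.toSubgraph.neighborSet u := by
      rw [Subgraph.mem_neighborSet, ← Subgraph.mem_edgeSet, Walk.mem_edges_toSubgraph]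
      exact hmem
    rw [hc'.neighborSet_toSubgraph_endpoint] at hadj
    obtain ⟨q, hq1, hq2⟩ : ∃ q : (G ⊔ edge u v).Walk v u, q.length + 1 = p.length ∧
        s(u, v) ∉ q.edges := by
      rcases hadj with h1 | h1
      · obtain ⟨q, hq1, hq2⟩ := family_edges_of_snd p' hc' h1.symm
        exact ⟨q, by rw [hq1, hlen], hq2⟩
      · obtain ⟨q, hq1, hq2⟩ := family_edges_of_snd (v := v) p'.reverse hc'.reverse
          (by rw [Walk.snd_reverse]; exact h1.symm)
        exact ⟨q, by rw [hq1, Walk.length_reverse, hlen], hq2⟩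
    have h3 := huv (q.transfer G (hedge q hq2)).reverse
    rw [Walk.length_reverse, Walk.length_transfer] at h3
    omega
  · have h1 := hγ w (p.transfer G (hedge p huvp)) (hp.transfer _)
    rwa [Walk.length_transfer] at h1

theorem family_cycleGraph_ncard {n : ℕ} (hn : 3 ≤ n) (v : Fin n) :
    ((cycleGraph n).neighborSet v).ncard = 2 := by
  obtain ⟨k, rfl⟩ : ∃ k, n = k + 3 := ⟨n - 3, by omega⟩
  have h := cycleGraph_degree_three_le (n := k) (v := v)
  rw [← h, ← card_neighborSet_eq_degree, ← Nat.card_eq_fintype_card, Nat.card_coe_set_eq]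

theorem family_cycleGraph_connected {n : ℕ} (hn : 3 ≤ n) : (cycleGraph n).Connected := by
  obtain ⟨k, rfl⟩ : ∃ k, n = k + 1 := ⟨n - 1, by omega⟩
  exact cycleGraph_connected

theorem cycleGraph_girth {n : ℕ} (w : Fin n) (p : (cycleGraph n).Walk w w) (hp : p.IsCycle) :
    n ≤ p.length := by
  classical
  rcases lt_or_ge n 3 with hn | hn
  · exact (hn.le).trans hp.three_le_length
  · have hclosed : ∀ x ∈ p.support, ∀ y, (cycleGraph n).Adj x y → y ∈ p.support := by
      intro x hx y hxy
      have h1 : p.toSubgraph.neighborSet x ⊆ (cycleGraph n).neighborSet x :=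
        p.toSubgraph.neighborSet_subset x
      have h2 : (p.toSubgraph.neighborSet x).ncard = 2 :=
        hp.ncard_neighborSet_toSubgraph_eq_two hx
      have h3 : p.toSubgraph.neighborSet x = (cycleGraph n).neighborSet x :=
        Set.eq_of_subset_of_ncard_le h1 (by rw [h2, family_cycleGraph_ncard hn])
          (Set.toFinite _)
      have h4 : y ∈ p.toSubgraph.neighborSet x := by rw [h3]; exact hxy
      exact (Walk.mem_verts_toSubgraph p).1 (p.toSubgraph.edge_vert h4.symm)
    have hall : ∀ x, x ∈ p.support := by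
      intro x
      obtain ⟨q⟩ := (family_cycleGraph_connected hn).preconnected w x
      have : ∀ {a b : Fin n} (q : (cycleGraph n).Walk a b), a ∈ p.support → b ∈ p.support := by
        intro a b q
        induction q with
        | nil => exact id
        | cons h q ih => exact fun ha => ih (hclosed _ ha _ h)
      exact this q p.start_mem_support
    have htail : ∀ x, x ∈ p.support.tail := by
      intro x
      rcases eq_or_ne x w with rfl | hxw
      · exact Walk.end_mem_tail_support (fun h => hp.ne_nil h.eq_nil)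
      · have h1 := hall x
        rw [← Walk.cons_tail_support, List.mem_cons] at h1
        exact h1.resolve_left hxw
    have h5 : (Finset.univ : Finset (Fin n)).card ≤ p.support.tail.toFinset.card :=
      Finset.card_le_card fun x _ => List.mem_toFinset.2 (htail x)
    rw [Finset.card_univ, Fintype.card_fin] at h5
    refine h5.trans ((List.toFinset_card_le _).trans ?_)
    rw [List.length_tail, Walk.length_support]
    omega

theorem good_props {n γ Δ : ℕ} (hγ : 3 ≤ γ) (hn : γ ≤ n) (hΔ : 2 ≤ Δ)
    (l : List (Fin n × Fin n)) (h : Good n γ Δ l) :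
    (addEdges n l).Connected ∧ Nat.card (addEdges n l).edgeSet = n + l.length ∧
      (∀ (v : Fin n) (p : (addEdges n l).Walk v v), p.IsCycle → γ ≤ p.length) ∧
      (∀ v w, (addEdges n l).Adj v w → ∃ w', w' ≠ w ∧ (addEdges n l).Adj v w') ∧
      ∀ v, ((addEdges n l).neighborSet v).ncard ≤ Δ := by
  classical
  induction l with
  | nil =>
    have hn3 : 3 ≤ n := hγ.trans hn
    refine ⟨family_cycleGraph_connected hn3, ?_, fun v p hp => hn.trans (cycleGraph_girth v p hp),
      ?_, ?_⟩
    · have h1 := (cycleGraph n).sum_degrees_eq_twice_card_edges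
      have h2 : ∀ v, (cycleGraph n).degree v = 2 := by
        intro v
        rw [← card_neighborSet_eq_degree, ← Nat.card_eq_fintype_card, Nat.card_coe_set_eq,
          family_cycleGraph_ncard hn3]
      simp only [h2, Finset.sum_const, Finset.card_univ, Fintype.card_fin, smul_eq_mul] at h1
      show Nat.card (cycleGraph n).edgeSet = n + 0
      rw [Nat.card_eq_fintype_card, ← edgeFinset_card]
      omega
    · intro v w hvw
      have h1 := family_cycleGraph_ncard hn3 v
      by_contra hcon
      have h2 : (cycleGraph n).neighborSet v ⊆ {w} := by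
        intro x hx
        by_contra hxw
        exact hcon ⟨x, hxw, hx⟩
      have h3 := Set.ncard_le_ncard h2
      rw [h1, Set.ncard_singleton] at h3
      omega
    · intro v
      show ((cycleGraph n).neighborSet v).ncard ≤ Δ
      rw [family_cycleGraph_ncard hn3]
      exact hΔ
  | cons e l ih =>
    obtain ⟨hl, he1, he2, he3⟩ := h
    obtain ⟨ih1, ih2, ih3, ih4, ih5⟩ := ih hl
    set G := addEdges n l with hG
    have hne : e.1 ≠ e.2 := by
      intro heq
      have h1 := he3 (Walk.nil.copy rfl heq)
      rw [Walk.length_copy, Walk.length_nil] at h1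
      omega
    have hnadj : ¬ G.Adj e.1 e.2 := by
      intro hadj
      have h1 := he3 hadj.toWalk
      rw [Walk.length_cons, Walk.length_nil] at h1
      omega
    have hG' : addEdges n (e :: l) = G ⊔ edge e.1 e.2 := rfl
    rw [hG']
    have hreach : ∀ a b, a ≠ b → ¬ G.Adj a b → ∃ c, c ≠ b ∧ G.Adj a c := by
      intro a b hab hnab
      obtain ⟨q⟩ := ih1.preconnected a b
      cases q with
      | nil => exact absurd rfl hab
      | @cons _ c _ h q => exact ⟨c, fun hc => hnab (hc ▸ h), h⟩
    refine ⟨ih1.mono le_sup_left, ?_, girth_add_edge G γ e.1 e.2 ih3 he3, ?_, ?_⟩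
    · have h1 : (G ⊔ edge e.1 e.2).edgeSet = insert s(e.1, e.2) G.edgeSet := by
        rw [edgeSet_sup, edgeSet_edge_of_ne hne, Set.union_singleton]
      rw [h1, Nat.card_coe_set_eq, Set.ncard_insert_of_notMem (by rwa [mem_edgeSet]),
        ← Nat.card_coe_set_eq, ih2, List.length_cons]
      omega
    · intro v w hvw
      by_cases hG1 : G.Adj v w
      · obtain ⟨w', hw', hw2⟩ := ih4 v w hG1
        exact ⟨w', hw', Or.inl hw2⟩
      · obtain ⟨c, hc, hc2⟩ := hreach v w hvw.ne hG1
        exact ⟨c, hc, Or.inl hc2⟩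
    · intro v
      by_cases hv1 : v = e.1
      · subst hv1
        have h1 : (G ⊔ edge e.1 e.2).neighborSet e.1 ⊆ insert e.2 (G.neighborSet e.1) := by
          intro x hx
          rcases hx with hx | hx
          · exact Or.inr hx
          · rw [edge_adj] at hx
            rcases hx.1 with h | h
            · exact Or.inl h.2
            · exact absurd h.1 hne
        have h2 := Set.ncard_le_ncard h1 (Set.toFinite _)
        have h3 := Set.ncard_insert_le e.2 (G.neighborSet e.1)
        omega
      · by_cases hv2 : v = e.2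
        · subst hv2
          have h1 : (G ⊔ edge e.1 e.2).neighborSet e.2 ⊆ insert e.1 (G.neighborSet e.2) := by
            intro x hx
            rcases hx with hx | hx
            · exact Or.inr hx
            · rw [edge_adj] at hx
              rcases hx.1 with h | h
              · exact absurd h.1 hv1
              · exact Or.inl h.2
          have h2 := Set.ncard_le_ncard h1 (Set.toFinite _)
          have h3 := Set.ncard_insert_le e.1 (G.neighborSet e.2)
          omega
        · have h1 : (G ⊔ edge e.1 e.2).neighborSet v ⊆ G.neighborSet v := by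
            intro x hx
            rcases hx with hx | hx
            · exact hx
            · rw [edge_adj] at hx
              rcases hx.1 with h | h
              · exact absurd h.1 hv1
              · exact absurd h.1 hv2
          exact (Set.ncard_le_ncard h1 (Set.toFinite _)).trans (ih5 v)

/-- number of vertices within walk-distance `r` in a graph of maximum degree at most `Δ` -/
theorem card_ball_le {V : Type*} [Finite V] (G : SimpleGraph V) (Δ : ℕ)
    (hΔ : ∀ v, (G.neighborSet v).ncard ≤ Δ) (u : V) (r : ℕ) :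
    {v : V | ∃ p : G.Walk u v, p.length ≤ r}.ncard ≤ (Δ + 1) ^ r := by
  classical
  have := Fintype.ofFinite V
  induction r generalizing u with
  | zero =>
    have h1 : {v : V | ∃ p : G.Walk u v, p.length ≤ 0} ⊆ {u} := by
      rintro v ⟨p, hp⟩
      exact (Walk.eq_of_length_eq_zero (Nat.le_zero.1 hp)).symm
    have h2 := Set.ncard_le_ncard h1 (Set.toFinite _)
    rwa [Set.ncard_singleton] at h2
  | succ r ih =>
    set B : V → Finset V := fun w => {v : V | ∃ p : G.Walk w v, p.length ≤ r}.toFinset with hB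
    have hBc : ∀ w, (B w).card ≤ (Δ + 1) ^ r := by
      intro w
      rw [hB]
      rw [← Set.ncard_eq_toFinset_card']
      exact ih w
    set N : Finset V := insert u (G.neighborSet u).toFinset with hN
    have hNc : N.card ≤ Δ + 1 := by
      refine (Finset.card_insert_le _ _).trans ?_
      rw [← Set.ncard_eq_toFinset_card']
      exact Nat.add_le_add_right (hΔ u) 1
    have h1 : {v : V | ∃ p : G.Walk u v, p.length ≤ r + 1} ⊆ ↑(N.biUnion B) := by
      rintro v ⟨p, hp⟩
      rw [Finset.mem_coe, Finset.mem_biUnion]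
      cases p with
      | nil => exact ⟨u, Finset.mem_insert_self _ _, by
          rw [hB, Set.mem_toFinset]
          exact ⟨Walk.nil, Nat.zero_le _⟩⟩
      | @cons _ c _ h q =>
        refine ⟨c, Finset.mem_insert_of_mem (Set.mem_toFinset.2 h), ?_⟩
        rw [hB, Set.mem_toFinset]
        rw [Walk.length_cons] at hp
        exact ⟨q, by omega⟩
    have h2 := Set.ncard_le_ncard h1 (Set.toFinite _)
    rw [Set.ncard_coe_finset] at h2
    refine h2.trans ((Finset.card_biUnion_le_card_mul N B _ fun w _ => hBc w).trans ?_)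
    rw [pow_succ, mul_comm]
    exact Nat.mul_le_mul_left _ hNc

/-- at every stage at least half of all pairs may be added -/
theorem card_avail {n γ Δ M : ℕ} (hγ : 3 ≤ γ) (hn : γ ≤ n) (hΔ : 2 ≤ Δ)
    (h1 : 16 * (n + M) ≤ n * Δ) (h2 : 4 * (Δ + 1) ^ γ ≤ n)
    (l : List (Fin n × Fin n)) (hl : l.length ≤ M) (h : Good n γ Δ l) :
    n ^ 2 ≤ 2 * {e : Fin n × Fin n | Avail γ Δ (addEdges n l) e}.ncard := by
  classical
  obtain ⟨g1, g2, g3, g4, g5⟩ := good_props hγ hn hΔ l h
  set G := addEdges n l with hG
  set S : Finset (Fin n) := Finset.univ.filter (fun v => Δ ≤ (G.neighborSet v).ncard) with hS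
  have hdeg : ∀ v, G.degree v = (G.neighborSet v).ncard := by
    intro v
    rw [← card_neighborSet_eq_degree, ← Nat.card_eq_fintype_card, Nat.card_coe_set_eq]
  have hScard : 8 * S.card ≤ n := by
    have h3 : S.card * Δ ≤ ∑ v, G.degree v := by
      calc S.card * Δ = ∑ _v ∈ S, Δ := by rw [Finset.sum_const, smul_eq_mul]
        _ ≤ ∑ v ∈ S, G.degree v := Finset.sum_le_sum fun v hv => by
            rw [hdeg]; exact (Finset.mem_filter.1 hv).2
        _ ≤ ∑ v, G.degree v :=
            Finset.sum_le_sum_of_subset_of_nonneg (Finset.subset_univ _) fun _ _ _ => Nat.zero_le _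
    rw [G.sum_degrees_eq_twice_card_edges, edgeFinset_card, ← Nat.card_eq_fintype_card, g2] at h3
    have h4 : 8 * S.card * Δ ≤ n * Δ := by
      calc 8 * S.card * Δ = 8 * (S.card * Δ) := by ring
        _ ≤ 8 * (2 * (n + l.length)) := Nat.mul_le_mul_left _ h3
        _ ≤ 16 * (n + M) := by omega
        _ ≤ n * Δ := h1
    exact Nat.le_of_mul_le_mul_right h4 (by omega)
  set A : Finset (Fin n × Fin n) := S ×ˢ Finset.univ with hA
  set B : Finset (Fin n × Fin n) := Finset.univ ×ˢ S with hB
  set C : Finset (Fin n × Fin n) := Finset.univ.biUnion fun u : Fin n =>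
    ({v : Fin n | ∃ p : G.Walk u v, p.length ≤ γ}.toFinset).image (fun v => (u, v)) with hC
  set D : Finset (Fin n × Fin n) := {e : Fin n × Fin n | Avail γ Δ G e}.toFinset with hD
  have hAc : A.card = S.card * n := by
    rw [hA, Finset.card_product, Finset.card_univ, Fintype.card_fin]
  have hBc : B.card = n * S.card := by
    rw [hB, Finset.card_product, Finset.card_univ, Fintype.card_fin]
  have hCc : 4 * C.card ≤ n * n := by
    have h3 : C.card ≤ (Finset.univ : Finset (Fin n)).card * (Δ + 1) ^ γ := by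
      refine Finset.card_biUnion_le_card_mul _ _ _ fun u _ => ?_
      refine Finset.card_image_le.trans ?_
      rw [← Set.ncard_eq_toFinset_card']
      exact card_ball_le G Δ g5 u γ
    rw [Finset.card_univ, Fintype.card_fin] at h3
    calc 4 * C.card ≤ 4 * (n * (Δ + 1) ^ γ) := Nat.mul_le_mul_left _ h3
      _ = n * (4 * (Δ + 1) ^ γ) := by ring
      _ ≤ n * n := Nat.mul_le_mul_left _ h2
  have hcover : (Finset.univ : Finset (Fin n × Fin n)) ⊆ A ∪ B ∪ C ∪ D := by
    intro e _
    by_contra hcon
    rw [Finset.mem_union, Finset.mem_union, Finset.mem_union, not_or, not_or, not_or] at hcon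
    obtain ⟨⟨⟨ha, hb⟩, hc⟩, hd⟩ := hcon
    apply hd
    rw [hD, Set.mem_toFinset]
    refine ⟨?_, ?_, ?_⟩
    · by_contra hcon2
      exact ha (Finset.mem_product.2 ⟨Finset.mem_filter.2 ⟨Finset.mem_univ _, not_lt.1 hcon2⟩,
        Finset.mem_univ _⟩)
    · by_contra hcon2
      exact hb (Finset.mem_product.2 ⟨Finset.mem_univ _,
        Finset.mem_filter.2 ⟨Finset.mem_univ _, not_lt.1 hcon2⟩⟩)
    · intro p
      by_contra hcon2
      apply hc
      rw [hC, Finset.mem_biUnion]
      refine ⟨e.1, Finset.mem_univ _, Finset.mem_image.2 ⟨e.2, ?_, rfl⟩⟩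
      rw [Set.mem_toFinset]
      exact ⟨p, by omega⟩
  have h3 := Finset.card_le_card hcover
  rw [Finset.card_univ, Fintype.card_prod, Fintype.card_fin] at h3
  have h4 : (A ∪ B ∪ C ∪ D).card ≤ A.card + B.card + C.card + D.card :=
    (Finset.card_union_le _ _).trans (Nat.add_le_add_right ((Finset.card_union_le _ _).trans
      (Nat.add_le_add_right (Finset.card_union_le _ _) _)) _)
  have h5 : {e : Fin n × Fin n | Avail γ Δ G e}.ncard = D.card := by
    rw [hD, Set.ncard_eq_toFinset_card']
  rw [h5]
  have h6 : 8 * (S.card * n) ≤ n * n := by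
    rw [← mul_assoc]
    exact Nat.mul_le_mul_right _ hScard
  have h7 : n * S.card = S.card * n := mul_comm _ _
  rw [hAc, hBc, h7] at h4
  rw [sq]
  omega

theorem good_count {n γ Δ M : ℕ} (hγ : 3 ≤ γ) (hn : γ ≤ n) (hΔ : 2 ≤ Δ)
    (h1 : 16 * (n + M) ≤ n * Δ) (h2 : 4 * (Δ + 1) ^ γ ≤ n) :
    n ^ (2 * M) ≤ 2 ^ M * {l : List (Fin n × Fin n) | l.length = M ∧ Good n γ Δ l}.ncard := by
  classical
  induction M with
  | zero =>
    have h3 : {l : List (Fin n × Fin n) | l.length = 0 ∧ Good n γ Δ l} = {[]} := by
      ext l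
      simp only [Set.mem_ofPred_eq, Set.mem_singleton_iff, List.length_eq_zero_iff]
      constructor
      · exact fun h => h.1
      · rintro rfl
        exact ⟨rfl, trivial⟩
    rw [h3, Set.ncard_singleton]
    simp
  | succ M ih =>
    have ih' := ih (by omega)
    have hfin : ∀ k, {l : List (Fin n × Fin n) | l.length = k ∧ Good n γ Δ l}.Finite := fun k =>
      (List.finite_length_eq (Fin n × Fin n) k).subset fun l hl => hl.1
    set T := (hfin M).toFinset with hT
    set T' := (hfin (M + 1)).toFinset with hT'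
    have hTc : {l : List (Fin n × Fin n) | l.length = M ∧ Good n γ Δ l}.ncard = T.card :=
      Set.ncard_eq_toFinset_card _ (hfin M)
    have hTc' : {l : List (Fin n × Fin n) | l.length = M + 1 ∧ Good n γ Δ l}.ncard = T'.card :=
      Set.ncard_eq_toFinset_card _ (hfin (M + 1))
    rw [hTc] at ih'
    rw [hTc']
    have hmaps : ∀ l ∈ T', l.tail ∈ T := by
      intro l hl
      rw [hT', Set.Finite.mem_toFinset] at hl
      rw [hT, Set.Finite.mem_toFinset]
      obtain ⟨hl1, hl2⟩ := hl
      cases l with
      | nil => exact absurd hl1 (by simp)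
      | cons e l =>
        rw [List.length_cons] at hl1
        exact ⟨by simpa using hl1, hl2.1⟩
    have hcount := Finset.card_eq_sum_card_fiberwise (f := List.tail) (s := T') (t := T) hmaps
    have hfib : ∀ l ∈ T, n ^ 2 ≤ 2 * (T'.filter fun l' => l'.tail = l).card := by
      intro l hl
      rw [hT, Set.Finite.mem_toFinset] at hl
      have h3 := card_avail hγ hn hΔ h1 h2 l (by have := hl.1; omega) hl.2
      refine h3.trans (Nat.mul_le_mul_left _ ?_)
      rw [Set.ncard_eq_toFinset_card']
      refine Finset.card_le_card_of_injOn (fun e => e :: l) ?_ ?_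
      · intro e he
        rw [Finset.mem_coe, Set.mem_toFinset] at he
        rw [Finset.mem_coe, Finset.mem_filter, hT', Set.Finite.mem_toFinset]
        exact ⟨⟨by rw [List.length_cons, hl.1], hl.2, he⟩, rfl⟩
      · intro e _ e' _ hee
        exact (List.cons.inj hee).1
    have hsum : T.card * n ^ 2 ≤ 2 * T'.card := by
      rw [hcount, Finset.mul_sum, ← smul_eq_mul, ← Finset.sum_const]
      exact Finset.sum_le_sum hfib
    calc n ^ (2 * (M + 1)) = n ^ (2 * M) * n ^ 2 := by rw [← pow_add]; congr 1
      _ ≤ (2 ^ M * T.card) * n ^ 2 := Nat.mul_le_mul_right _ ih'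
      _ = 2 ^ M * (T.card * n ^ 2) := by ring
      _ ≤ 2 ^ M * (2 * T'.card) := Nat.mul_le_mul_left _ hsum
      _ = 2 ^ (M + 1) * T'.card := by ring

end Pool.Agent.Lib.MP_72b45c_co
end

section

/-!
Non-crossing involutions with respect to a permutation are determined by a word over three
letters.
-/

set_option linter.unusedSectionVars false

namespace Pool.Agent.Lib.MP_72b45c_co

open Equiv Equiv.Perm

variable {X : Type*} [Finite X] [DecidableEq X]

/-- an involution all of whose transpositions split cycles of `ρ` -/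
def IsNC (ρ κ : Perm X) : Prop :=
  (∀ x, κ (κ x) = x) ∧ 2 * cyc (ρ * κ) = 2 * cyc ρ + {x | κ x ≠ x}.ncard

/-- the representative of the cycle of `ρ` through `x` -/
noncomputable def root (ρ : Perm X) (x : X) : X :=
  Quotient.out (Quotient.mk (SameCycle.setoid ρ) x)

/-- the position of `x` on its cycle, counted from the root of the cycle -/
noncomputable def pos (ρ : Perm X) (x : X) : ℕ :=
  sInf {k : ℕ | (ρ ^ k) (root ρ x) = x}

/-- `0` for fixed points, `1` for opening and `2` for closing brackets -/
noncomputable def word (ρ κ : Perm X) (x : X) : Fin 3 :=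
  if κ x = x then 0 else if pos ρ x < pos ρ (κ x) then 1 else 2

theorem nonCrossing_root_sameCycle (ρ : Perm X) (x : X) : ρ.SameCycle (root ρ x) x :=
  Quotient.mk_out (s := SameCycle.setoid ρ) x

theorem nonCrossing_root_eq {ρ : Perm X} {x y : X} (h : ρ.SameCycle x y) :
    root ρ x = root ρ y := by
  unfold root
  congr 1
  exact Quotient.sound h

theorem nonCrossing_pow_pos (ρ : Perm X) (x : X) : (ρ ^ pos ρ x) (root ρ x) = x := by
  have h : {k : ℕ | (ρ ^ k) (root ρ x) = x}.Nonempty :=
    (nonCrossing_root_sameCycle ρ x).exists_nat_pow_eq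
  exact Nat.sInf_mem h

theorem nonCrossing_pos_le {ρ : Perm X} {x : X} {k : ℕ} (h : (ρ ^ k) (root ρ x) = x) :
    pos ρ x ≤ k := Nat.sInf_le h

theorem nonCrossing_pos_inj {ρ : Perm X} {x y : X} (h : ρ.SameCycle x y)
    (hp : pos ρ x = pos ρ y) : x = y := by
  rw [← nonCrossing_pow_pos ρ x, ← nonCrossing_pow_pos ρ y, hp, nonCrossing_root_eq h]

/-- four points in this order on one cycle -/
theorem nonCrossing_cross (ρ : Perm X) {a b c d : X} (hab : ρ.SameCycle a b)
    (hac : ρ.SameCycle a c) (had : ρ.SameCycle a d) (h1 : pos ρ a < pos ρ b)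
    (h2 : pos ρ b < pos ρ c) (h3 : pos ρ c < pos ρ d) :
    ¬ (ρ * swap a c).SameCycle b d := by
  have hpow : ∀ {z : X}, ρ.SameCycle a z → pos ρ a ≤ pos ρ z →
      (ρ ^ (pos ρ z - pos ρ a)) a = z := by
    intro z hz hle
    have e1 := nonCrossing_pow_pos ρ a
    have e2 := nonCrossing_pow_pos ρ z
    rw [← nonCrossing_root_eq hz] at e2
    calc (ρ ^ (pos ρ z - pos ρ a)) a
        = (ρ ^ (pos ρ z - pos ρ a)) ((ρ ^ pos ρ a) (root ρ a)) := by rw [e1]
      _ = (ρ ^ (pos ρ z - pos ρ a + pos ρ a)) (root ρ a) := by rw [pow_add]; rfl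
      _ = z := by rw [Nat.sub_add_cancel hle, e2]
  -- the length of the cycle
  have hex : ∃ l : ℕ, 0 < l ∧ (ρ ^ l) a = a := by
    refine ⟨orderOf ρ, orderOf_pos ρ, ?_⟩
    rw [pow_orderOf_eq_one]; rfl
  classical
  let l := Nat.find hex
  have hl : 0 < l ∧ (ρ ^ l) a = a := Nat.find_spec hex
  have hlmin : ∀ m, 0 < m → m < l → (ρ ^ m) a ≠ a := by
    intro m hm0 hml heq
    exact Nat.find_min hex hml ⟨hm0, heq⟩
  have hkl : pos ρ d - pos ρ a < l := by
    by_contra hcon
    push Not at hcon
    have had' := hpow had (by omega)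
    have e1 : (ρ ^ (pos ρ d - pos ρ a - l)) a = d := by
      calc (ρ ^ (pos ρ d - pos ρ a - l)) a
          = (ρ ^ (pos ρ d - pos ρ a - l)) ((ρ ^ l) a) := by rw [hl.2]
        _ = (ρ ^ (pos ρ d - pos ρ a - l + l)) a := by rw [pow_add]; rfl
        _ = d := by rw [Nat.sub_add_cancel hcon, had']
    have e2 : (ρ ^ (pos ρ d - pos ρ a - l + pos ρ a)) (root ρ d) = d := by
      rw [← nonCrossing_root_eq had, pow_add]
      show (ρ ^ (pos ρ d - pos ρ a - l)) ((ρ ^ pos ρ a) (root ρ a)) = d
      rw [nonCrossing_pow_pos ρ a, e1]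
    have := nonCrossing_pos_le e2
    have hl0 := hl.1
    omega
  exact not_sameCycle_of_crossing ρ (hpow hab (by omega)) (hpow hac (by omega))
    (hpow had (by omega)) hl.2 (by omega) (by omega) (by omega) hkl hlmin

/-- sub-involutions of non-crossing involutions -/
theorem nonCrossing_sub {ρ κ : Perm X} (h : IsNC ρ κ) (κ₁ : Perm X)
    (h1 : ∀ x, κ₁ x = x ∨ κ₁ x = κ x) (h2 : ∀ x, κ₁ (κ₁ x) = x) : IsNC ρ κ₁ := by
  obtain ⟨hκ, hc⟩ := h
  refine ⟨h2, ?_⟩
  let κ₂ : Perm X := κ₁ * κ
  have hκ₂ : ∀ x, κ₂ x = κ₁ (κ x) := fun x => rfl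
  have hprod : κ₁ * κ₂ = κ := by
    ext x
    show κ₁ (κ₁ (κ x)) = κ x
    rw [h2]
  -- if `κ₁ x = x` then `κ₁ (κ x) = κ x`
  have hfix : ∀ x, κ₁ x = x → κ₁ (κ x) = κ x := by
    intro x hx
    rcases h1 (κ x) with h | h
    · exact h
    · rw [hκ] at h
      have := congrArg κ₁ h
      rw [h2, hx] at this
      rw [this, hx]
  have hmov : ∀ x, κ₁ x ≠ x → κ₁ (κ x) = x := by
    intro x hx
    rcases h1 x with h | h
    · exact absurd h hx
    · rw [← h, h2]
  have hinv2 : ∀ x, κ₂ (κ₂ x) = x := by
    intro x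
    rw [hκ₂, hκ₂]
    by_cases hx : κ₁ x = x
    · rw [hfix x hx, hκ, hx]
    · rw [hmov x hx, hmov x hx]
  have hcard : {x | κ x ≠ x}.ncard = {x | κ₁ x ≠ x}.ncard + {x | κ₂ x ≠ x}.ncard := by
    rw [← Set.ncard_union_eq]
    · congr 1
      ext x
      simp only [Set.mem_ofPred_eq, Set.mem_union, hκ₂]
      by_cases hx : κ₁ x = x
      · rw [hfix x hx]
        simp [hx]
      · rw [hmov x hx]
        simp only [ne_eq, hx, not_false_eq_true, not_true_eq_false, or_false, iff_true]
        rcases h1 x with h | h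
        · exact absurd h hx
        · rw [← h]; exact hx
    · rw [Set.disjoint_left]
      intro x hx hx'
      simp only [Set.mem_ofPred_eq, hκ₂] at hx hx'
      exact hx' (hmov x hx)
  have e1 := cyc_mul_invol_le (ρ * κ₁) κ₂ hinv2
  have e2 := cyc_mul_invol_le ρ κ₁ h2
  rw [mul_assoc, hprod] at e1
  omega

theorem nonCrossing_sameCycle {ρ κ : Perm X} (h : IsNC ρ κ) (x : X) : ρ.SameCycle x (κ x) := by
  by_cases hx : κ x = x
  · rw [hx]
  · by_contra hcon
    have hsub : IsNC ρ (swap x (κ x)) := by
      refine nonCrossing_sub h _ ?_ ?_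
      · intro y
        by_cases hy : y = x
        · right; rw [hy, swap_apply_left]
        · by_cases hy' : y = κ x
          · right; rw [hy', swap_apply_right, h.1]
          · left; exact swap_apply_of_ne_of_ne hy hy'
      · intro y
        exact swap_apply_self x (κ x) y
    have e1 := cyc_mul_swap_of_not_sameCycle ρ hcon
    have e2 := hsub.2
    omega

theorem nonCrossing_noCross {ρ κ : Perm X} (h : IsNC ρ κ) {a b : X} (hab : ρ.SameCycle a b)
    (h1 : pos ρ a < pos ρ b) (h2 : pos ρ b < pos ρ (κ a)) (h3 : pos ρ (κ a) < pos ρ (κ b)) :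
    False := by
  have hac := nonCrossing_sameCycle h a
  have hbd := nonCrossing_sameCycle h b
  have had := hab.trans hbd
  obtain ⟨c, hc⟩ : ∃ c, c = κ a := ⟨_, rfl⟩
  obtain ⟨d, hd⟩ : ∃ d, d = κ b := ⟨_, rfl⟩
  rw [← hc] at hac h2 h3
  rw [← hd] at hbd h3 had
  have nab : a ≠ b := by rintro rfl; omega
  have nac : a ≠ c := by rintro rfl; omega
  have nad : a ≠ d := by rintro rfl; omega
  have nbc : b ≠ c := by rintro rfl; omega
  have nbd : b ≠ d := by rintro rfl; omega
  have ncd : c ≠ d := by rintro rfl; omega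
  have hκc : κ c = a := by rw [hc, h.1]
  have hκd : κ d = b := by rw [hd, h.1]
  have key := nonCrossing_cross ρ hab hac had h1 h2 h3
  have e1 := cyc_mul_swap_of_not_sameCycle _ key
  have e2 := cyc_mul_swap_of_sameCycle ρ nac hac
  -- the double transposition
  have va : (swap a c * swap b d) a = c := by
    rw [Perm.mul_apply, swap_apply_of_ne_of_ne nab nad, swap_apply_left]
  have vc : (swap a c * swap b d) c = a := by
    rw [Perm.mul_apply, swap_apply_of_ne_of_ne nbc.symm ncd, swap_apply_right]
  have vb : (swap a c * swap b d) b = d := by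
    rw [Perm.mul_apply, swap_apply_left, swap_apply_of_ne_of_ne nad.symm ncd.symm]
  have vd : (swap a c * swap b d) d = b := by
    rw [Perm.mul_apply, swap_apply_right, swap_apply_of_ne_of_ne nab.symm nbc]
  have vo : ∀ x, x ≠ a → x ≠ b → x ≠ c → x ≠ d → (swap a c * swap b d) x = x := by
    intro x ha hb hc hd
    rw [Perm.mul_apply, swap_apply_of_ne_of_ne hb hd, swap_apply_of_ne_of_ne ha hc]
  have hsub : IsNC ρ (swap a c * swap b d) := by
    refine nonCrossing_sub h _ ?_ ?_
    · intro x
      by_cases xa : x = a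
      · right; rw [xa, va, hc]
      by_cases xb : x = b
      · right; rw [xb, vb, hd]
      by_cases xc : x = c
      · right; rw [xc, vc, hκc]
      by_cases xd : x = d
      · right; rw [xd, vd, hκd]
      left; exact vo x xa xb xc xd
    · intro x
      by_cases xa : x = a
      · rw [xa, va, vc]
      by_cases xb : x = b
      · rw [xb, vb, vd]
      by_cases xc : x = c
      · rw [xc, vc, va]
      by_cases xd : x = d
      · rw [xd, vd, vb]
      rw [vo x xa xb xc xd, vo x xa xb xc xd]
  have e3 := hsub.2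
  rw [← mul_assoc] at e3
  have hpos : 0 < {x | (swap a c * swap b d) x ≠ x}.ncard := by
    rw [Set.ncard_pos]
    refine ⟨a, ?_⟩
    show (swap a c * swap b d) a ≠ a
    rw [va]; exact nac.symm
  omega

theorem nonCrossing_claim (ρ : Perm X) : ∀ (n : ℕ) (κ κ' : Perm X), IsNC ρ κ → IsNC ρ κ' →
    (∀ x, word ρ κ x = word ρ κ' x) → ∀ x, κ x ≠ x → κ' x ≠ x → pos ρ x < pos ρ (κ x) →
    pos ρ (κ x) < pos ρ (κ' x) → pos ρ (κ x) - pos ρ x ≤ n → False := by
  intro n
  induction n with
  | zero => intro κ κ' _ _ _ x _ _ h1 _ h2; omega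
  | succ n ih =>
    intro κ κ' h h' hw x hx hx' h1 h2 hn
    obtain ⟨y, hy⟩ : ∃ y, y = κ x := ⟨_, rfl⟩
    obtain ⟨y', hy'⟩ : ∃ y', y' = κ' x := ⟨_, rfl⟩
    rw [← hy] at h1 h2 hx hn
    rw [← hy'] at h2 hx'
    have hκy : κ y = x := by rw [hy, h.1]
    have hκy' : κ' y' = x := by rw [hy', h'.1]
    have cxy : ρ.SameCycle x y := by rw [hy]; exact nonCrossing_sameCycle h x
    have cxy' : ρ.SameCycle x y' := by rw [hy']; exact nonCrossing_sameCycle h' x
    have w1 : word ρ κ y = 2 := by
      unfold word
      rw [if_neg (by rw [hκy]; exact hx.symm), if_neg (by rw [hκy]; omega)]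
    have w2 : word ρ κ' y = 2 := by rw [← hw, w1]
    obtain ⟨z, hz⟩ : ∃ z, z = κ' y := ⟨_, rfl⟩
    have hκz : κ' z = y := by rw [hz, h'.1]
    have cyz : ρ.SameCycle y z := by rw [hz]; exact nonCrossing_sameCycle h' y
    have hzy : z ≠ y := by
      intro hcon
      unfold word at w2
      rw [if_pos (by rw [← hz]; exact hcon)] at w2
      exact absurd w2 (by decide)
    have hzy2 : pos ρ z < pos ρ y := by
      have : ¬ pos ρ y < pos ρ z := by
        intro hcon
        unfold word at w2
        rw [if_neg (by rw [← hz]; exact hzy), if_pos (by rw [← hz]; exact hcon)] at w2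
        exact absurd w2 (by decide)
      have : pos ρ y ≠ pos ρ z := fun hcon => hzy (nonCrossing_pos_inj cyz hcon).symm
      omega
    have hzx : z ≠ x := by
      intro hcon
      rw [hcon, ← hy'] at hκz
      rw [hκz] at h2
      omega
    have cxz : ρ.SameCycle x z := cxy.trans cyz
    have hzx2 : pos ρ z ≠ pos ρ x := fun hcon => hzx (nonCrossing_pos_inj cxz.symm hcon)
    rcases lt_or_gt_of_ne hzx2 with hlt | hgt
    · exact nonCrossing_noCross h' cxz.symm hlt (by rw [hκz]; exact h1)
        (by rw [hκz, ← hy']; exact h2)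
    · -- `z` has letter 1
      have w3 : word ρ κ' z = 1 := by
        unfold word
        rw [hκz, if_neg hzy.symm, if_pos hzy2]
      have w4 : word ρ κ z = 1 := by rw [hw, w3]
      have hκz1 : κ z ≠ z := by
        intro hcon
        unfold word at w4
        rw [if_pos hcon] at w4
        exact absurd w4 (by decide)
      have hκz2 : pos ρ z < pos ρ (κ z) := by
        by_contra hcon
        unfold word at w4
        rw [if_neg hκz1, if_neg hcon] at w4
        exact absurd w4 (by decide)
      have hne : κ z ≠ y := by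
        intro hcon
        have := congrArg κ hcon
        rw [h.1, hκy] at this
        exact hzx this
      have hne2 : pos ρ (κ z) ≠ pos ρ y := by
        intro hcon
        refine hne (nonCrossing_pos_inj ?_ hcon)
        exact (nonCrossing_sameCycle h z).symm.trans cyz.symm
      rcases lt_or_gt_of_ne hne2 with hl | hg
      · exact ih κ κ' h h' hw z hκz1 (by rw [hκz]; exact hzy.symm) hκz2 (by rw [hκz]; exact hl)
          (by omega)
      · exact ih κ' κ h' h (fun x => (hw x).symm) z (by rw [hκz]; exact hzy.symm) hκz1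
          (by rw [hκz]; exact hzy2) (by rw [hκz]; exact hg) (by rw [hκz]; omega)

theorem nc_unique (ρ κ κ' : Perm X) (h : IsNC ρ κ) (h' : IsNC ρ κ')
    (hw : word ρ κ = word ρ κ') : κ = κ' := by
  have hw' : ∀ x, word ρ κ x = word ρ κ' x := fun x => congrFun hw x
  -- the case of an opening bracket
  have main : ∀ x, word ρ κ x = 1 → κ x = κ' x := by
    intro x hx
    by_contra hne
    have hx' : word ρ κ' x = 1 := by rw [← hw', hx]
    have key : ∀ κ₀ : Perm X, word ρ κ₀ x = 1 → κ₀ x ≠ x ∧ pos ρ x < pos ρ (κ₀ x) := by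
      intro κ₀ h0
      have e1 : κ₀ x ≠ x := by
        intro hcon
        unfold word at h0
        rw [if_pos hcon] at h0
        exact absurd h0 (by decide)
      refine ⟨e1, ?_⟩
      by_contra hcon
      unfold word at h0
      rw [if_neg e1, if_neg hcon] at h0
      exact absurd h0 (by decide)
    obtain ⟨a1, a2⟩ := key κ hx
    obtain ⟨b1, b2⟩ := key κ' hx'
    have hne2 : pos ρ (κ x) ≠ pos ρ (κ' x) := by
      intro hcon
      refine hne (nonCrossing_pos_inj ?_ hcon)
      exact (nonCrossing_sameCycle h x).symm.trans (nonCrossing_sameCycle h' x)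
    rcases lt_or_gt_of_ne hne2 with hl | hg
    · exact nonCrossing_claim ρ _ κ κ' h h' hw' x a1 b1 a2 hl le_rfl
    · exact nonCrossing_claim ρ _ κ' κ h' h (fun x => (hw' x).symm) x b1 a1 b2 hg le_rfl
  ext z
  by_cases hz : κ z = z
  · have w0 : word ρ κ' z = 0 := by
      rw [← hw']; unfold word; rw [if_pos hz]
    rw [hz]
    by_contra hcon
    have hcon' : κ' z ≠ z := fun h => hcon h.symm
    unfold word at w0
    rw [if_neg hcon'] at w0
    split_ifs at w0
    · exact absurd w0 (by decide)
    · exact absurd w0 (by decide)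
  · by_cases hlt : pos ρ z < pos ρ (κ z)
    · refine main z ?_
      unfold word
      rw [if_neg hz, if_pos hlt]
    · have hne : pos ρ z ≠ pos ρ (κ z) := by
        intro hcon
        exact hz (nonCrossing_pos_inj (nonCrossing_sameCycle h z) hcon).symm
      have w1 : word ρ κ (κ z) = 1 := by
        unfold word
        rw [h.1, if_neg (Ne.symm hz), if_pos (by omega)]
      have e1 := main (κ z) w1
      rw [h.1] at e1
      -- `z = κ' (κ z)`
      have e2 := congrArg κ' e1
      rw [h'.1] at e2
      exact e2.symm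

end Pool.Agent.Lib.MP_72b45c_co
end

section

/-!
Decomposition of the edge involution of a map: a spanning forest, a dual spanning forest, and the
remaining `2 g` edges.
-/

namespace Pool.Agent.Lib.MP_72b45c_co

open Equiv Equiv.Perm

variable {X : Type*} [Finite X] [DecidableEq X]

omit [Finite X] [DecidableEq X] in
theorem decomp_sameCycle_of_step {ρ ρ' : Perm X} (h : ∀ x, ρ'.SameCycle x (ρ x)) {x y : X}
    (hxy : ρ.SameCycle x y) : ρ'.SameCycle x y := by
  obtain ⟨i, rfl⟩ := hxy
  induction i using Int.induction_on with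
  | zero => simpa using SameCycle.refl ρ' x
  | succ n ih =>
    have h1 : (ρ ^ ((n : ℤ) + 1)) x = ρ ((ρ ^ (n : ℤ)) x) := by
      rw [add_comm, zpow_add, zpow_one, mul_apply]
    rw [h1]
    exact ih.trans (h _)
  | pred n ih =>
    have h1 : ρ ((ρ ^ (-(n : ℤ) - 1)) x) = (ρ ^ (-(n : ℤ))) x := by
      rw [← mul_apply, ← zpow_one_add]
      congr 2
      ring
    have h2 := h ((ρ ^ (-(n : ℤ) - 1)) x)
    rw [h1] at h2
    exact ih.trans h2.symm

omit [Finite X] [DecidableEq X] in
theorem decomp_cyc_eq {ρ ρ' : Perm X} (h : ∀ x, ρ'.SameCycle x (ρ x))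
    (h' : ∀ x, ρ.SameCycle x (ρ' x)) : cyc ρ' = cyc ρ := by
  unfold cyc
  have h1 : SameCycle.setoid ρ' = SameCycle.setoid ρ := by
    ext x y
    exact ⟨fun hxy => decomp_sameCycle_of_step h' hxy, fun hxy => decomp_sameCycle_of_step h hxy⟩
  rw [h1]

theorem exists_decomp (σ τ : Perm X) (hτ : ∀ x, τ (τ x) = x) (hτ' : ∀ x, τ x ≠ x) :
    ∃ κT κZ κD : Perm X, (∀ x, κT x = x ∨ κT x = τ x) ∧ (∀ x, κZ (κZ x) = x) ∧
      κT * κZ * κD = τ ∧
      IsNC (σ * κT) κT ∧ IsNC (σ * κT * κZ) κD ∧
      (∀ x, (σ * κT).SameCycle x (σ x) ∧ (σ * κT).SameCycle x (τ x)) ∧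
      {x | κZ x ≠ x}.ncard + 2 * cyc σ + 2 * cyc (σ * τ) = Nat.card X + 4 * cyc (σ * κT) := by
  obtain ⟨κT, hT1, hT2, hT3, hT4⟩ := exists_merge σ τ hτ
  -- `κT` on a pair `{x, τ x}`
  have hTpair : ∀ x, (κT x = τ x ∧ κT (τ x) = x) ∨ (κT x = x ∧ κT (τ x) = τ x) := by
    intro x
    rcases hT1 x with h | h
    · right
      refine ⟨h, ?_⟩
      rcases hT1 (τ x) with h2 | h2
      · exact h2
      · rw [hτ] at h2
        have h3 := hT2 (τ x)
        rw [h2, h] at h3
        exact absurd h3.symm (hτ' x)
    · left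
      refine ⟨h, ?_⟩
      have h3 := hT2 x
      rwa [h] at h3
  have hcomm : ∀ x, κT (τ x) = τ (κT x) := by
    intro x
    rcases hTpair x with ⟨h1, h2⟩ | ⟨h1, h2⟩
    · rw [h1, h2, hτ]
    · rw [h1, h2]
  have hτ'' : ∀ x, (κT * τ) ((κT * τ) x) = x := by
    intro x
    simp only [mul_apply]
    rw [← hcomm, hT2, hτ]
  obtain ⟨κD, hD1, hD2, hD3, hD4⟩ := exists_merge (σ * τ) (κT * τ) hτ''
  -- the three cases
  have hcase : ∀ x, (κT x = τ x ∧ κT (τ x) = x ∧ κD x = x ∧ κD (τ x) = τ x) ∨
      (κT x = x ∧ κT (τ x) = τ x ∧ κD x = τ x ∧ κD (τ x) = x) ∨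
      (κT x = x ∧ κT (τ x) = τ x ∧ κD x = x ∧ κD (τ x) = τ x) := by
    intro x
    rcases hTpair x with ⟨h1, h2⟩ | ⟨h1, h2⟩
    · left
      refine ⟨h1, h2, ?_, ?_⟩
      · rcases hD1 x with h | h
        · exact h
        · rw [mul_apply, h2] at h; exact h
      · rcases hD1 (τ x) with h | h
        · exact h
        · rw [mul_apply, hτ, h1] at h; exact h
    · right
      rcases hD1 x with h | h
      · right
        refine ⟨h1, h2, h, ?_⟩
        rcases hD1 (τ x) with h3 | h3
        · exact h3
        · rw [mul_apply, hτ, h1] at h3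
          have h4 := hD2 (τ x)
          rw [h3, h] at h4
          exact absurd h4.symm (hτ' x)
      · left
        rw [mul_apply, h2] at h
        refine ⟨h1, h2, h, ?_⟩
        have h4 := hD2 x
        rwa [h] at h4
  have hZ : ∀ x, (κT * τ * κD) x = κT (τ (κD x)) := fun x => by simp only [mul_apply]
  have hκκ : κT * κT = 1 := by
    ext x
    simp only [mul_apply, one_apply, hT2]
  have hDD : κD * κD = 1 := by
    ext x
    simp only [mul_apply, one_apply, hD2]
  -- the cycles of `σ * τ * κD` and of `σ * κT` agree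
  have hρ' : σ * κT * (κT * τ * κD) = σ * τ * κD := by
    calc σ * κT * (κT * τ * κD) = σ * (κT * κT) * τ * κD := by group
      _ = σ * τ * κD := by rw [hκκ, mul_one]
  have hcyc : cyc (σ * τ * κD) = cyc (σ * κT) := by
    apply decomp_cyc_eq
    · intro x
      have h1 : (σ * κT) x = (σ * τ) ((κT * τ) x) := by
        simp only [mul_apply]
        rw [hcomm, hτ]
      rw [h1]
      exact (hD4 x).2.trans (hD4 _).1
    · intro x
      have h1 : (σ * τ * κD) x = (σ * κT) ((κT * τ * κD) x) := by
        rw [← hρ']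
        simp only [mul_apply]
      rw [h1]
      have h2 : (σ * κT).SameCycle x ((κT * τ * κD) x) := by
        rw [hZ]
        rcases hcase x with ⟨a, b, c, d⟩ | ⟨a, b, c, d⟩ | ⟨a, b, c, d⟩
        · rw [c, b]
        · rw [c, hτ, a]
        · rw [c, b]; exact (hT4 x).2
      exact h2.trans (sameCycle_apply_right.2 (SameCycle.refl _ _))
  refine ⟨κT, κT * τ * κD, κD, hT1, ?_, ?_, ⟨hT2, ?_⟩, ⟨hD2, ?_⟩, hT4, ?_⟩
  · intro x
    rw [hZ, hZ]
    rcases hcase x with ⟨a, b, c, d⟩ | ⟨a, b, c, d⟩ | ⟨a, b, c, d⟩
    · rw [c, b, c, b]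
    · rw [c, hτ, a, c, hτ, a]
    · rw [c, b, d, hτ, a]
  · ext x
    simp only [mul_apply]
    rcases hcase x with ⟨a, b, c, d⟩ | ⟨a, b, c, d⟩ | ⟨a, b, c, d⟩
    · rw [c, c, b, a]
    · rw [c, d, b, b]
    · rw [c, c, b, b]
  · rw [mul_assoc, hκκ, mul_one]
    exact hT3
  · rw [hρ', mul_assoc (σ * τ), hDD, mul_one]
    exact hD3
  · -- counting
    have hpart : ({x | κT x ≠ x} ∪ {x | κD x ≠ x}) ∪ {x | (κT * τ * κD) x ≠ x} =
        (Set.univ : Set X) := by
      ext x
      simp only [Set.mem_union, Set.mem_ofPred_eq, Set.mem_univ, iff_true, hZ]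
      rcases hcase x with ⟨a, b, c, d⟩ | ⟨a, b, c, d⟩ | ⟨a, b, c, d⟩
      · left; left; rw [a]; exact hτ' x
      · left; right; rw [c]; exact hτ' x
      · right; rw [c, b]; exact hτ' x
    have hd1 : Disjoint {x | κT x ≠ x} {x | κD x ≠ x} := by
      rw [Set.disjoint_left]
      intro x hx hx'
      rcases hcase x with ⟨a, b, c, d⟩ | ⟨a, b, c, d⟩ | ⟨a, b, c, d⟩
      · exact hx' c
      · exact hx a
      · exact hx a
    have hd2 : Disjoint ({x | κT x ≠ x} ∪ {x | κD x ≠ x}) {x | (κT * τ * κD) x ≠ x} := by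
      rw [Set.disjoint_left]
      intro x hx hx'
      simp only [Set.mem_ofPred_eq, hZ] at hx'
      rcases hcase x with ⟨a, b, c, d⟩ | ⟨a, b, c, d⟩ | ⟨a, b, c, d⟩
      · exact hx' (by rw [c, b])
      · exact hx' (by rw [c, hτ, a])
      · rcases hx with hx | hx
        · exact hx a
        · exact hx c
    have h1 := Set.ncard_union_eq hd2
    rw [hpart, Set.ncard_univ, Set.ncard_union_eq hd1] at h1
    rw [hcyc] at hD3
    omega

end Pool.Agent.Lib.MP_72b45c_co
end

section

/-!
The number of lists of length `M` that meet each of `q` pairwise disjoint small sets.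
-/

namespace Pool.Agent.Lib.MP_72b45c_co

private theorem hitCount_pow (M k : ℕ) : M ^ (k + 1) + (k + 1) * M ^ k ≤ (M + 1) ^ (k + 1) := by
  induction k with
  | zero => simp
  | succ k ih =>
    have h1 : (M + 1) ^ (k + 1 + 1) = (M + 1) * (M + 1) ^ (k + 1) := by ring
    have h2 : (M + 1) * (M ^ (k + 1) + (k + 1) * M ^ k) =
        M ^ (k + 1 + 1) + (k + 1 + 1) * M ^ (k + 1) + (k + 1) * M ^ k := by ring
    rw [h1]
    calc M ^ (k + 1 + 1) + (k + 1 + 1) * M ^ (k + 1)
        ≤ M ^ (k + 1 + 1) + (k + 1 + 1) * M ^ (k + 1) + (k + 1) * M ^ k := Nat.le_add_right _ _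
      _ = (M + 1) * (M ^ (k + 1) + (k + 1) * M ^ k) := h2.symm
      _ ≤ _ := Nat.mul_le_mul_left _ ih

/-- A finite set containing the lists of length `M` which meet all `A i`, `i ∈ J`. -/
private def hitCountSet {X : Type*} [Fintype X] [DecidableEq X] {q : ℕ}
    (A : Fin q → Finset X) : ℕ → Finset (Fin q) → Finset (List X)
  | 0, J => if J = ∅ then {[]} else ∅
  | M + 1, J => (J.biUnion fun i => (A i).biUnion fun x =>
        (hitCountSet A M (J.erase i)).image (List.cons x)) ∪
      (Finset.univ.biUnion fun x => (hitCountSet A M J).image (List.cons x))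

private theorem hitCount_mem {X : Type*} [Fintype X] [DecidableEq X] {q : ℕ}
    (A : Fin q → Finset X) (hA : ∀ i j, i ≠ j → Disjoint (A i) (A j)) (l : List X) :
    ∀ J : Finset (Fin q), (∀ i ∈ J, ∃ x ∈ l, x ∈ A i) → l ∈ hitCountSet A l.length J := by
  induction l with
  | nil =>
    intro J hJ
    have : J = ∅ := by
      rw [Finset.eq_empty_iff_forall_notMem]
      intro i hi
      obtain ⟨x, hx, -⟩ := hJ i hi
      simp at hx
    simp [hitCountSet, this]
  | cons x l ih =>
    intro J hJ
    rw [List.length_cons, hitCountSet, Finset.mem_union]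
    by_cases h : ∃ i ∈ J, x ∈ A i
    · obtain ⟨i, hi, hx⟩ := h
      left
      refine Finset.mem_biUnion.2 ⟨i, hi, Finset.mem_biUnion.2 ⟨x, hx,
        Finset.mem_image_of_mem _ (ih _ ?_)⟩⟩
      intro j hj
      rw [Finset.mem_erase] at hj
      obtain ⟨y, hy, hyA⟩ := hJ j hj.2
      rcases List.mem_cons.1 hy with rfl | hy
      · exact (Finset.disjoint_left.1 (hA i j (Ne.symm hj.1)) hx hyA).elim
      · exact ⟨y, hy, hyA⟩
    · right
      refine Finset.mem_biUnion.2 ⟨x, Finset.mem_univ _, Finset.mem_image_of_mem _ (ih _ ?_)⟩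
      intro j hj
      obtain ⟨y, hy, hyA⟩ := hJ j hj
      rcases List.mem_cons.1 hy with rfl | hy
      · exact absurd ⟨j, hj, hyA⟩ h
      · exact ⟨y, hy, hyA⟩

private theorem hitCount_card {X : Type*} [Fintype X] [DecidableEq X] {q : ℕ}
    (A : Fin q → Finset X) (a : ℕ) (ha : ∀ i, (A i).card ≤ a) (M : ℕ) :
    ∀ J : Finset (Fin q), (hitCountSet A M J).card * Fintype.card X ^ J.card ≤
      (M * a) ^ J.card * Fintype.card X ^ M := by
  induction M with
  | zero =>
    intro J
    by_cases h : J = ∅
    · simp [hitCountSet, h]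
    · simp [hitCountSet, h]
  | succ M ih =>
    intro J
    set N := Fintype.card X with hN
    have hcard : (hitCountSet A (M + 1) J).card ≤
        (∑ i ∈ J, a * (hitCountSet A M (J.erase i)).card) + N * (hitCountSet A M J).card := by
      rw [hitCountSet]
      refine (Finset.card_union_le _ _).trans (Nat.add_le_add ?_ ?_)
      · refine Finset.card_biUnion_le.trans (Finset.sum_le_sum fun i _ => ?_)
        refine (Finset.card_biUnion_le_card_mul _ _ _ fun x _ => Finset.card_image_le).trans ?_
        exact Nat.mul_le_mul_right _ (ha i)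
      · exact Finset.card_biUnion_le_card_mul _ _ _ fun x _ => Finset.card_image_le
    rcases Nat.eq_zero_or_pos J.card with hj | hj
    · have hJ : J = ∅ := Finset.card_eq_zero.1 hj
      subst hJ
      have h0 := ih ∅
      simp only [Finset.card_empty, pow_zero, mul_one, one_mul, Finset.sum_empty, zero_add]
        at h0 hcard ⊢
      calc _ ≤ N * (hitCountSet A M ∅).card := hcard
        _ ≤ N * N ^ M := Nat.mul_le_mul_left _ h0
        _ = N ^ (M + 1) := by ring
    · obtain ⟨k, hk⟩ : ∃ k, J.card = k + 1 := ⟨J.card - 1, by omega⟩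
      have h1 : ∀ i ∈ J, (a * (hitCountSet A M (J.erase i)).card) * N ^ (k + 1) ≤
          a * ((M * a) ^ k * N ^ M) * N := by
        intro i hi
        have h2 := ih (J.erase i)
        rw [Finset.card_erase_of_mem hi, hk, Nat.add_sub_cancel] at h2
        calc (a * (hitCountSet A M (J.erase i)).card) * N ^ (k + 1)
            = a * ((hitCountSet A M (J.erase i)).card * N ^ k) * N := by ring
          _ ≤ _ := Nat.mul_le_mul_right _ (Nat.mul_le_mul_left _ h2)
      have h3 : (∑ i ∈ J, a * (hitCountSet A M (J.erase i)).card) * N ^ (k + 1) ≤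
          (k + 1) * (a * ((M * a) ^ k * N ^ M) * N) := by
        rw [Finset.sum_mul]
        calc _ ≤ ∑ i ∈ J, a * ((M * a) ^ k * N ^ M) * N := Finset.sum_le_sum h1
          _ = _ := by rw [Finset.sum_const, hk, smul_eq_mul]
      have h4 := ih J
      rw [hk] at h4 ⊢
      calc (hitCountSet A (M + 1) J).card * N ^ (k + 1)
          ≤ ((∑ i ∈ J, a * (hitCountSet A M (J.erase i)).card) +
              N * (hitCountSet A M J).card) * N ^ (k + 1) := Nat.mul_le_mul_right _ hcard
        _ = (∑ i ∈ J, a * (hitCountSet A M (J.erase i)).card) * N ^ (k + 1) +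
              N * ((hitCountSet A M J).card * N ^ (k + 1)) := by ring
        _ ≤ (k + 1) * (a * ((M * a) ^ k * N ^ M) * N) +
              N * ((M * a) ^ (k + 1) * N ^ M) :=
            Nat.add_le_add h3 (Nat.mul_le_mul_left _ h4)
        _ = (M ^ (k + 1) + (k + 1) * M ^ k) * (a ^ (k + 1) * N ^ (M + 1)) := by
            rw [mul_pow, mul_pow]; ring
        _ ≤ (M + 1) ^ (k + 1) * (a ^ (k + 1) * N ^ (M + 1)) :=
            Nat.mul_le_mul_right _ (hitCount_pow M k)
        _ = ((M + 1) * a) ^ (k + 1) * N ^ (M + 1) := by rw [mul_pow]; ring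

theorem hit_count {X : Type*} [Fintype X] [DecidableEq X] (q : ℕ) (A : Fin q → Finset X)
    (hA : ∀ i j, i ≠ j → Disjoint (A i) (A j)) (a : ℕ) (ha : ∀ i, (A i).card ≤ a) (M : ℕ) :
    {l : List X | l.length = M ∧ ∀ i, ∃ x ∈ l, x ∈ A i}.ncard * Fintype.card X ^ q ≤
      (M * a) ^ q * Fintype.card X ^ M := by
  have h1 : {l : List X | l.length = M ∧ ∀ i, ∃ x ∈ l, x ∈ A i} ⊆
      (hitCountSet A M Finset.univ : Set (List X)) := by
    rintro l ⟨rfl, hl⟩
    exact hitCount_mem A hA l _ fun i _ => hl i
  have h2 := Set.ncard_le_ncard h1 (Finset.finite_toSet _)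
  rw [Set.ncard_coe_finset] at h2
  have h3 := hitCount_card A a ha M Finset.univ
  rw [Finset.card_univ, Fintype.card_fin] at h3
  exact (Nat.mul_le_mul_right _ h2).trans h3

end Pool.Agent.Lib.MP_72b45c_co
end
end
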