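import Pool.Agent.Lib.MP_72b45c_co.Defs

/-!
Basic facts about minors of finite graphs, and the existence of an obstruction minor.
-/

namespace Pool.Agent.Lib.MP_72b45c_co

open SimpleGraph

theorem Minor_reach {V W : Type*} {H : SimpleGraph V} {G : SimpleGraph W} {B : V → Set W}
    (hB : ∀ x, (G.induce (B x)).Connected)
    (hadj : ∀ x y, H.Adj x y → ∃ u ∈ B x, ∃ v ∈ B y, G.Adj u v) (t : Set V) (s : Set W)
    (hs : ∀ y ∈ t, B y ⊆ s) (y y' : t) (h : (H.induce t).Reachable y y') :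
    ∀ (a b : W) (ha : a ∈ B y) (hb : b ∈ B y'),
      (G.induce s).Reachable ⟨a, hs y y.2 ha⟩ ⟨b, hs y' y'.2 hb⟩ := by
  have key : ∀ (y : t) (a b : W) (ha : a ∈ B y) (hb : b ∈ B y),
      (G.induce s).Reachable ⟨a, hs y y.2 ha⟩ ⟨b, hs y y.2 hb⟩ := by
    intro y a b ha hb
    have h1 := (hB y).preconnected ⟨a, ha⟩ ⟨b, hb⟩
    exact h1.map (induceHomOfLE G (hs y y.2)).toHom
  obtain ⟨p⟩ := h
  induction p with
  | nil => exact key _
  | cons h p ih =>
    intro a b ha hb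
    obtain ⟨u, hu, v, hv, huv⟩ := hadj _ _ h
    refine (key _ a u ha hu).trans (Reachable.trans ?_ (ih v b hv hb))
    exact Adj.reachable (by simpa using huv)

theorem IsMinor.trans {U V W : Type*} {K : SimpleGraph U} {H : SimpleGraph V}
    {G : SimpleGraph W} (h₁ : IsMinor K H) (h₂ : IsMinor H G) : IsMinor K G := by
  obtain ⟨B', h1, h2, h3⟩ := h₁
  obtain ⟨B, k1, k2, k3⟩ := h₂
  refine ⟨fun x => ⋃ y ∈ B' x, B y, fun x => ?_, fun x x' hne => ?_, fun x x' hadj => ?_⟩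
  · have hs : ∀ y ∈ B' x, B y ⊆ ⋃ y ∈ B' x, B y := fun y hy =>
      Set.subset_biUnion_of_mem (u := fun y => B y) hy
    obtain ⟨⟨y₀, hy₀⟩⟩ := (h1 x).nonempty
    obtain ⟨⟨a₀, ha₀⟩⟩ := (k1 y₀).nonempty
    refine { preconnected := ?_, nonempty := ⟨⟨a₀, hs y₀ hy₀ ha₀⟩⟩ }
    rintro ⟨a, ha⟩ ⟨b, hb⟩
    obtain ⟨y, hy, hay⟩ := Set.mem_iUnion₂.1 ha
    obtain ⟨y', hy', hby⟩ := Set.mem_iUnion₂.1 hb
    exact Minor_reach k1 k3 (B' x) _ hs ⟨y, hy⟩ ⟨y', hy'⟩ ((h1 x).preconnected _ _) a b hay hby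
  · rw [Set.disjoint_left]
    intro a ha hb
    obtain ⟨y, hy, hay⟩ := Set.mem_iUnion₂.1 ha
    obtain ⟨y', hy', hby⟩ := Set.mem_iUnion₂.1 hb
    have hyy : y ≠ y' := by
      rintro rfl
      exact Set.disjoint_left.1 (h2 x x' hne) hy hy'
    exact Set.disjoint_left.1 (k2 y y' hyy) hay hby
  · obtain ⟨u, hu, v, hv, huv⟩ := h3 x x' hadj
    obtain ⟨a, ha, b, hb, hab⟩ := k3 u v huv
    exact ⟨a, Set.mem_iUnion₂.2 ⟨u, hu, ha⟩, b, Set.mem_iUnion₂.2 ⟨v, hv, hb⟩, hab⟩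

theorem IsMinor.of_iso {V W W' : Type*} {H : SimpleGraph W} {H' : SimpleGraph W'}
    {G : SimpleGraph V} (e : H ≃g H') (h : IsMinor H G) : IsMinor H' G := by
  obtain ⟨B, h1, h2, h3⟩ := h
  refine ⟨fun x => B (e.symm x), fun x => h1 _, fun x y hxy => h2 _ _ fun h => hxy ?_,
    fun x y hxy => h3 _ _ ?_⟩
  · exact e.symm.injective h
  · exact e.symm.map_adj_iff.2 hxy

theorem Minor_inj {V W : Type*} {B : W → Set V} (h2 : ∀ x y, x ≠ y → Disjoint (B x) (B y))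
    {x y : W} {a : V} (hx : a ∈ B x) (hy : a ∈ B y) : x = y := by
  by_contra hne
  exact Set.disjoint_left.1 (h2 x y hne) hx hy

theorem IsMinor.card_le {V W : Type*} [Finite V] {H : SimpleGraph W} {G : SimpleGraph V}
    (h : IsMinor H G) : Nat.card W ≤ Nat.card V := by
  obtain ⟨B, h1, h2, h3⟩ := h
  have hp : ∀ x, ∃ a, a ∈ B x := fun x => by
    obtain ⟨⟨a, ha⟩⟩ := (h1 x).nonempty
    exact ⟨a, ha⟩
  choose p hp using hp
  refine Nat.card_le_card_of_injective p fun x y hxy => ?_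
  exact Minor_inj h2 (hp x) (by rw [hxy]; exact hp y)

theorem IsMinor.edge_le {V W : Type*} [Finite V] {H : SimpleGraph W} {G : SimpleGraph V}
    (h : IsMinor H G) : Nat.card H.edgeSet ≤ Nat.card G.edgeSet := by
  obtain ⟨B, h1, h2, h3⟩ := h
  have hf : ∀ e : H.edgeSet, ∃ e' : G.edgeSet, ∃ x y u v, (e : Sym2 W) = s(x, y) ∧ u ∈ B x ∧
      v ∈ B y ∧ (e' : Sym2 V) = s(u, v) := by
    rintro ⟨e, he⟩
    induction e with
    | _ x y =>
      obtain ⟨u, hu, v, hv, huv⟩ := h3 x y he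
      exact ⟨⟨s(u, v), huv⟩, x, y, u, v, rfl, hu, hv, rfl⟩
  choose f x y u v h4 h5 h6 h7 using hf
  refine Nat.card_le_card_of_injective f fun e₁ e₂ he => ?_
  apply Subtype.ext
  have h8 := h7 e₁
  rw [he, h7 e₂, Sym2.eq_iff] at h8
  rw [h4 e₁, h4 e₂, Sym2.eq_iff]
  rcases h8 with ⟨h8, h9⟩ | ⟨h8, h9⟩
  · left
    exact ⟨Minor_inj h2 (h5 e₁) (h8 ▸ h5 e₂), Minor_inj h2 (h6 e₁) (h9 ▸ h6 e₂)⟩
  · right
    exact ⟨Minor_inj h2 (h5 e₁) (h9 ▸ h6 e₂), Minor_inj h2 (h6 e₁) (h8 ▸ h5 e₂)⟩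

theorem IsMinor.iso_of_card_eq {V W : Type*} [Finite V] {H : SimpleGraph W}
    {G : SimpleGraph V} (h : IsMinor H G) (hV : Nat.card W = Nat.card V)
    (hE : Nat.card H.edgeSet = Nat.card G.edgeSet) : Nonempty (H ≃g G) := by
  obtain ⟨B, h1, h2, h3⟩ := h
  have hp : ∀ x, ∃ a, a ∈ B x := fun x => by
    obtain ⟨⟨a, ha⟩⟩ := (h1 x).nonempty
    exact ⟨a, ha⟩
  choose p hp using hp
  have hinj : Function.Injective p := fun x y hxy =>
    Minor_inj h2 (hp x) (by rw [hxy]; exact hp y)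
  have hbij : Function.Bijective p := hinj.bijective_of_nat_card_le hV.ge
  have hsing : ∀ x a, a ∈ B x → a = p x := by
    intro x a ha
    obtain ⟨x', rfl⟩ := hbij.2 a
    rw [Minor_inj h2 ha (hp x')]
  let f : H →g G := ⟨p, fun {x y} hxy => by
    obtain ⟨u, hu, v, hv, huv⟩ := h3 x y hxy
    rwa [hsing x u hu, hsing y v hv] at huv⟩
  have hfinj : Function.Injective f.mapEdgeSet := Hom.mapEdgeSet.injective f hinj
  have hfbij : Function.Bijective f.mapEdgeSet := hfinj.bijective_of_nat_card_le hE.ge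
  refine ⟨⟨Equiv.ofBijective p hbij, fun {x y} => ⟨fun hxy => ?_, fun hxy => f.map_adj hxy⟩⟩⟩
  obtain ⟨⟨e, he⟩, he2⟩ := hfbij.2 ⟨s(p x, p y), hxy⟩
  have he3 : Sym2.map p e = s(p x, p y) := congrArg Subtype.val he2
  have he4 : e = s(x, y) := Sym2.map.injective hinj (by rw [he3, Sym2.map_mk])
  rwa [he4] at he

/-- Every finite graph that is not embeddable in the surface of genus `g` has an obstruction as a
minor. -/
theorem exists_obstruction {n : ℕ} (g : ℕ) (G : SimpleGraph (Fin n)) (h : ¬ Embeds g G) :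
    ∃ (m : ℕ) (H : SimpleGraph (Fin m)), m ≤ n ∧
      Nat.card H.edgeSet ≤ Nat.card G.edgeSet ∧ IsObstruction g H ∧ IsMinor H G := by
  classical
  have key : ∀ N : ℕ, ∀ (m : ℕ) (H : SimpleGraph (Fin m)), m + Nat.card H.edgeSet ≤ N →
      IsMinor H G → ¬ Embeds g H → ∃ (m : ℕ) (H : SimpleGraph (Fin m)),
        IsObstruction g H ∧ IsMinor H G := by
    intro N
    induction N with
    | zero =>
      intro m H hN hm hE
      refine ⟨m, H, ⟨hE, fun m' H' h1 h2 => ?_⟩, hm⟩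
      by_contra h3
      apply h2
      have e1 := h1.card_le
      have e2 := h1.edge_le
      simp only [Nat.card_fin] at e1
      apply h1.iso_of_card_eq
      · simp only [Nat.card_fin]; omega
      · omega
    | succ N ih =>
      intro m H hN hm hE
      by_cases hex : ∃ (m' : ℕ) (H' : SimpleGraph (Fin m')), IsMinor H' H ∧
          ¬ Nonempty (H' ≃g H) ∧ ¬ Embeds g H'
      · obtain ⟨m', H', h1, h2, h3⟩ := hex
        have e1 := h1.card_le
        have e2 := h1.edge_le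
        simp only [Nat.card_fin] at e1
        refine ih m' H' ?_ (h1.trans hm) h3
        by_contra h4
        apply h2
        apply h1.iso_of_card_eq
        · simp only [Nat.card_fin]; omega
        · omega
      · push Not at hex
        exact ⟨m, H, ⟨hE, fun m' H' h1 h2 => hex m' H' h1 ⟨fun f => h2 ⟨f⟩⟩⟩, hm⟩
  have hrefl : IsMinor G G := by
    refine ⟨fun x => {x}, fun x => ?_, fun x y hxy => ?_, fun x y hxy => ?_⟩
    · have : Subsingleton ({x} : Set (Fin n)) := ⟨fun a b => Subtype.ext (a.2.trans b.2.symm)⟩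
      exact { preconnected := fun a b => by rw [Subsingleton.elim a b], nonempty := ⟨⟨x, rfl⟩⟩ }
    · simpa using hxy
    · exact ⟨x, rfl, y, rfl, hxy⟩
  obtain ⟨m, H, h1, h2⟩ := key _ n G le_rfl hrefl h
  refine ⟨m, H, ?_, h2.edge_le, h1, h2⟩
  have := h2.card_le
  simpa only [Nat.card_fin] using this

end Pool.Agent.Lib.MP_72b45c_co
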