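import Pool.Agent.Lib.MP_72b45c_co.Defs
import Pool.Agent.Lib.MP_72b45c_co.HitCount
import Pool.Agent.Lib.MP_72b45c_co.Minor

section

/-!
Counting edges of a connected graph with a given minor model.
-/

namespace Pool.Agent.Lib.MP_72b45c_co

open SimpleGraph

/-- If `G` is connected and `f : V → W` is surjective then at least `|W| - 1` edges of `G` have
ends with different images. -/
theorem card_cross_edges {V W : Type*} [Finite V] [Finite W] (G : SimpleGraph V)
    (hG : G.Connected) (f : V → W) (hf : Function.Surjective f) :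
    Nat.card W ≤ Nat.card {e : Sym2 V // e ∈ G.edgeSet ∧ ¬ (e.map f).IsDiag} + 1 := by
  classical
  let Q : SimpleGraph W :=
    { Adj := fun a b => a ≠ b ∧ ∃ u v, f u = a ∧ f v = b ∧ G.Adj u v
      symm := ⟨by
        rintro a b ⟨h, u, v, hu, hv, huv⟩
        exact ⟨h.symm, v, u, hv, hu, huv.symm⟩⟩
      loopless := ⟨fun a h => h.1 rfl⟩ }
  have hreach : ∀ u v, G.Reachable u v → Q.Reachable (f u) (f v) := by
    rintro u v ⟨p⟩
    induction p with
    | nil => exact Reachable.refl _
    | @cons u v w h p ih =>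
      by_cases hne : f u = f v
      · rw [hne]; exact ih
      · exact (Adj.reachable (⟨hne, u, v, rfl, rfl, h⟩ : Q.Adj (f u) (f v))).trans ih
  have hQ : Q.Connected := by
    have : Nonempty W := hG.nonempty.map f
    refine ⟨fun a b => ?_⟩
    obtain ⟨u, rfl⟩ := hf a
    obtain ⟨v, rfl⟩ := hf b
    exact hreach u v (hG.preconnected u v)
  have h1 := hQ.card_vert_le_card_edgeSet_add_one
  have h2 : Nat.card Q.edgeSet ≤
      Nat.card {e : Sym2 V // e ∈ G.edgeSet ∧ ¬ (e.map f).IsDiag} := by
    have key : ∀ e : Q.edgeSet, ∃ e' : {e : Sym2 V // e ∈ G.edgeSet ∧ ¬ (e.map f).IsDiag},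
        e'.1.map f = e.1 := by
      rintro ⟨e, he⟩
      induction e using Sym2.ind with
      | _ a b =>
        obtain ⟨hne, u, v, hu, hv, huv⟩ := he
        refine ⟨⟨s(u, v), huv, ?_⟩, ?_⟩
        · rw [Sym2.map_mk, Sym2.mk_isDiag_iff]
          simpa [hu, hv] using hne
        · simp [hu, hv]
    choose g hg using key
    refine Nat.card_le_card_of_injective g ?_
    intro e e' h
    apply Subtype.ext
    rw [← hg e, ← hg e', h]
  omega

/-- The cycle rank of a minor is at most the cycle rank of the graph (here `G` is connected). -/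
theorem edge_count {V W : Type*} [Finite V] [Finite W] (G : SimpleGraph V) (H : SimpleGraph W)
    (hG : G.Connected) (B : W → Set V) (hB1 : ∀ x, (G.induce (B x)).Connected)
    (hB2 : ∀ x y, x ≠ y → Disjoint (B x) (B y))
    (hB3 : ∀ x y, H.Adj x y → ∃ u ∈ B x, ∃ v ∈ B y, G.Adj u v) :
    Nat.card H.edgeSet + Nat.card H.ConnectedComponent + Nat.card V ≤
      Nat.card G.edgeSet + Nat.card W + 1 := by
  classical
  have := Fintype.ofFinite W
  have huniq : ∀ x y v, v ∈ B x → v ∈ B y → x = y := by
    intro x y v hx hy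
    by_contra hne
    exact Set.disjoint_left.1 (hB2 x y hne) hx hy
  -- index function
  let φ : V → Option W := fun v => if h : ∃ x, v ∈ B x then some h.choose else none
  have hφ : ∀ x v, v ∈ B x → φ v = some x := by
    intro x v hv
    have h : ∃ x, v ∈ B x := ⟨x, hv⟩
    simp only [φ, dif_pos h]
    exact congrArg some (huniq _ _ v h.choose_spec hv)
  let N := {v : V // ¬ ∃ x, v ∈ B x}
  let ψ : V → H.ConnectedComponent ⊕ N := fun v =>
    if h : ∃ x, v ∈ B x then Sum.inl (H.connectedComponentMk h.choose) else Sum.inr ⟨v, h⟩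
  have hψ : ∀ x v, v ∈ B x → ψ v = Sum.inl (H.connectedComponentMk x) := by
    intro x v hv
    have h : ∃ x, v ∈ B x := ⟨x, hv⟩
    simp only [ψ, dif_pos h]
    rw [huniq _ _ v h.choose_spec hv]
  have hψs : Function.Surjective ψ := by
    rintro (c | ⟨v, hv⟩)
    · induction c using ConnectedComponent.ind with
      | _ x =>
        obtain ⟨⟨v, hv⟩⟩ := (hB1 x).nonempty
        exact ⟨v, hψ x v hv⟩
    · refine ⟨v, ?_⟩
      simp only [ψ, dif_neg hv]
  have hC := card_cross_edges G hG ψ hψs
  rw [Nat.card_sum] at hC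
  -- the number of vertices
  have hV : Nat.card V ≤ (∑ x, Nat.card (B x)) + Nat.card N := by
    rw [← Nat.card_sigma, ← Nat.card_sum]
    let p : (Σ x, B x) ⊕ N → V := Sum.elim (fun a => a.2.1) (fun a => a.1)
    have hp : Function.Surjective p := by
      intro v
      by_cases h : ∃ x, v ∈ B x
      · obtain ⟨x, hx⟩ := h
        exact ⟨Sum.inl ⟨x, v, hx⟩, rfl⟩
      · exact ⟨Sum.inr ⟨v, h⟩, rfl⟩
    exact Nat.card_le_card_of_surjective p hp
  have hE : ∑ x, Nat.card (B x) ≤ (∑ x, Nat.card (G.induce (B x)).edgeSet) + Nat.card W := by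
    calc ∑ x, Nat.card (B x) ≤ ∑ x, (Nat.card (G.induce (B x)).edgeSet + 1) :=
          Finset.sum_le_sum fun x _ => (hB1 x).card_vert_le_card_edgeSet_add_one
      _ = _ := by
          rw [Finset.sum_add_distrib]
          simp
  -- representatives of the edges of `H`
  have key : ∀ e : H.edgeSet, ∃ e' : G.edgeSet, e'.1.map φ = e.1.map some ∧
      (e'.1.map ψ).IsDiag := by
    rintro ⟨e, he⟩
    induction e using Sym2.ind with
    | _ a b =>
      have hab : H.Adj a b := he
      obtain ⟨u, hu, v, hv, huv⟩ := hB3 a b hab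
      refine ⟨⟨s(u, v), huv⟩, ?_, ?_⟩
      · simp [hφ a u hu, hφ b v hv]
      · rw [Sym2.map_mk, Sym2.mk_isDiag_iff]
        change ψ u = ψ v
        rw [hψ a u hu, hψ b v hv]
        exact congrArg Sum.inl (ConnectedComponent.sound hab.reachable)
  choose r hr1 hr2 using key
  -- the injection
  let C := {e : Sym2 V // e ∈ G.edgeSet ∧ ¬ (e.map ψ).IsDiag}
  have hA : ∀ (x : W) (e : Sym2 (B x)), e ∈ (G.induce (B x)).edgeSet →
      e.map Subtype.val ∈ G.edgeSet := by
    intro x e he
    induction e using Sym2.ind with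
    | _ a b => exact he
  have hAφ : ∀ (x : W) (e : Sym2 (B x)), (e.map Subtype.val).map φ = s(some x, some x) := by
    intro x e
    induction e using Sym2.ind with
    | _ a b =>
      simp [hφ x a.1 a.2, hφ x b.1 b.2]
  have hAψ : ∀ (x : W) (e : Sym2 (B x)), ((e.map Subtype.val).map ψ).IsDiag := by
    intro x e
    induction e using Sym2.ind with
    | _ a b =>
      simp [hψ x a.1 a.2, hψ x b.1 b.2]
  let F : ((Σ x, (G.induce (B x)).edgeSet) ⊕ H.edgeSet) ⊕ C → G.edgeSet :=
    Sum.elim (Sum.elim (fun a => ⟨a.2.1.map Subtype.val, hA a.1 a.2.1 a.2.2⟩) r)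
      (fun e => ⟨e.1, e.2.1⟩)
  have hnd : ∀ e : H.edgeSet, ¬ (e.1.map some).IsDiag := by
    rintro ⟨e, he⟩
    induction e using Sym2.ind with
    | _ a b =>
      have hab : H.Adj a b := he
      simpa using hab.ne
  have hF : Function.Injective F := by
    rintro ((⟨x, e, he⟩ | e) | e) ((⟨y, e', he'⟩ | e') | e') h
    · have h' : e.map Subtype.val = e'.map Subtype.val := congrArg Subtype.val h
      have h2 : s(some x, some x) = s(some y, some y) := by
        rw [← hAφ x e, ← hAφ y e', h']
      have hxy : x = y := by simpa using h2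
      subst hxy
      have h3 : e = e' := Sym2.map.injective Subtype.val_injective h'
      subst h3
      rfl
    · exfalso
      have h' : e.map Subtype.val = (r e').1 := congrArg Subtype.val h
      have := hnd e'
      rw [← hr1 e', ← h', hAφ x e] at this
      simp at this
    · exfalso
      have h' : e.map Subtype.val = e'.1 := congrArg Subtype.val h
      exact e'.2.2 (h' ▸ hAψ x e)
    · exfalso
      have h' : (r e).1 = e'.map Subtype.val := congrArg Subtype.val h
      have := hnd e
      rw [← hr1 e, h', hAφ y e'] at this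
      simp at this
    · have h' : r e = r e' := h
      have h2 : e.1.map some = e'.1.map some := by rw [← hr1 e, ← hr1 e', h']
      have h3 : e.1 = e'.1 := Sym2.map.injective (Option.some_injective W) h2
      have h4 : e = e' := Subtype.ext h3
      rw [h4]
    · exfalso
      have h' : (r e).1 = e'.1 := congrArg Subtype.val h
      exact e'.2.2 (h' ▸ hr2 e)
    · exfalso
      have h' : e.1 = e'.map Subtype.val := congrArg Subtype.val h
      exact e.2.2 (h' ▸ hAψ y e')
    · exfalso
      have h' : e.1 = (r e').1 := congrArg Subtype.val h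
      exact e.2.2 (h' ▸ hr2 e')
    · have h' : (F (Sum.inr e)).1 = (F (Sum.inr e')).1 := congrArg Subtype.val h
      have : e = e' := Subtype.ext h'
      rw [this]
  have hcard := Nat.card_le_card_of_injective F hF
  rw [Nat.card_sum, Nat.card_sum, Nat.card_sigma] at hcard
  have hCC : Nat.card C = Nat.card {e : Sym2 V // e ∈ G.edgeSet ∧ ¬ (e.map ψ).IsDiag} := rfl
  omega

end Pool.Agent.Lib.MP_72b45c_co
end

section

/-!
Edge-disjoint cycles can be made faces of a rotation system simultaneously.
-/

namespace Pool.Agent.Lib.MP_72b45c_co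

open SimpleGraph

/-! ### Permutations with prescribed classes as cycles -/

/-- A finite type has a permutation with only one cycle. -/
private theorem rotExt_one (X : Type*) [Finite X] :
    ∃ σ : Equiv.Perm X, ∀ x y, ∃ k : ℕ, (σ ^ k) x = y := by
  classical
  have := Fintype.ofFinite X
  have h := (Finset.univ : Finset X).nodup_toList.isCycleOn_formPerm
  refine ⟨(Finset.univ : Finset X).toList.formPerm, fun x y => ?_⟩
  exact (h.2 (by simp) (by simp)).exists_nat_pow_eq

/-- A permutation whose cycles are the classes of `c`. -/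
private theorem rotExt_classes {X C : Type*} [Finite X] (c : X → C) :
    ∃ σ : Equiv.Perm X, (∀ x, c (σ x) = c x) ∧ ∀ x y, c x = c y → ∃ k : ℕ, (σ ^ k) x = y := by
  classical
  choose F hF using fun a : C => rotExt_one {x : X // c x = a}
  let σ : Equiv.Perm X := (Equiv.sigmaFiberEquiv c).permCongr (Equiv.sigmaCongrRight F)
  have hσ : ∀ (a : C) (x : {x : X // c x = a}), σ x = F a x := by
    intro a x
    have h1 : (Equiv.sigmaFiberEquiv c).symm (x : X) = ⟨a, x⟩ := by
      rw [Equiv.symm_apply_eq]
      rfl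
    simp only [σ, Equiv.permCongr_apply, h1]
    rfl
  have hpow : ∀ (a : C) (k : ℕ) (x : {x : X // c x = a}), (σ ^ k) x = (F a ^ k) x := by
    intro a k
    induction k with
    | zero => intro x; simp
    | succ k ih =>
      intro x
      rw [pow_succ', Equiv.Perm.mul_apply, ih, hσ, pow_succ', Equiv.Perm.mul_apply]
  refine ⟨σ, ?_, ?_⟩
  · intro x
    have := hσ (c x) ⟨x, rfl⟩
    rw [show σ x = σ ((⟨x, rfl⟩ : {y : X // c y = c x}) : X) from rfl, this]
    exact (F (c x) ⟨x, rfl⟩).2
  · intro x y hxy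
    obtain ⟨k, hk⟩ := hF (c y) ⟨x, hxy⟩ ⟨y, rfl⟩
    refine ⟨k, ?_⟩
    have := hpow (c y) k ⟨x, hxy⟩
    rw [hk] at this
    exact this

/-- Extension of a partial injection to a permutation whose cycles are the classes of `c`. -/
theorem exists_perm_extend {X C : Type*} [Finite X] (c : X → C) (P : Set X) (f : X → X)
    (hc : ∀ x ∈ P, c (f x) = c x) (hf : Set.InjOn f P) (hP : ∀ x ∈ P, f x ∉ P) :
    ∃ σ : Equiv.Perm X, (∀ x ∈ P, σ x = f x) ∧ (∀ x, c (σ x) = c x) ∧
      ∀ x y, c x = c y → σ.SameCycle x y := by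
  classical
  -- the elements which are not values of `f`
  let Y := {x : X // x ∉ f '' P}
  obtain ⟨τ, hτc, hτ⟩ := rotExt_classes (fun y : Y => c y.1)
  -- the projection to `Y`
  have hpre : ∀ x : X, ∃ y : Y, (x ∉ f '' P → y.1 = x) ∧ (x ∈ f '' P → y.1 ∈ P ∧ f y.1 = x) := by
    intro x
    by_cases hx : x ∈ f '' P
    · obtain ⟨p, hp, rfl⟩ := hx
      have hpY : p ∉ f '' P := by
        rintro ⟨q, hq, rfl⟩
        exact hP q hq hp
      exact ⟨⟨p, hpY⟩, fun h => absurd (Set.mem_image_of_mem f hp) h, fun _ => ⟨hp, rfl⟩⟩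
    · exact ⟨⟨x, hx⟩, fun _ => rfl, fun h => absurd h hx⟩
  choose π hπ1 hπ2 using hpre
  have hπc : ∀ x, c (π x).1 = c x := by
    intro x
    by_cases hx : x ∈ f '' P
    · obtain ⟨h1, h2⟩ := hπ2 x hx
      rw [← hc _ h1, h2]
    · rw [hπ1 x hx]
  let g : X → X := fun x => if x ∈ P then f x else (τ (π x)).1
  have hg1 : ∀ x ∈ P, g x = f x := fun x hx => if_pos hx
  have hg2 : ∀ x ∉ P, g x = (τ (π x)).1 := fun x hx => if_neg hx
  have hgi : Function.Injective g := by
    intro x x' h
    by_cases hx : x ∈ P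
    · by_cases hx' : x' ∈ P
      · rw [hg1 x hx, hg1 x' hx'] at h
        exact hf hx hx' h
      · rw [hg1 x hx, hg2 x' hx'] at h
        exact absurd ⟨x, hx, h⟩ (τ (π x')).2
    · by_cases hx' : x' ∈ P
      · rw [hg2 x hx, hg1 x' hx'] at h
        exact absurd ⟨x', hx', h.symm⟩ (τ (π x)).2
      · rw [hg2 x hx, hg2 x' hx'] at h
        have h1 : π x = π x' := τ.injective (Subtype.ext h)
        by_cases h2 : x ∈ f '' P
        · by_cases h3 : x' ∈ f '' P
          · rw [← (hπ2 x h2).2, ← (hπ2 x' h3).2, h1]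
          · exfalso
            apply hx'
            rw [← hπ1 x' h3, ← h1]
            exact (hπ2 x h2).1
        · by_cases h3 : x' ∈ f '' P
          · exfalso
            apply hx
            rw [← hπ1 x h2, h1]
            exact (hπ2 x' h3).1
          · rw [← hπ1 x h2, ← hπ1 x' h3, h1]
  let σ : Equiv.Perm X := Equiv.ofBijective g (Finite.injective_iff_bijective.1 hgi)
  have hσ : ∀ x, σ x = g x := fun x => rfl
  have hstep : ∀ y : Y, σ.SameCycle y.1 (τ y).1 := by
    intro y
    by_cases hy : y.1 ∈ P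
    · have h1 : σ y.1 = f y.1 := (hσ _).trans (hg1 _ hy)
      have h2 : σ (f y.1) = (τ y).1 := by
        rw [hσ, hg2 _ (hP _ hy)]
        have h3 := hπ2 (f y.1) ⟨y.1, hy, rfl⟩
        have h4 : π (f y.1) = y := Subtype.ext (hf h3.1 hy h3.2)
        rw [h4]
      refine ⟨2, ?_⟩
      rw [← h2, ← h1]
      rfl
    · refine ⟨1, ?_⟩
      rw [zpow_one, hσ, hg2 _ hy]
      have h4 : π y.1 = y := Subtype.ext (hπ1 y.1 y.2)
      rw [h4]
  have hpow : ∀ (k : ℕ) (y : Y), σ.SameCycle y.1 ((τ ^ k) y).1 := by
    intro k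
    induction k with
    | zero => intro y; exact Equiv.Perm.SameCycle.refl _ _
    | succ k ih =>
      intro y
      rw [pow_succ', Equiv.Perm.mul_apply]
      exact (ih y).trans (hstep _)
  have hproj : ∀ x, σ.SameCycle x (π x).1 := by
    intro x
    by_cases hx : x ∈ f '' P
    · obtain ⟨h1, h2⟩ := hπ2 x hx
      refine Equiv.Perm.SameCycle.symm ⟨1, ?_⟩
      rw [zpow_one, hσ, hg1 _ h1, h2]
    · rw [hπ1 x hx]
  refine ⟨σ, fun x hx => (hσ x).trans (hg1 x hx), ?_, ?_⟩
  · intro x
    by_cases hx : x ∈ P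
    · rw [hσ, hg1 x hx, hc x hx]
    · rw [hσ, hg2 x hx]
      exact (hτc (π x)).trans (hπc x)
  · intro x y hxy
    obtain ⟨k, hk⟩ := hτ (π x) (π y) ((hπc x).trans (hxy.trans (hπc y).symm))
    have h1 := hpow k (π x)
    rw [hk] at h1
    exact (hproj x).trans (h1.trans (hproj y).symm)

/-! ### Rotation systems -/

/-- the dart following `d` in a closed walk starts where `d` ends -/
private theorem rotExt_next {V : Type*} {H : SimpleGraph V} [DecidableEq H.Dart] {v : V}
    (p : H.Walk v v) (hp : p.darts.Nodup) {d : H.Dart} (hd : d ∈ p.darts) :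
    (p.darts.formPerm d).fst = d.snd := by
  obtain ⟨i, hi, rfl⟩ := List.getElem_of_mem hd
  rw [List.formPerm_apply_getElem _ hp i hi]
  have hi' : i < p.length := by rwa [Walk.length_darts] at hi
  rw [Walk.darts_getElem_eq_getVert, Walk.darts_getElem_eq_getVert]
  simp only
  rcases Nat.lt_or_ge (i + 1) p.length with h | h
  · rw [Walk.length_darts, Nat.mod_eq_of_lt h]
  · have h1 : i + 1 = p.length := by omega
    rw [Walk.length_darts, h1, Nat.mod_self, Walk.getVert_zero, Walk.getVert_length]

/-- Pairwise edge-disjoint cycles `c 0, …, c (k-1)` are faces of a common rotation system; every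
component has one more face. -/
theorem exists_rotation {V : Type*} [Finite V] (H : SimpleGraph V) (k : ℕ)
    (c : Fin k → Σ v, H.Walk v v) (hc : ∀ i, (c i).2.IsCycle)
    (hd : ∀ i j, i ≠ j → ∀ e ∈ (c i).2.edges, e ∉ (c j).2.edges) :
    ∃ R : RotationSystem H,
      k + Nat.card H.ConnectedComponent ≤ R.numFaces + numIsolated H := by
  classical
  have hfin : Finite H.Dart := by
    have : Finite (V × V) := inferInstance
    exact Finite.of_injective (fun d : H.Dart => d.toProd) fun d d' h => Dart.ext _ _ h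
  -- the darts of the cycles
  have hedge : ∀ i, ∀ d ∈ (c i).2.darts, d.edge ∈ (c i).2.edges := by
    intro i d h
    exact List.mem_map_of_mem h
  have hnd : ∀ i, (c i).2.darts.Nodup := fun i =>
    List.Nodup.of_map _ (hc i).isCircuit.isTrail.edges_nodup
  have hinj : ∀ i, ∀ d ∈ (c i).2.darts, ∀ d' ∈ (c i).2.darts, d.edge = d'.edge → d = d' := by
    intro i d h d' h' he
    exact List.inj_on_of_nodup_map (hc i).isCircuit.isTrail.edges_nodup h h' he
  have hij : ∀ i j, ∀ d ∈ (c i).2.darts, ∀ d' ∈ (c j).2.darts, d.edge = d'.edge → i = j := by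
    intro i j d h d' h' he
    by_contra hne
    exact hd i j hne _ (hedge i d h) (he ▸ hedge j d' h')
  have hsymm : ∀ i j, ∀ d ∈ (c i).2.darts, d.symm ∉ (c j).2.darts := by
    intro i j d h h'
    have h1 := hij i j d h d.symm h' (Dart.edge_symm d).symm
    subst h1
    exact (Dart.symm_ne d) (hinj i _ h' _ h (Dart.edge_symm d))
  -- the next dart
  let F : H.Dart → H.Dart := fun d =>
    if h : ∃ i, d ∈ (c i).2.darts then (c h.choose).2.darts.formPerm d else d
  have hF : ∀ i, ∀ d ∈ (c i).2.darts, F d = (c i).2.darts.formPerm d := by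
    intro i d h
    have h1 : ∃ i, d ∈ (c i).2.darts := ⟨i, h⟩
    have h2 : h1.choose = i := hij _ _ d h1.choose_spec d h rfl
    simp only [F, dif_pos h1]
    rw [h2]
  have hFmem : ∀ i, ∀ d ∈ (c i).2.darts, F d ∈ (c i).2.darts := by
    intro i d h
    rw [hF i d h]
    exact List.formPerm_apply_mem_of_mem h
  obtain ⟨σ, hσ1, hσ2, hσ3⟩ := exists_perm_extend (fun d : H.Dart => d.fst)
    {d : H.Dart | ∃ i, d.symm ∈ (c i).2.darts} (fun d => F d.symm)
    (by
      rintro d ⟨i, hi⟩
      rw [hF i _ hi, rotExt_next _ (hnd i) hi]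
      rfl)
    (by
      rintro d ⟨i, hi⟩ d' ⟨j, hj⟩ h
      change F d.symm = F d'.symm at h
      have h1 : i = j := hij i j _ (hFmem i _ hi) _ (hFmem j _ hj) (by rw [h])
      subst h1
      rw [hF i _ hi, hF i _ hj] at h
      have h2 := (List.formPerm _).injective h
      exact Dart.symm_involutive.injective h2)
    (by
      rintro d ⟨i, hi⟩ ⟨j, hj⟩
      exact hsymm i j _ (hFmem i _ hi) hj)
  refine ⟨⟨σ, hσ2, hσ3⟩, ?_⟩
  set R : RotationSystem H := ⟨σ, hσ2, hσ3⟩ with hR
  have hface : ∀ d, R.face d = σ d.symm := fun d => rfl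
  have hface1 : ∀ i, ∀ d ∈ (c i).2.darts, R.face d ∈ (c i).2.darts := by
    intro i d h
    rw [hface, hσ1 d.symm ⟨i, by rwa [Dart.symm_symm]⟩, Dart.symm_symm]
    exact hFmem i d h
  have hface2 : ∀ d, (R.face d).fst = d.snd := by
    intro d
    rw [hface]
    exact hσ2 d.symm
  -- invariance
  have hinv1 : ∀ i, ∀ d d', R.face.SameCycle d d' → d ∈ (c i).2.darts → d' ∈ (c i).2.darts := by
    intro i d d' h hd
    obtain ⟨m, rfl⟩ := h.exists_nat_pow_eq
    clear h
    induction m with
    | zero => exact hd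
    | succ m ih =>
      rw [pow_succ', Equiv.Perm.mul_apply]
      exact hface1 i _ ih
  have hinv2 : ∀ d d', R.face.SameCycle d d' →
      H.connectedComponentMk d.fst = H.connectedComponentMk d'.fst := by
    intro d d' h
    obtain ⟨m, rfl⟩ := h.exists_nat_pow_eq
    clear h
    induction m with
    | zero => rfl
    | succ m ih =>
      rw [pow_succ', Equiv.Perm.mul_apply, hface2, ih]
      exact ConnectedComponent.sound ((R.face ^ m) d).adj.reachable
  -- representatives
  have hfirst : ∀ i, ∃ d, d ∈ (c i).2.darts := by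
    intro i
    apply List.exists_mem_of_ne_nil
    intro h
    have h1 := (hc i).three_le_length
    rw [← Walk.length_darts, h] at h1
    simp at h1
  choose a ha using hfirst
  have hcomp : ∀ C : H.ConnectedComponent, (∃ d : H.Dart, H.connectedComponentMk d.fst = C) →
      ∃ d : H.Dart, H.connectedComponentMk d.fst = C ∧ ∀ i, d ∉ (c i).2.darts := by
    rintro C ⟨d, rfl⟩
    by_cases h : ∃ i, d ∈ (c i).2.darts
    · obtain ⟨i, hi⟩ := h
      refine ⟨d.symm, ?_, fun j => hsymm i j d hi⟩
      exact ConnectedComponent.sound d.symm.adj.reachable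
    · exact ⟨d, rfl, fun i hi => h ⟨i, hi⟩⟩
  have hiso : ∀ C : H.ConnectedComponent, (¬ ∃ d : H.Dart, H.connectedComponentMk d.fst = C) →
      ∃ v : V, H.connectedComponentMk v = C ∧ ∀ w, ¬ H.Adj v w := by
    intro C h
    obtain ⟨v, rfl⟩ := C.exists_rep
    exact ⟨v, rfl, fun w hw => h ⟨⟨(v, w), hw⟩, rfl⟩⟩
  choose b hb1 hb2 using hcomp
  choose s hs1 hs2 using hiso
  let Φ : Fin k ⊕ H.ConnectedComponent →
      Quotient (Equiv.Perm.SameCycle.setoid R.face) ⊕ {v : V // ∀ w, ¬ H.Adj v w} := fun x =>
    match x with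
    | .inl i => .inl (Quotient.mk _ (a i))
    | .inr C => if h : ∃ d : H.Dart, H.connectedComponentMk d.fst = C then
        .inl (Quotient.mk _ (b C h)) else .inr ⟨s C h, hs2 C h⟩
  have hΦ1 : ∀ i, Φ (.inl i) = .inl (Quotient.mk _ (a i)) := fun i => rfl
  have hΦ2 : ∀ C (h : ∃ d : H.Dart, H.connectedComponentMk d.fst = C),
      Φ (.inr C) = .inl (Quotient.mk _ (b C h)) := fun C h => dif_pos h
  have hΦ3 : ∀ C (h : ¬ ∃ d : H.Dart, H.connectedComponentMk d.fst = C),
      Φ (.inr C) = .inr ⟨s C h, hs2 C h⟩ := fun C h => dif_neg h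
  have hΦi : Function.Injective Φ := by
    rintro (i | C) (j | C') h
    · rw [hΦ1, hΦ1] at h
      have h1 : R.face.SameCycle (a i) (a j) := Quotient.exact (Sum.inl_injective h)
      have h2 := hinv1 i _ _ h1 (ha i)
      rw [hij i j _ h2 _ (ha j) rfl]
    · exfalso
      by_cases h' : ∃ d : H.Dart, H.connectedComponentMk d.fst = C'
      · rw [hΦ1, hΦ2 _ h'] at h
        have h1 : R.face.SameCycle (a i) (b C' h') := Quotient.exact (Sum.inl_injective h)
        exact hb2 C' h' i (hinv1 i _ _ h1 (ha i))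
      · rw [hΦ1, hΦ3 _ h'] at h
        cases h
    · exfalso
      by_cases h' : ∃ d : H.Dart, H.connectedComponentMk d.fst = C
      · rw [hΦ1, hΦ2 _ h'] at h
        have h1 : R.face.SameCycle (a j) (b C h') := Quotient.exact (Sum.inl_injective h.symm)
        exact hb2 C h' j (hinv1 j _ _ h1 (ha j))
      · rw [hΦ1, hΦ3 _ h'] at h
        cases h
    · by_cases h1 : ∃ d : H.Dart, H.connectedComponentMk d.fst = C
      · by_cases h2 : ∃ d : H.Dart, H.connectedComponentMk d.fst = C'
        · rw [hΦ2 _ h1, hΦ2 _ h2] at h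
          have h3 : R.face.SameCycle (b C h1) (b C' h2) := Quotient.exact (Sum.inl_injective h)
          have h4 := hinv2 _ _ h3
          rw [hb1, hb1] at h4
          rw [h4]
        · rw [hΦ2 _ h1, hΦ3 _ h2] at h
          cases h
      · by_cases h2 : ∃ d : H.Dart, H.connectedComponentMk d.fst = C'
        · rw [hΦ3 _ h1, hΦ2 _ h2] at h
          cases h
        · rw [hΦ3 _ h1, hΦ3 _ h2] at h
          have h3 : s C h1 = s C' h2 := congrArg Subtype.val (Sum.inr_injective h)
          rw [← hs1 C h1, ← hs1 C' h2, h3]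
  have hfinC : Finite H.ConnectedComponent :=
    Finite.of_surjective H.connectedComponentMk fun C => C.exists_rep
  have hcard := Nat.card_le_card_of_injective Φ hΦi
  rw [Nat.card_sum, Nat.card_sum, Nat.card_eq_fintype_card, Fintype.card_fin] at hcard
  exact hcard

end Pool.Agent.Lib.MP_72b45c_co
end

section

/-!
Graphs in which every edge meets a small set, with many edges, contain many edge-disjoint short
cycles.
-/

namespace Pool.Agent.Lib.MP_72b45c_co

open SimpleGraph

/-- removing the first step of a walk -/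
def shortCycleTl {V : Type*} {K : SimpleGraph V} {x₀ : V} :
    (Σ v, K.Walk v x₀) → (Σ v, K.Walk v x₀)
  | ⟨_, .nil⟩ => ⟨_, .nil⟩
  | ⟨_, .cons _ p⟩ => ⟨_, p⟩

theorem shortCycle_forbid {V : Type*} {K : SimpleGraph V} {x₀ y : V} (p : K.Walk y x₀)
    (hp : List.IsChain (· ≠ ·) p.edges) :
    ∃ z, ∀ w (h : K.Adj w y), w ≠ z → List.IsChain (· ≠ ·) (Walk.cons h p).edges := by
  cases p with
  | nil => exact ⟨x₀, fun w h _ => by simp⟩
  | @cons _ z _ h' p' =>
    refine ⟨z, fun w h hw => ?_⟩
    rw [Walk.edges_cons] at hp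
    rw [Walk.edges_cons, Walk.edges_cons, List.isChain_cons_cons]
    refine ⟨?_, hp⟩
    intro he
    rw [Sym2.eq_iff] at he
    rcases he with ⟨h1, _⟩ | ⟨h1, _⟩
    · exact h.ne h1
    · exact hw h1

theorem shortCycle_core {V : Type*} [Fintype V] [DecidableEq V] (K : SimpleGraph V)
    [DecidableRel K.Adj] (S W : Finset V)
    (hS : ∀ x y, K.Adj x y → x ∈ S ∨ y ∈ S) (hW : ∀ x y, K.Adj x y → x ∈ W)
    (D t : ℕ) (hD : Fintype.card V < D ^ t)
    (h1 : ∀ x ∈ W, x ∈ S → D + 1 ≤ K.degree x) (h2 : ∀ x ∈ W, x ∉ S → 2 ≤ K.degree x)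
    (x₀ : V) (hx₀ : x₀ ∈ W) :
    ∃ (v : V) (p : K.Walk v v), p.IsCycle ∧ p.length ≤ 4 * t := by
  have hD1 : 1 ≤ D := by
    by_contra h
    have h0 : D = 0 := by omega
    have hc : 0 < Fintype.card V := Fintype.card_pos_iff.2 ⟨x₀⟩
    subst h0
    have : (0 : ℕ) ^ t ≤ 1 := by
      cases t with
      | zero => simp
      | succ t => simp
    omega
  have h2' : ∀ x ∈ W, 2 ≤ K.degree x := by
    intro x hx
    by_cases hxS : x ∈ S
    · have := h1 x hx hxS
      omega
    · exact h2 x hx hxS
  -- neighbours other than a forbidden vertex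
  have herase : ∀ (y z : V), K.degree y ≤ ((K.neighborFinset y).erase z).card + 1 := by
    intro y z
    rw [← card_neighborFinset_eq_degree]
    by_cases hz : z ∈ K.neighborFinset y
    · rw [Finset.card_erase_add_one hz]
    · rw [Finset.erase_eq_of_notMem hz]
      omega
  -- extensions by two steps
  have hext : ∀ q : (Σ v, K.Walk v x₀), List.IsChain (· ≠ ·) q.2.edges → q.1 ∈ W →
      ∃ E : Finset (Σ v, K.Walk v x₀), D ≤ E.card ∧ ∀ r ∈ E, List.IsChain (· ≠ ·) r.2.edges ∧
        r.1 ∈ W ∧ r.2.length = q.2.length + 2 ∧ shortCycleTl (shortCycleTl r) = q := by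
    rintro ⟨y, p⟩ hp hy
    simp only at hp hy
    obtain ⟨z, hz⟩ := shortCycle_forbid p hp
    by_cases hyS : y ∈ S
    · have hcard : D ≤ ((K.neighborFinset y).erase z).card := by
        have := h1 y hy hyS
        have := herase y z
        omega
      have hF : ∀ w : {w // w ∈ (K.neighborFinset y).erase z}, ∃ r : (Σ v, K.Walk v x₀),
          List.IsChain (· ≠ ·) r.2.edges ∧ r.1 ∈ W ∧ r.2.length = p.length + 2 ∧
          shortCycleTl (shortCycleTl r) = ⟨y, p⟩ ∧ (shortCycleTl r).1 = w := by
        rintro ⟨w, hw⟩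
        rw [Finset.mem_erase, mem_neighborFinset] at hw
        have hwy : K.Adj w y := hw.2.symm
        have hc := hz w hwy hw.1
        obtain ⟨z', hz'⟩ := shortCycle_forbid (Walk.cons hwy p) hc
        have hwW : w ∈ W := hW w y hwy
        have hc2 : 0 < ((K.neighborFinset w).erase z').card := by
          have := h2' w hwW
          have := herase w z'
          omega
        obtain ⟨w', hw'⟩ := Finset.card_pos.1 hc2
        rw [Finset.mem_erase, mem_neighborFinset] at hw'
        refine ⟨⟨w', Walk.cons hw'.2.symm (Walk.cons hwy p)⟩, hz' w' hw'.2.symm hw'.1,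
          hW w' w hw'.2.symm, ?_, rfl, rfl⟩
        simp
      choose F hF1 hF2 hF3 hF4 hF5 using hF
      refine ⟨Finset.univ.image F, ?_, ?_⟩
      · rw [Finset.card_image_of_injective]
        · simpa using hcard
        · intro w w' hww
          apply Subtype.ext
          rw [← hF5 w, ← hF5 w', hww]
      · intro r hr
        rw [Finset.mem_image] at hr
        obtain ⟨w, -, rfl⟩ := hr
        exact ⟨hF1 w, hF2 w, hF3 w, hF4 w⟩
    · have hc1 : 0 < ((K.neighborFinset y).erase z).card := by
        have := h2' y hy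
        have := herase y z
        omega
      obtain ⟨w, hw⟩ := Finset.card_pos.1 hc1
      rw [Finset.mem_erase, mem_neighborFinset] at hw
      have hwy : K.Adj w y := hw.2.symm
      have hc := hz w hwy hw.1
      obtain ⟨z', hz'⟩ := shortCycle_forbid (Walk.cons hwy p) hc
      have hwW : w ∈ W := hW w y hwy
      have hwS : w ∈ S := (hS w y hwy).resolve_right hyS
      have hcard : D ≤ ((K.neighborFinset w).erase z').card := by
        have := h1 w hwW hwS
        have := herase w z'
        omega
      have hF : ∀ w' : {w' // w' ∈ (K.neighborFinset w).erase z'}, ∃ r : (Σ v, K.Walk v x₀),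
          List.IsChain (· ≠ ·) r.2.edges ∧ r.1 ∈ W ∧ r.2.length = p.length + 2 ∧
          shortCycleTl (shortCycleTl r) = ⟨y, p⟩ ∧ r.1 = w' := by
        rintro ⟨w', hw'⟩
        rw [Finset.mem_erase, mem_neighborFinset] at hw'
        refine ⟨⟨w', Walk.cons hw'.2.symm (Walk.cons hwy p)⟩, hz' w' hw'.2.symm hw'.1,
          hW w' w hw'.2.symm, ?_, rfl, rfl⟩
        simp
      choose F hF1 hF2 hF3 hF4 hF5 using hF
      refine ⟨Finset.univ.image F, ?_, ?_⟩
      · rw [Finset.card_image_of_injective]
        · simpa using hcard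
        · intro w w' hww
          apply Subtype.ext
          rw [← hF5 w, ← hF5 w', hww]
      · intro r hr
        rw [Finset.mem_image] at hr
        obtain ⟨w, -, rfl⟩ := hr
        exact ⟨hF1 w, hF2 w, hF3 w, hF4 w⟩
  -- many walks
  have hmany : ∀ j : ℕ, ∃ s : Finset (Σ v, K.Walk v x₀), D ^ j ≤ s.card ∧
      ∀ q ∈ s, List.IsChain (· ≠ ·) q.2.edges ∧ q.1 ∈ W ∧ q.2.length = 2 * j := by
    intro j
    induction j with
    | zero =>
      refine ⟨{⟨x₀, Walk.nil⟩}, by simp, ?_⟩
      intro q hq
      rw [Finset.mem_singleton] at hq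
      subst hq
      exact ⟨by simp, hx₀, by simp⟩
    | succ j ih =>
      obtain ⟨s, hs1, hs2⟩ := ih
      have hE : ∀ q : (Σ v, K.Walk v x₀), ∃ E : Finset (Σ v, K.Walk v x₀), q ∈ s →
          D ≤ E.card ∧ ∀ r ∈ E, List.IsChain (· ≠ ·) r.2.edges ∧
          r.1 ∈ W ∧ r.2.length = q.2.length + 2 ∧ shortCycleTl (shortCycleTl r) = q := by
        intro q
        by_cases hq : q ∈ s
        · obtain ⟨E, hE1, hE2⟩ := hext q (hs2 q hq).1 (hs2 q hq).2.1
          exact ⟨E, fun _ => ⟨hE1, hE2⟩⟩
        · exact ⟨∅, fun h => absurd h hq⟩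
      choose E hE using hE
      refine ⟨s.biUnion E, ?_, ?_⟩
      · rw [Finset.card_biUnion]
        · calc D ^ (j + 1) = D ^ j * D := pow_succ _ _
            _ ≤ s.card * D := Nat.mul_le_mul_right _ hs1
            _ = ∑ _q ∈ s, D := by simp
            _ ≤ ∑ q ∈ s, (E q).card := Finset.sum_le_sum fun q hq => (hE q hq).1
        · intro q hq q' hq' hne
          rw [Function.onFun, Finset.disjoint_left]
          intro r hr hr'
          apply hne
          rw [← ((hE q hq).2 r hr).2.2.2, ← ((hE q' hq').2 r hr').2.2.2]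
      · intro r hr
        rw [Finset.mem_biUnion] at hr
        obtain ⟨q, hq, hr⟩ := hr
        obtain ⟨ha, hb, hc, -⟩ := (hE q hq).2 r hr
        refine ⟨ha, hb, ?_⟩
        rw [hc, (hs2 q hq).2.2]
        ring
  obtain ⟨s, hs1, hs2⟩ := hmany t
  by_contra hcon
  push Not at hcon
  have hinj : Set.InjOn (fun q : (Σ v, K.Walk v x₀) => q.1) s := by
    rintro ⟨v, p⟩ hp ⟨v', q⟩ hq hv
    simp only at hv
    subst hv
    by_cases hpq : p = q
    · rw [hpq]
    · exfalso
      obtain ⟨ha, -, hb⟩ := hs2 _ hp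
      obtain ⟨ha', -, hb'⟩ := hs2 _ hq
      obtain ⟨w, r, hr1, hr2⟩ := exists_cycle_of_two_chains K p q hpq ha ha'
      have := hcon w r hr1
      simp only at hb hb'
      omega
  have h5 : s.card ≤ Fintype.card V := by
    rw [← Finset.card_image_of_injOn hinj]
    exact Finset.card_le_univ _
  omega

/-- passing to a subgraph with large degrees -/
theorem shortCycle_reduce {V : Type*} [Fintype V] [DecidableEq V] (S : Finset V) (D : ℕ) :
    ∀ (N : ℕ) (K : SimpleGraph V) (W : Finset V), W.card = N →
      (∀ x y, K.Adj x y → x ∈ W) →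
      D * (W ∩ S).card + (W \ S).card < Nat.card K.edgeSet →
      ∃ (K' : SimpleGraph V) (W' : Finset V), K' ≤ K ∧ (∀ x y, K'.Adj x y → x ∈ W') ∧
        D * (W' ∩ S).card + (W' \ S).card < Nat.card K'.edgeSet ∧
        (∀ x ∈ W', x ∈ S → D + 1 ≤ (K'.neighborSet x).ncard) ∧
        (∀ x ∈ W', x ∉ S → 2 ≤ (K'.neighborSet x).ncard) := by
  classical
  intro N
  induction N with
  | zero =>
    intro K W hN hW hlt
    rw [Finset.card_eq_zero] at hN
    subst hN
    exact ⟨K, ∅, le_rfl, hW, hlt, by simp, by simp⟩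
  | succ N ih =>
    intro K W hN hW hlt
    by_cases hgood : (∀ x ∈ W, x ∈ S → D + 1 ≤ (K.neighborSet x).ncard) ∧
        (∀ x ∈ W, x ∉ S → 2 ≤ (K.neighborSet x).ncard)
    · exact ⟨K, W, le_rfl, hW, hlt, hgood.1, hgood.2⟩
    · have hbad : ∃ x ∈ W, (x ∈ S ∧ (K.neighborSet x).ncard ≤ D) ∨
          (x ∉ S ∧ (K.neighborSet x).ncard ≤ 1) := by
        rw [not_and_or] at hgood
        rcases hgood with h | h
        · push Not at h
          obtain ⟨x, hx, hxS, hd⟩ := h
          exact ⟨x, hx, Or.inl ⟨hxS, by omega⟩⟩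
        · push Not at h
          obtain ⟨x, hx, hxS, hd⟩ := h
          exact ⟨x, hx, Or.inr ⟨hxS, by omega⟩⟩
      obtain ⟨x, hx, hbad⟩ := hbad
      have hcardE : Nat.card (K.deleteIncidenceSet x).edgeSet =
          Nat.card K.edgeSet - (K.neighborSet x).ncard := by
        have := card_edgeFinset_deleteIncidenceSet K x
        rw [← card_neighborFinset_eq_degree] at this
        simp only [Nat.card_eq_fintype_card, Set.ncard_eq_toFinset_card']
        rw [← edgeFinset_card, ← edgeFinset_card]
        exact this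
      have hW' : ∀ a b, (K.deleteIncidenceSet x).Adj a b → a ∈ W.erase x := by
        intro a b hab
        rw [deleteIncidenceSet_adj] at hab
        rw [Finset.mem_erase]
        exact ⟨hab.2.1, hW a b hab.1⟩
      have hlt' : D * ((W.erase x) ∩ S).card + ((W.erase x) \ S).card <
          Nat.card (K.deleteIncidenceSet x).edgeSet := by
        rw [hcardE]
        rcases hbad with ⟨hxS, hd⟩ | ⟨hxS, hd⟩
        · have e1 : (W.erase x) ∩ S = (W ∩ S).erase x := Finset.erase_inter x W S
          have e2 : (W.erase x) \ S = W \ S := by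
            ext y
            simp only [Finset.mem_sdiff, Finset.mem_erase]
            constructor
            · rintro ⟨⟨_, h1⟩, h2⟩
              exact ⟨h1, h2⟩
            · rintro ⟨h1, h2⟩
              refine ⟨⟨?_, h1⟩, h2⟩
              rintro rfl
              exact h2 hxS
          have e3 : (W ∩ S).card = ((W ∩ S).erase x).card + 1 :=
            (Finset.card_erase_add_one (Finset.mem_inter.2 ⟨hx, hxS⟩)).symm
          rw [e1, e2]
          rw [e3, mul_add, mul_one] at hlt
          omega
        · have e1 : (W.erase x) ∩ S = W ∩ S := by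
            ext y
            simp only [Finset.mem_inter, Finset.mem_erase]
            constructor
            · rintro ⟨⟨_, h1⟩, h2⟩
              exact ⟨h1, h2⟩
            · rintro ⟨h1, h2⟩
              refine ⟨⟨?_, h1⟩, h2⟩
              rintro rfl
              exact hxS h2
          have e2 : (W.erase x) \ S = (W \ S).erase x := Finset.erase_sdiff_comm W S x
          have e3 : (W \ S).card = ((W \ S).erase x).card + 1 :=
            (Finset.card_erase_add_one (Finset.mem_sdiff.2 ⟨hx, hxS⟩)).symm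
          rw [e1, e2]
          rw [e3] at hlt
          omega
      have hN' : (W.erase x).card = N := by
        rw [Finset.card_erase_of_mem hx, hN]
        rfl
      obtain ⟨K', W', h1, h2, h3, h4, h5⟩ := ih _ _ hN' hW' hlt'
      exact ⟨K', W', h1.trans (K.deleteIncidenceSet_le x), h2, h3, h4, h5⟩

theorem exists_short_cycle {V : Type*} [Finite V] (K : SimpleGraph V) (S : Set V)
    (hS : ∀ x y, K.Adj x y → x ∈ S ∨ y ∈ S) (D t : ℕ) (hD : Nat.card V < D ^ t)
    (hE : D * S.ncard + Sᶜ.ncard < Nat.card K.edgeSet) :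
    ∃ (v : V) (p : K.Walk v v), p.IsCycle ∧ p.length ≤ 4 * t := by
  classical
  have := Fintype.ofFinite V
  obtain ⟨K', W, h1, h2, h3, h4, h5⟩ := shortCycle_reduce S.toFinset D _ K Finset.univ rfl
    (fun x _ _ => Finset.mem_univ x) (by
      rw [Finset.univ_inter, ← Finset.compl_eq_univ_sdiff, ← Set.toFinset_compl]
      rw [← Set.ncard_eq_toFinset_card', ← Set.ncard_eq_toFinset_card']
      exact hE)
  have hpos : 0 < Nat.card K'.edgeSet := by omega
  have hne : Nonempty K'.edgeSet := by
    rw [Nat.card_pos_iff] at hpos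
    exact hpos.1
  obtain ⟨⟨e, he⟩⟩ := hne
  induction e with
  | _ x₀ y₀ =>
  rw [mem_edgeSet] at he
  obtain ⟨v, p, hp1, hp2⟩ := shortCycle_core K' S.toFinset W (fun x y hxy => by
      simpa using hS x y (h1 hxy)) h2 D t (by rwa [← Nat.card_eq_fintype_card])
    (fun x hx hxS => by
      have := h4 x hx hxS
      rwa [Set.ncard_eq_toFinset_card', ← neighborFinset_def, card_neighborFinset_eq_degree]
        at this)
    (fun x hx hxS => by
      have := h5 x hx hxS
      rwa [Set.ncard_eq_toFinset_card', ← neighborFinset_def, card_neighborFinset_eq_degree]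
        at this) x₀ (h2 x₀ y₀ he)
  refine ⟨v, p.mapLe h1, hp1.mapLe h1, ?_⟩
  rw [Walk.length_mapLe]
  exact hp2

theorem exists_cycle_packing {V : Type*} [Finite V] (K : SimpleGraph V) (S : Set V)
    (hS : ∀ x y, K.Adj x y → x ∈ S ∨ y ∈ S) (D t : ℕ) (hD : Nat.card V < D ^ t) :
    ∃ (k : ℕ) (c : Fin k → Σ v, K.Walk v v), (∀ i, (c i).2.IsCycle) ∧
      (∀ i j, i ≠ j → ∀ e ∈ (c i).2.edges, e ∉ (c j).2.edges) ∧
      Nat.card K.edgeSet ≤ 4 * t * k + D * S.ncard + Sᶜ.ncard := by
  classical
  have key : ∀ (N : ℕ) (K : SimpleGraph V), (∀ x y, K.Adj x y → x ∈ S ∨ y ∈ S) →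
      Nat.card K.edgeSet ≤ N →
      ∃ (k : ℕ) (c : Fin k → Σ v, K.Walk v v), (∀ i, (c i).2.IsCycle) ∧
      (∀ i j, i ≠ j → ∀ e ∈ (c i).2.edges, e ∉ (c j).2.edges) ∧
      Nat.card K.edgeSet ≤ 4 * t * k + D * S.ncard + Sᶜ.ncard := by
    intro N
    induction N with
    | zero =>
      intro K _ hN
      exact ⟨0, Fin.elim0, fun i => i.elim0, fun i => i.elim0, by omega⟩
    | succ N ih =>
      intro K hS hN
      by_cases hsmall : Nat.card K.edgeSet ≤ D * S.ncard + Sᶜ.ncard
      · exact ⟨0, Fin.elim0, fun i => i.elim0, fun i => i.elim0, by omega⟩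
      · obtain ⟨v, p, hp1, hp2⟩ := exists_short_cycle K S hS D t hD (by omega)
        set s : Set (Sym2 V) := {e | e ∈ p.edges} with hs
        have hsub : s ⊆ K.edgeSet := fun e he => p.edges_subset_edgeSet he
        have hcard1 : Nat.card (K.deleteEdges s).edgeSet + s.ncard = Nat.card K.edgeSet := by
          rw [Nat.card_coe_set_eq, Nat.card_coe_set_eq, edgeSet_deleteEdges]
          exact Set.ncard_sdiff_add_ncard_of_subset hsub
        have hcard2 : s.ncard ≤ 4 * t := by
          have h1 : s = ((p.edges.toFinset : Finset (Sym2 V)) : Set (Sym2 V)) := by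
            ext e
            simp [hs]
          rw [h1, Set.ncard_coe_finset]
          calc p.edges.toFinset.card ≤ p.edges.length := List.toFinset_card_le _
            _ = p.length := Walk.length_edges p
            _ ≤ 4 * t := hp2
        have hcard3 : 0 < s.ncard := by
          rw [Set.ncard_pos]
          have h1 : 0 < p.edges.length := by
            rw [Walk.length_edges]
            have := hp1.three_le_length
            omega
          obtain ⟨e, he⟩ := List.exists_mem_of_length_pos h1
          exact ⟨e, he⟩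
        obtain ⟨k, c, hc1, hc2, hc3⟩ := ih (K.deleteEdges s)
          (fun x y hxy => hS x y (deleteEdges_le s hxy)) (by omega)
        have hle : K.deleteEdges s ≤ K := deleteEdges_le s
        refine ⟨k + 1, Fin.cons ⟨v, p⟩ fun i => ⟨(c i).1, (c i).2.mapLe hle⟩, ?_, ?_, ?_⟩
        · intro i
          refine Fin.cases ?_ (fun i => ?_) i
          · exact hp1
          · exact (hc1 i).mapLe hle
        · have hdis : ∀ i, ∀ e ∈ (c i).2.edges, e ∉ p.edges := by
            intro i e he he'
            have h1 := (c i).2.edges_subset_edgeSet he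
            rw [edgeSet_deleteEdges] at h1
            exact h1.2 he'
          intro i j
          refine Fin.cases ?_ (fun i => ?_) i
          · refine Fin.cases ?_ (fun j => ?_) j
            · intro h
              exact absurd rfl h
            · intro _ e he he'
              change e ∈ p.edges at he
              change e ∈ ((c j).2.mapLe hle).edges at he'
              rw [Walk.edges_mapLe_eq_edges] at he'
              exact hdis j e he' he
          · refine Fin.cases ?_ (fun j => ?_) j
            · intro _ e he he'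
              change e ∈ p.edges at he'
              change e ∈ ((c i).2.mapLe hle).edges at he
              rw [Walk.edges_mapLe_eq_edges] at he
              exact hdis i e he he'
            · intro hij e he he'
              change e ∈ ((c i).2.mapLe hle).edges at he
              change e ∈ ((c j).2.mapLe hle).edges at he'
              rw [Walk.edges_mapLe_eq_edges] at he he'
              exact hc2 i j (fun h => hij (by rw [h])) e he he'
        · have : 4 * t * (k + 1) = 4 * t * k + 4 * t := by ring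
          omega
  exact key _ K hS le_rfl

end Pool.Agent.Lib.MP_72b45c_co
end

section

/-!
A non-embeddable minor of a connected graph with `n` vertices and `n + M` edges has many light
edges.
-/

namespace Pool.Agent.Lib.MP_72b45c_co

open SimpleGraph

theorem core_sum {n m : ℕ} (B : Fin m → Set (Fin n))
    (hB2 : ∀ x y, x ≠ y → Disjoint (B x) (B y)) (S : Set (Fin m)) (B₀ : ℕ)
    (hS : ∀ x ∈ S, B₀ ≤ (B x).ncard) : B₀ * S.ncard ≤ n := by
  classical
  have h1 : (S.toFinset.biUnion fun x => (B x).toFinset).card = ∑ x ∈ S.toFinset,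
      ((B x).toFinset).card := by
    apply Finset.card_biUnion
    intro x _ y _ hxy
    exact Set.disjoint_toFinset.2 (hB2 x y hxy)
  have h2 : (S.toFinset.biUnion fun x => (B x).toFinset).card ≤ n := by
    have := Finset.card_le_univ (S.toFinset.biUnion fun x => (B x).toFinset)
    simpa using this
  have h3 : S.toFinset.card * B₀ ≤ ∑ x ∈ S.toFinset, ((B x).toFinset).card := by
    rw [← smul_eq_mul]
    apply Finset.card_nsmul_le_sum
    intro x hx
    rw [← Set.ncard_eq_toFinset_card']
    exact hS x (by simpa using hx)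
  rw [Set.ncard_eq_toFinset_card', mul_comm]
  omega

theorem core_components_le {m : ℕ} (H : SimpleGraph (Fin m)) :
    Nat.card H.ConnectedComponent ≤ m := by
  have := Nat.card_le_card_of_surjective H.connectedComponentMk
    (fun c => c.exists_rep)
  simpa using this

theorem core {n M g t B₀ : ℕ} (G : SimpleGraph (Fin n)) (hG : G.Connected)
    (hE : Nat.card G.edgeSet = n + M) {m : ℕ} (H : SimpleGraph (Fin m)) (hH : ¬ Embeds g H)
    (B : Fin m → Set (Fin n)) (hB1 : ∀ x, (G.induce (B x)).Connected)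
    (hB2 : ∀ x y, x ≠ y → Disjoint (B x) (B y))
    (hB3 : ∀ x y, H.Adj x y → ∃ u ∈ B x, ∃ v ∈ B y, G.Adj u v) (ht : n < B₀ ^ t) :
    2 * g ≤ M ∧ 2 * g + 1 ≤
      Nat.card {e : Sym2 (Fin m) // e ∈ H.edgeSet ∧ ∀ x ∈ e, (B x).ncard < B₀} +
        4 * t * (M - 2 * g) + 2 * n := by
  classical
  set S : Set (Fin m) := {x | B₀ ≤ (B x).ncard} with hS
  let K : SimpleGraph (Fin m) :=
    { Adj := fun x y => H.Adj x y ∧ (x ∈ S ∨ y ∈ S)
      symm := ⟨fun x y h => ⟨h.1.symm, h.2.symm⟩⟩
      loopless := ⟨fun x h => H.irrefl h.1⟩ }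
  have hKle : K ≤ H := fun x y h => h.1
  have hm : m ≤ n := by
    have : IsMinor H G := ⟨B, hB1, hB2, hB3⟩
    simpa using this.card_le
  have hSn : B₀ * S.ncard ≤ n := core_sum B hB2 S B₀ (fun x hx => hx)
  obtain ⟨k, c, hc, hd, hk⟩ := exists_cycle_packing K S (fun x y h => h.2) B₀ t
    (by rw [Nat.card_fin]; omega)
  obtain ⟨R, hR⟩ := exists_rotation H k (fun i => ⟨(c i).1, (c i).2.mapLe hKle⟩)
    (fun i => (hc i).mapLe hKle) (by
      intro i j hij e he
      simp only [Walk.edges_mapLe_eq_edges] at he ⊢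
      exact hd i j hij e he)
  have hne : ¬ (Nat.card H.edgeSet + 2 * Nat.card H.ConnectedComponent ≤
      Nat.card (Fin m) + (R.numFaces + numIsolated H) + 2 * g) := fun h => hH ⟨R, h⟩
  have hec := edge_count G H hG B hB1 hB2 hB3
  rw [Nat.card_fin] at hne
  simp only [Nat.card_fin] at hec
  have hcm := core_components_le H
  have hSc : Sᶜ.ncard ≤ m := by
    have := Set.ncard_le_card Sᶜ
    simpa using this
  -- edges of `H` are split into the edges of `K` and the light edges
  have hsplit : Nat.card H.edgeSet = Nat.card K.edgeSet +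
      Nat.card {e : Sym2 (Fin m) // e ∈ H.edgeSet ∧ ∀ x ∈ e, (B x).ncard < B₀} := by
    have h1 : H.edgeSet = K.edgeSet ∪ {e | e ∈ H.edgeSet ∧ ∀ x ∈ e, (B x).ncard < B₀} := by
      ext e
      induction e with
      | _ x y =>
        simp only [mem_edgeSet, Set.mem_union, Set.mem_setOf_eq, Sym2.mem_iff]
        constructor
        · intro h
          by_cases hx : x ∈ S ∨ y ∈ S
          · exact Or.inl ⟨h, hx⟩
          · right
            refine ⟨h, ?_⟩
            rintro z (rfl | rfl)
            · exact not_le.1 (fun h' => hx (Or.inl h'))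
            · exact not_le.1 (fun h' => hx (Or.inr h'))
        · rintro (h | h)
          · exact h.1
          · exact h.1
    have h2 : Disjoint K.edgeSet {e | e ∈ H.edgeSet ∧ ∀ x ∈ e, (B x).ncard < B₀} := by
      rw [Set.disjoint_left]
      intro e
      induction e with
      | _ x y =>
        rintro ⟨-, h | h⟩ h'
        · exact absurd (h'.2 x (Sym2.mem_mk_left x y)) (not_lt.2 h)
        · exact absurd (h'.2 y (Sym2.mem_mk_right x y)) (not_lt.2 h)
    calc Nat.card H.edgeSet = H.edgeSet.ncard := rfl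
      _ = (K.edgeSet ∪ {e | e ∈ H.edgeSet ∧ ∀ x ∈ e, (B x).ncard < B₀}).ncard := by rw [← h1]
      _ = _ := Set.ncard_union_eq h2
  have h1 : k + 2 * g ≤ M := by omega
  refine ⟨by omega, ?_⟩
  have h2 : 4 * t * k ≤ 4 * t * (M - 2 * g) := Nat.mul_le_mul_left _ (by omega)
  omega

end Pool.Agent.Lib.MP_72b45c_co
end
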