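import Pool.Agent.Lib.MP_72b45c_co.Minor
import Pool.Agent.Lib.MP_72b45c_co.HitCount
import Pool.Agent.Lib.MP_72b45c_co.Core

section

/-!
Basic facts on obstructions: no isolated vertices, deletion of an edge.
-/

namespace Pool.Agent.Lib.MP_72b45c_co

open SimpleGraph

/-- transport of a rotation system along a bijection of darts -/
theorem exists_rotation_of_dart_equiv {V W : Type*} (G : SimpleGraph V) (H : SimpleGraph W)
    (e : G.Dart ≃ H.Dart) (h1 : ∀ d d' : G.Dart, d.fst = d'.fst ↔ (e d).fst = (e d').fst)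
    (h2 : ∀ d, e d.symm = (e d).symm) (R : RotationSystem G) :
    ∃ R' : RotationSystem H, R'.numFaces = R.numFaces := by
  have key : ∀ (f : Equiv.Perm G.Dart) (x y : G.Dart),
      f.SameCycle x y ↔ (e.permCongr f).SameCycle (e x) (e y) := by
    intro f x y
    have h3 : ∀ i : ℤ, ((e.permCongr f) ^ i) (e x) = e ((f ^ i) x) := by
      intro i
      have h4 : (e.permCongr f) ^ i = e.permCongr (f ^ i) :=
        (map_zpow e.permCongrHom f i).symm
      rw [h4, Equiv.permCongr_apply, e.symm_apply_apply]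
    constructor
    · rintro ⟨i, rfl⟩
      exact ⟨i, h3 i⟩
    · rintro ⟨i, hi⟩
      rw [h3] at hi
      exact ⟨i, e.injective hi⟩
  let R' : RotationSystem H :=
    { next := e.permCongr R.next
      fst_next := fun d => by
        obtain ⟨x, rfl⟩ := e.surjective d
        rw [Equiv.permCongr_apply, e.symm_apply_apply, ← h1]
        exact R.fst_next x
      sameCycle := fun d d' h => by
        obtain ⟨x, rfl⟩ := e.surjective d
        obtain ⟨y, rfl⟩ := e.surjective d'
        rw [← key]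
        exact R.sameCycle x y ((h1 x y).2 h) }
  refine ⟨R', ?_⟩
  have hface : R'.face = e.permCongr R.face := by
    ext1 d
    obtain ⟨x, rfl⟩ := e.surjective d
    show e.permCongr R.next (e x).symm = _
    rw [Equiv.permCongr_apply, Equiv.permCongr_apply, ← h2, e.symm_apply_apply,
      e.symm_apply_apply]
    rfl
  unfold RotationSystem.numFaces
  refine (Nat.card_congr (Quotient.congr e fun a b => ?_)).symm
  show R.face.SameCycle a b ↔ R'.face.SameCycle (e a) (e b)
  rw [hface]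
  exact key _ _ _

theorem embeds_bot {V : Type*} [Finite V] (g : ℕ) : Embeds g (⊥ : SimpleGraph V) := by
  have hD : IsEmpty (⊥ : SimpleGraph V).Dart := ⟨fun d => d.adj⟩
  refine ⟨⟨1, fun d => (hD.false d).elim, fun d => (hD.false d).elim⟩, ?_⟩
  have h1 : Nat.card (⊥ : SimpleGraph V).edgeSet = 0 := by simp
  have h2 : numIsolated (⊥ : SimpleGraph V) = Nat.card V := by
    unfold numIsolated
    exact Nat.card_congr (Equiv.subtypeUnivEquiv fun v w => by simp)
  have h3 : Nat.card (⊥ : SimpleGraph V).ConnectedComponent ≤ Nat.card V :=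
    Nat.card_le_card_of_surjective (⊥ : SimpleGraph V).connectedComponentMk
      (fun c => c.exists_rep)
  rw [h1, h2]
  omega

/-- singletons as branch sets -/
theorem ObsBasic_minor {V W : Type*} {H : SimpleGraph W} {G : SimpleGraph V} (φ : W → V)
    (hφ : Function.Injective φ) (h : ∀ x y, H.Adj x y → G.Adj (φ x) (φ y)) : IsMinor H G := by
  refine ⟨fun x => {φ x}, fun x => ?_, fun x y hxy => ?_, fun x y hxy => ?_⟩
  · have : Subsingleton ({φ x} : Set V) := ⟨fun a b => Subtype.ext (a.2.trans b.2.symm)⟩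
    exact { preconnected := fun a b => by rw [Subsingleton.elim a b], nonempty := ⟨⟨φ x, rfl⟩⟩ }
  · simpa using fun h => hxy (hφ h)
  · exact ⟨_, rfl, _, rfl, h x y hxy⟩

theorem IsObstruction.exists_adj {g m : ℕ} {G : SimpleGraph (Fin m)} (h : IsObstruction g G)
    (v : Fin m) : ∃ w, G.Adj v w := by
  by_contra hv
  push Not at hv
  cases m with
  | zero => exact v.elim0
  | succ k =>
    set φ : Fin k → Fin (k + 1) := v.succAbove with hφ
    have hinj : Function.Injective φ := Fin.succAbove_right_injective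
    have hsurj : ∀ x, x ≠ v → ∃ y, φ y = x := fun x hx => Fin.exists_succAbove_eq hx
    have hne : ∀ {x y}, G.Adj x y → x ≠ v ∧ y ≠ v := by
      intro x y hxy
      constructor
      · rintro rfl
        exact hv _ hxy
      · rintro rfl
        exact hv _ hxy.symm
    set H : SimpleGraph (Fin k) := G.comap φ with hH
    let f : H →g G := ⟨φ, fun h => h⟩
    have hminor : IsMinor H G := ObsBasic_minor φ hinj fun x y hxy => hxy
    obtain ⟨R, hR⟩ := h.2 k H hminor (by
      rintro ⟨e⟩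
      have := Fintype.card_congr e.toEquiv
      simp at this)
    let e : H.Dart ≃ G.Dart := Equiv.ofBijective f.mapDart (by
      constructor
      · intro d d' hd
        have h1 := congrArg (fun x : G.Dart => x.fst) hd
        have h2 := congrArg (fun x : G.Dart => x.snd) hd
        exact Dart.ext _ _ (Prod.ext (hinj h1) (hinj h2))
      · intro d
        obtain ⟨a, ha⟩ := hsurj d.fst (hne d.adj).1
        obtain ⟨b, hb⟩ := hsurj d.snd (hne d.adj).2
        refine ⟨⟨(a, b), ?_⟩, ?_⟩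
        · show G.Adj (φ a) (φ b)
          rw [ha, hb]
          exact d.adj
        · exact Dart.ext _ _ (Prod.ext ha hb))
    obtain ⟨R', hR'⟩ := exists_rotation_of_dart_equiv H G e
      (fun d d' => ⟨fun h => congrArg φ h, fun h => hinj h⟩) (fun d => rfl) R
    apply h.1
    refine ⟨R', ?_⟩
    rw [hR']
    have h1 : Nat.card G.edgeSet ≤ Nat.card H.edgeSet := by
      refine Nat.card_le_card_of_surjective f.mapEdgeSet ?_
      rintro ⟨x, hx⟩
      induction x with
      | _ a b =>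
        obtain ⟨a', ha⟩ := hsurj a (hne hx).1
        obtain ⟨b', hb⟩ := hsurj b (hne hx).2
        refine ⟨⟨s(a', b'), ?_⟩, ?_⟩
        · show G.Adj (φ a') (φ b')
          rw [ha, hb]
          exact hx
        · apply Subtype.ext
          show s(φ a', φ b') = _
          rw [ha, hb]
    have h2 : Nat.card G.ConnectedComponent ≤ Nat.card H.ConnectedComponent + 1 := by
      have : Nat.card (Option H.ConnectedComponent) = Nat.card H.ConnectedComponent + 1 := by
        rw [Finite.card_option]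
      rw [← this]
      refine Nat.card_le_card_of_surjective
        (fun o : Option H.ConnectedComponent => o.elim (G.connectedComponentMk v)
          fun c => c.map f) fun c => ?_
      obtain ⟨x, rfl⟩ := c.exists_rep
      by_cases hx : x = v
      · subst hx
        exact ⟨none, rfl⟩
      · obtain ⟨y, rfl⟩ := hsurj x hx
        exact ⟨some (H.connectedComponentMk y), rfl⟩
    have h3 : numIsolated H + 1 ≤ numIsolated G := by
      unfold numIsolated
      rw [← Finite.card_option]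
      refine Nat.card_le_card_of_injective
        (fun o : Option {x : Fin k // ∀ w, ¬ H.Adj x w} => o.elim
          (⟨v, hv⟩ : {x : Fin (k + 1) // ∀ w, ¬ G.Adj x w}) fun x => ⟨φ x.1, fun w hw => by
            obtain ⟨w', rfl⟩ := hsurj w (hne hw).2
            exact x.2 w' hw⟩) ?_
      rintro (_ | x) (_ | y) hxy
      · rfl
      · exact absurd (congrArg Subtype.val hxy).symm (Fin.succAbove_ne v y.1)
      · exact absurd (congrArg Subtype.val hxy) (Fin.succAbove_ne v x.1)
      · have := hinj (congrArg Subtype.val hxy)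
        rw [Subtype.ext this]
    simp only [Nat.card_fin] at hR ⊢
    omega

theorem IsObstruction.card_le {g m : ℕ} {G : SimpleGraph (Fin m)} (h : IsObstruction g G) :
    m ≤ 2 * Nat.card G.edgeSet := by
  classical
  have h1 := G.sum_degrees_eq_twice_card_edges
  have h2 : ∀ v, 1 ≤ G.degree v := by
    intro v
    obtain ⟨w, hw⟩ := h.exists_adj v
    exact Nat.one_le_iff_ne_zero.2 fun h0 => by
      rw [G.degree_eq_zero_iff_notMem_support] at h0
      exact h0 ⟨w, hw⟩
  have h3 : m ≤ ∑ v, G.degree v := by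
    calc m = ∑ _v : Fin m, 1 := by simp
      _ ≤ _ := Finset.sum_le_sum fun v _ => h2 v
  have h4 : Nat.card G.edgeSet = G.edgeFinset.card := by
    rw [Nat.card_eq_fintype_card, SimpleGraph.edgeFinset_card]
  rw [h4, ← h1]
  exact h3

theorem IsObstruction.exists_delete {g m : ℕ} {G : SimpleGraph (Fin m)}
    (h : IsObstruction g G) :
    ∃ u v, G.Adj u v ∧ Embeds g (G.deleteEdges {s(u, v)}) := by
  have h1 : G ≠ ⊥ := by
    rintro rfl
    exact h.1 (embeds_bot g)
  obtain ⟨u, v, huv⟩ := SimpleGraph.ne_bot_iff_exists_adj.1 h1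
  refine ⟨u, v, huv, h.2 m _ (ObsBasic_minor id Function.injective_id fun x y hxy => ?_) ?_⟩
  · exact (SimpleGraph.deleteEdges_adj.1 hxy).1
  · rintro ⟨e⟩
    have h2 := Nat.card_congr e.mapEdgeSet
    have h3 : Nat.card (G.deleteEdges {s(u, v)}).edgeSet < Nat.card G.edgeSet := by
      rw [Nat.card_coe_set_eq, Nat.card_coe_set_eq]
      refine Set.ncard_lt_ncard ?_ (Set.toFinite _)
      rw [SimpleGraph.edgeSet_deleteEdges]
      refine ⟨Set.sdiff_subset, fun h4 => ?_⟩
      exact (h4 huv).2 rfl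
    omega

end Pool.Agent.Lib.MP_72b45c_co
end

section

section

/-!
The number of isomorphism classes of graphs with a given number of edges that are embeddable in
the surface of genus `g`.
-/

namespace Pool.Agent.Lib.MP_72b45c_co

open SimpleGraph Equiv Equiv.Perm

section Transport

variable {X Y : Type*} (e : X ≃ Y)

theorem tr_mul (π ρ : Perm X) : e.permCongr (π * ρ) = e.permCongr π * e.permCongr ρ := by
  ext x; simp [Equiv.permCongr_apply]

theorem tr_zpow (π : Perm X) (n : ℤ) : e.permCongr π ^ n = e.permCongr (π ^ n) := by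
  have h := map_zpow (Equiv.permCongrHom e) π n
  exact h.symm

theorem tr_sameCycle (π : Perm X) (x y : X) :
    (e.permCongr π).SameCycle (e x) (e y) ↔ π.SameCycle x y := by
  unfold Equiv.Perm.SameCycle
  refine exists_congr fun n => ?_
  rw [tr_zpow, Equiv.permCongr_apply, Equiv.symm_apply_apply, e.apply_eq_iff_eq]

theorem tr_cyc (π : Perm X) : cyc (e.permCongr π) = cyc π := by
  unfold cyc
  symm
  apply Nat.card_congr
  refine Quotient.congr e (fun x y => ?_)
  exact (tr_sameCycle e π x y).symm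

theorem tr_moved (π : Perm X) :
    {y | e.permCongr π y ≠ y}.ncard = {x | π x ≠ x}.ncard := by
  rw [← Set.ncard_image_of_injective {x | π x ≠ x} e.injective]
  congr 1
  ext y
  simp only [Set.mem_ofPred_eq, Set.mem_image, Equiv.permCongr_apply]
  constructor
  · intro h
    refine ⟨e.symm y, fun h' => h ?_, e.apply_symm_apply y⟩
    rw [h', e.apply_symm_apply]
  · rintro ⟨x, hx, rfl⟩ h
    apply hx
    rw [Equiv.symm_apply_apply] at h
    exact e.injective h

theorem tr_isNC [Finite X] [Finite Y] [DecidableEq X] [DecidableEq Y] {ρ κ : Perm X}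
    (h : IsNC ρ κ) : IsNC (e.permCongr ρ) (e.permCongr κ) := by
  refine ⟨fun y => ?_, ?_⟩
  · simp only [Equiv.permCongr_apply, Equiv.symm_apply_apply, h.1, Equiv.apply_symm_apply]
  · rw [← tr_mul, tr_cyc, tr_cyc, tr_moved]
    exact h.2

end Transport

/-- the data attached to a graph -/
theorem exists_data (g m N : ℕ) (G : SimpleGraph (Fin m)) (hG : Embeds g G)
    (hN : 2 * Nat.card G.edgeSet = N) :
    ∃ (R : RotationSystem G) (L : G.Dart ≃ Fin N) (κT κZ κD : Perm (Fin N)),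
      (∀ x, κZ (κZ x) = x) ∧ {x | κZ x ≠ x}.ncard ≤ 2 * (2 * g) ∧
      κT * κZ * κD = L.permCongr (rev G) ∧
      IsNC (L.permCongr R.next * κT) κT ∧ IsNC (L.permCongr R.next * κT * κZ) κD ∧
      L.permCongr R.next * κT =
        Quotient.out (ConjClasses.mk (L.permCongr R.next * κT)) := by
  classical
  obtain ⟨R, hR⟩ := hG
  have hcardD : Nat.card G.Dart = N := by
    rw [← hN, Nat.card_eq_fintype_card, Nat.card_eq_fintype_card, G.dart_card_eq_twice_card_edges]
    congr 1
    exact (Fintype.card_of_finset' _ (by simp)).symm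
  obtain ⟨κT, κZ, κD, hκT, h1, h2, h3, h4, h5, h6⟩ := exists_decomp R.next (rev G)
    (fun d => d.symm_symm) (fun d => d.symm_ne)
  obtain ⟨L₀⟩ : Nonempty (G.Dart ≃ Fin N) := by
    rw [← Finite.card_eq]; simpa using hcardD
  set ρ₀ := L₀.permCongr (R.next * κT) with hρ₀
  have hconj : IsConj ρ₀ (Quotient.out (ConjClasses.mk ρ₀)) := by
    apply ConjClasses.mk_eq_mk_iff_isConj.1
    exact (Quotient.out_eq (ConjClasses.mk ρ₀)).symm
  obtain ⟨c, hc⟩ := isConj_iff.1 hconj
  let L : G.Dart ≃ Fin N := L₀.trans c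
  have hL : ∀ π : Perm G.Dart, L.permCongr π = c * L₀.permCongr π * c⁻¹ := by
    intro π
    ext x
    simp [L, Equiv.permCongr_apply]
  have hLρ : L.permCongr (R.next * κT) = Quotient.out (ConjClasses.mk ρ₀) := by
    rw [hL, ← hρ₀, hc]
  refine ⟨R, L, L.permCongr κT, L.permCongr κZ, L.permCongr κD, ?_, ?_, ?_, ?_, ?_, ?_⟩
  · intro x
    simp only [Equiv.permCongr_apply, Equiv.symm_apply_apply, h1, Equiv.apply_symm_apply]
  · rw [tr_moved]
    -- the Euler characteristic
    have e1 := cyc_next G R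
    have e2 := cyc_components G R κT hκT h5
    have e3 : R.numFaces = cyc (R.next * rev G) := rfl
    rw [Nat.card_fin] at e1 hR
    rw [e3] at hR
    rw [hcardD] at h6
    omega
  · rw [← tr_mul, ← tr_mul, h2]
  · rw [← tr_mul]; exact tr_isNC L h3
  · rw [← tr_mul, ← tr_mul]; exact tr_isNC L h4
  · rw [← tr_mul, hLρ]
    congr 1
    exact (Quotient.out_eq (ConjClasses.mk ρ₀)).symm

theorem card_embeddable_classes (g m N : ℕ) (S : Finset (Quotient isoSetoid))
    (hS : ∀ c ∈ S, ∃ G : SimpleGraph (Fin m), Quotient.mk isoSetoid ⟨m, G⟩ = c ∧ Embeds g G ∧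
      2 * Nat.card G.edgeSet = N) :
    S.card ≤ 54 ^ N * (2 * g + 1) ^ (2 * g) := by
  classical
  have hS' : ∀ c : S, ∃ (G : SimpleGraph (Fin m)) (R : RotationSystem G) (L : G.Dart ≃ Fin N)
      (κT κZ κD : Perm (Fin N)), Quotient.mk isoSetoid ⟨m, G⟩ = c.1 ∧
      (∀ x, κZ (κZ x) = x) ∧ {x | κZ x ≠ x}.ncard ≤ 2 * (2 * g) ∧
      κT * κZ * κD = L.permCongr (rev G) ∧
      IsNC (L.permCongr R.next * κT) κT ∧ IsNC (L.permCongr R.next * κT * κZ) κD ∧
      L.permCongr R.next * κT =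
        Quotient.out (ConjClasses.mk (L.permCongr R.next * κT)) := by
    intro c
    obtain ⟨G, h1, h2, h3⟩ := hS c.1 c.2
    obtain ⟨R, L, κT, κZ, κD, h⟩ := exists_data g m N G h2 h3
    exact ⟨G, R, L, κT, κZ, κD, h1, h⟩
  choose G R L κT κZ κD hG hZ hZc hτ hT hD hout using hS'
  let code : S → ConjClasses (Perm (Fin N)) × (Fin N → Fin 3) ×
      {κ : Perm (Fin N) // (∀ x, κ (κ x) = x) ∧ {x | κ x ≠ x}.ncard ≤ 2 * (2 * g)} ×
      (Fin N → Fin 3) := fun c =>
    (ConjClasses.mk ((L c).permCongr (R c).next * κT c),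
      word ((L c).permCongr (R c).next * κT c) (κT c), ⟨κZ c, hZ c, hZc c⟩,
      word ((L c).permCongr (R c).next * κT c * κZ c) (κD c))
  have hinj : Function.Injective code := by
    intro c c' hcc
    simp only [code, Prod.mk.injEq, Subtype.mk.injEq] at hcc
    obtain ⟨e1, e2, e3, e4⟩ := hcc
    have eρ : (L c).permCongr (R c).next * κT c = (L c').permCongr (R c').next * κT c' := by
      rw [hout c, hout c', e1]
    have eT : κT c = κT c' := by
      refine nc_unique _ _ _ (hT c) (eρ ▸ hT c') ?_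
      rw [e2, eρ]
    have eσ : (L c).permCongr (R c).next = (L c').permCongr (R c').next := by
      rw [eT] at eρ
      exact mul_right_cancel eρ
    have eD : κD c = κD c' := by
      refine nc_unique _ _ _ (hD c) (by rw [eρ, e3]; exact hD c') ?_
      rw [e4, eρ, e3]
    have eτ : (L c).permCongr (rev (G c)) = (L c').permCongr (rev (G c')) := by
      rw [← hτ c, ← hτ c', eT, e3, eD]
    have hiso : Nonempty (G c ≃g G c') := by
      refine iso_of_dart_equiv (G c) (G c') (R c) (R c') ((L c).trans (L c').symm) ?_ ?_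
      · intro d
        have := congrArg (fun π : Perm (Fin N) => π (L c d)) eσ
        simp only [Equiv.permCongr_apply, Equiv.symm_apply_apply] at this
        simp only [Equiv.trans_apply]
        rw [this, Equiv.symm_apply_apply]
      · intro d
        have := congrArg (fun π : Perm (Fin N) => π (L c d)) eτ
        simp only [Equiv.permCongr_apply, Equiv.symm_apply_apply] at this
        simp only [Equiv.trans_apply]
        have h2 : rev (G c) d = d.symm := rfl
        rw [h2] at this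
        rw [this, Equiv.symm_apply_apply]
        rfl
    apply Subtype.ext
    rw [← hG c, ← hG c']
    exact Quotient.sound hiso
  have hcard : Nat.card S ≤ Nat.card (ConjClasses (Perm (Fin N)) × (Fin N → Fin 3) ×
      {κ : Perm (Fin N) // (∀ x, κ (κ x) = x) ∧ {x | κ x ≠ x}.ncard ≤ 2 * (2 * g)} ×
      (Fin N → Fin 3)) := Nat.card_le_card_of_injective code hinj
  rw [Nat.card_prod, Nat.card_prod, Nat.card_prod] at hcard
  have hw : Nat.card (Fin N → Fin 3) = 3 ^ N := by
    rw [Nat.card_eq_fintype_card]; simp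
  rw [hw] at hcard
  have h1 := card_conjClasses_le N
  have h2 := card_involutions_le N (2 * g)
  have h3 : Nat.card S = S.card := by
    rw [Nat.card_eq_fintype_card, Fintype.card_coe]
  rw [h3] at hcard
  calc S.card ≤ _ := hcard
    _ ≤ 2 ^ N * (3 ^ N * ((3 ^ N * (2 * g + 1) ^ (2 * g)) * 3 ^ N)) := by
        gcongr
    _ = 54 ^ N * (2 * g + 1) ^ (2 * g) := by
        rw [show (54 : ℕ) = 2 * (3 * (3 * 3)) by norm_num, mul_pow, mul_pow, mul_pow]
        ring

end Pool.Agent.Lib.MP_72b45c_co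
end

section

/-!
The union bound.
-/

namespace Pool.Agent.Lib.MP_72b45c_co

open SimpleGraph

theorem good_not_embeds {n γ Δ M g : ℕ} (hγ : 3 ≤ γ) (hn : γ ≤ n) (hΔ : 2 ≤ Δ)
    (h3 : ∀ F, γ * F ≤ 2 * (n + M) → F + 2 * g < M + 2)
    (l : List (Fin n × Fin n)) (hl : l.length = M) (h : Good n γ Δ l) :
    ¬ Embeds g (addEdges n l) := by
  obtain ⟨hconn, hcard, hgirth, hdeg, -⟩ := good_props hγ hn hΔ l h
  rintro ⟨R, hR⟩
  have hF := girth_mul_numFaces_le _ γ hgirth hdeg R
  rw [hcard, hl] at hF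
  have h4 := h3 _ hF
  have hc : Nat.card (addEdges n l).ConnectedComponent ≤ 1 := by
    rw [Finite.card_le_one_iff_subsingleton]
    exact hconn.preconnected.subsingleton_connectedComponent
  have hc' : 1 ≤ Nat.card (addEdges n l).ConnectedComponent := by
    have := hconn.nonempty
    have : Nonempty (addEdges n l).ConnectedComponent := ⟨(addEdges n l).connectedComponentMk this.some⟩
    exact Nat.one_le_iff_ne_zero.2 (Finite.card_pos.ne')
  have hI : numIsolated (addEdges n l) = 0 := by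
    unfold numIsolated
    have : Nontrivial (Fin n) := Fin.nontrivial_iff_two_le.2 (by omega)
    rw [Nat.card_eq_zero]
    left
    refine ⟨fun ⟨v, hv⟩ => ?_⟩
    obtain ⟨w, hw⟩ := hconn.preconnected.exists_adj_of_nontrivial v
    exact hv w hw
  rw [hcard, hI, Nat.card_fin] at hR
  omega

theorem addEdges_adj {n : ℕ} (l : List (Fin n × Fin n)) {u v : Fin n}
    (h : (addEdges n l).Adj u v) : (cycleGraph n).Adj u v ∨ (u, v) ∈ l ∨ (v, u) ∈ l := by
  induction l with
  | nil => exact Or.inl h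
  | cons e l ih =>
    simp only [addEdges, sup_adj, edge_adj] at h
    rcases h with h | ⟨h, -⟩
    · rcases ih h with h | h | h
      · exact Or.inl h
      · exact Or.inr (Or.inl (List.mem_cons_of_mem _ h))
      · exact Or.inr (Or.inr (List.mem_cons_of_mem _ h))
    · rcases h with ⟨rfl, rfl⟩ | ⟨rfl, rfl⟩
      · right; left; simp
      · right; right; simp

theorem fiber_count {n γ Δ M g t B₀ q : ℕ} (hγ : 3 ≤ γ) (hn : γ ≤ n) (hΔ : 2 ≤ Δ)
    (ht : n < B₀ ^ t) (hq : q + 4 * t * (M - 2 * g) + 3 * n ≤ 2 * g + 1)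
    {m : ℕ} (H : SimpleGraph (Fin m)) (hH : ¬ Embeds g H) (B : Fin m → Set (Fin n)) :
    {l : List (Fin n × Fin n) | l.length = M ∧ Good n γ Δ l ∧
      (∀ x, ((addEdges n l).induce (B x)).Connected) ∧ (∀ x y, x ≠ y → Disjoint (B x) (B y)) ∧
      ∀ x y, H.Adj x y → ∃ u ∈ B x, ∃ v ∈ B y, (addEdges n l).Adj u v}.ncard *
        (n ^ 2) ^ q ≤ (2 * M * B₀ ^ 2) ^ q * (n ^ 2) ^ M := by
  classical
  set 𝓛 : Set (List (Fin n × Fin n)) := {l : List (Fin n × Fin n) | l.length = M ∧
      Good n γ Δ l ∧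
      (∀ x, ((addEdges n l).induce (B x)).Connected) ∧ (∀ x y, x ≠ y → Disjoint (B x) (B y)) ∧
      ∀ x y, H.Adj x y → ∃ u ∈ B x, ∃ v ∈ B y, (addEdges n l).Adj u v} with h𝓛
  rcases 𝓛.eq_empty_or_nonempty with he | ⟨l₀, hl₀, hgood₀, hB1, hB2, hB3⟩
  · rw [he]; simp
  obtain ⟨hconn, hcard, -, -, -⟩ := good_props hγ hn hΔ l₀ hgood₀
  obtain ⟨hgM, hlight⟩ := core (addEdges n l₀) hconn (by rw [hcard, hl₀]) H hH B hB1 hB2 hB3 ht
  set Lt : Set (Sym2 (Fin m)) := {e | e ∈ H.edgeSet ∧ ∀ x ∈ e, (B x).ncard < B₀} with hLt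
  set Bs : Set (Sym2 (Fin m)) := {e | ∃ u v, (cycleGraph n).Adj u v ∧
    ∃ x y, e = s(x, y) ∧ u ∈ B x ∧ v ∈ B y} with hBs
  have huniq : ∀ {u x y}, u ∈ B x → u ∈ B y → x = y := by
    intro u x y hx hy
    by_contra hxy
    exact Set.disjoint_left.1 (hB2 x y hxy) hx hy
  have hBsn : Bs.ncard ≤ n := by
    have hcyc : (cycleGraph n).edgeSet.ncard = n := by
      exact (good_props hγ hn hΔ [] (trivial)).2.1
    rw [← hcyc]
    have : Nonempty (Fin n) := ⟨⟨0, by omega⟩⟩
    choose! φ ψ hφ using (fun e (he : e ∈ Bs) => he)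
    refine Set.ncard_le_ncard_of_injOn (fun e => s(φ e, ψ e)) ?_ ?_ (Set.toFinite _)
    · intro e he
      exact (hφ e he).1
    · intro e he e' he' hee
      obtain ⟨-, x, y, hexy, hx, hy⟩ := hφ e he
      obtain ⟨-, x', y', hexy', hx', hy'⟩ := hφ e' he'
      simp only [Sym2.eq_iff] at hee
      rcases hee with ⟨h1, h2⟩ | ⟨h1, h2⟩
      · rw [h1] at hx
        rw [h2] at hy
        rw [hexy, hexy', huniq hx hx', huniq hy hy']
      · rw [h1] at hx
        rw [h2] at hy
        rw [hexy, hexy', huniq hx hy', huniq hy hx', Sym2.eq_swap]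
  have hqcard : q ≤ (Lt \ Bs).ncard := by
    have h1 : Lt.ncard ≤ (Lt \ Bs).ncard + Bs.ncard := Set.ncard_le_ncard_sdiff_add_ncard _ _
      (Set.toFinite _)
    have h2 : Nat.card {e : Sym2 (Fin m) // e ∈ H.edgeSet ∧ ∀ x ∈ e, (B x).ncard < B₀} =
      Lt.ncard := rfl
    rw [h2] at hlight
    omega
  obtain ⟨E, hE1, hE2⟩ : ∃ E : Fin q → Sym2 (Fin m), (∀ i, E i ∈ Lt \ Bs) ∧
      Function.Injective E := by
    have h1 : q ≤ ((Lt \ Bs).toFinset).card := by rwa [← Set.ncard_eq_toFinset_card']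
    obtain ⟨T, hT, hTc⟩ := Finset.exists_subset_card_eq h1
    refine ⟨fun i => ((T.equivFin.trans (finCongr hTc)).symm i : Sym2 (Fin m)), fun i => ?_, ?_⟩
    · have := hT ((T.equivFin.trans (finCongr hTc)).symm i).2
      simpa using this
    · intro i j hij
      exact (T.equivFin.trans (finCongr hTc)).symm.injective (Subtype.ext hij)
  let A : Fin q → Finset (Fin n × Fin n) := fun i =>
    Finset.univ.filter (fun p => ∃ x y, E i = s(x, y) ∧ p.1 ∈ B x ∧ p.2 ∈ B y)
  have hAd : ∀ i j, i ≠ j → Disjoint (A i) (A j) := by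
    intro i j hij
    rw [Finset.disjoint_left]
    intro p hp hp'
    simp only [A, Finset.mem_filter, Finset.mem_univ, true_and] at hp hp'
    obtain ⟨x, y, h1, h2, h3⟩ := hp
    obtain ⟨x', y', h1', h2', h3'⟩ := hp'
    apply hij
    apply hE2
    rw [h1, h1', huniq h2 h2', huniq h3 h3']
  have hAc : ∀ i, (A i).card ≤ 2 * B₀ ^ 2 := by
    intro i
    obtain ⟨⟨-, hlt⟩, -⟩ := hE1 i
    obtain ⟨x, y, hxy⟩ : ∃ x y, E i = s(x, y) := by
      induction E i with
      | _ x y => exact ⟨x, y, rfl⟩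
    rw [hxy] at hlt
    have hx := hlt x (Sym2.mem_mk_left x y)
    have hy := hlt y (Sym2.mem_mk_right x y)
    rw [Set.ncard_eq_toFinset_card'] at hx hy
    have hsub : A i ⊆ ((B x).toFinset ×ˢ (B y).toFinset) ∪
        ((B y).toFinset ×ˢ (B x).toFinset) := by
      intro p hp
      simp only [A, Finset.mem_filter, Finset.mem_univ, true_and] at hp
      obtain ⟨x', y', h1, h2, h3⟩ := hp
      rw [hxy, Sym2.eq_iff] at h1
      simp only [Finset.mem_union, Finset.mem_product, Set.mem_toFinset]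
      rcases h1 with ⟨rfl, rfl⟩ | ⟨rfl, rfl⟩
      · exact Or.inl ⟨h2, h3⟩
      · exact Or.inr ⟨h2, h3⟩
    refine (Finset.card_le_card hsub).trans ((Finset.card_union_le _ _).trans ?_)
    rw [Finset.card_product, Finset.card_product]
    nlinarith [Nat.mul_le_mul hx.le hy.le]
  have hhit : 𝓛 ⊆ {l : List (Fin n × Fin n) | l.length = M ∧ ∀ i, ∃ x ∈ l, x ∈ A i} := by
    rintro l ⟨hl, -, -, -, hadj⟩
    refine ⟨hl, fun i => ?_⟩
    obtain ⟨⟨hEH, -⟩, hnb⟩ := hE1 i
    obtain ⟨x, y, hxy⟩ : ∃ x y, E i = s(x, y) := by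
      induction E i with
      | _ x y => exact ⟨x, y, rfl⟩
    rw [hxy] at hEH
    obtain ⟨u, hu, v, hv, huv⟩ := hadj x y hEH
    rcases addEdges_adj l huv with h | h | h
    · exact absurd ⟨u, v, h, x, y, hxy, hu, hv⟩ hnb
    · refine ⟨(u, v), h, ?_⟩
      simp only [A, Finset.mem_filter, Finset.mem_univ, true_and]
      exact ⟨x, y, hxy, hu, hv⟩
    · refine ⟨(v, u), h, ?_⟩
      simp only [A, Finset.mem_filter, Finset.mem_univ, true_and]
      exact ⟨y, x, by rw [hxy, Sym2.eq_swap], hv, hu⟩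
  have hfin : {l : List (Fin n × Fin n) | l.length = M ∧ ∀ i, ∃ x ∈ l, x ∈ A i}.Finite :=
    (List.finite_length_eq (Fin n × Fin n) M).subset (fun l hl => hl.1)
  have hcount := hit_count q A hAd (2 * B₀ ^ 2) hAc M
  have hX : Fintype.card (Fin n × Fin n) = n ^ 2 := by simp [sq]
  rw [hX] at hcount
  calc 𝓛.ncard * (n ^ 2) ^ q ≤ _ * (n ^ 2) ^ q :=
        Nat.mul_le_mul_right _ (Set.ncard_le_ncard hhit hfin)
    _ ≤ (M * (2 * B₀ ^ 2)) ^ q * (n ^ 2) ^ M := hcount
    _ = (2 * M * B₀ ^ 2) ^ q * (n ^ 2) ^ M := by ring_nf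

theorem main_count {n γ Δ M g t B₀ q : ℕ} (hγ : 3 ≤ γ) (hn : γ ≤ n) (hΔ : 2 ≤ Δ)
    (h1 : 16 * (n + M) ≤ n * Δ) (h2 : 4 * (Δ + 1) ^ γ ≤ n)
    (h3 : ∀ F, γ * F ≤ 2 * (n + M) → F + 2 * g < M + 2)
    (ht : n < B₀ ^ t) (hq : q + 4 * t * (M - 2 * g) + 3 * n ≤ 2 * g + 1) :
    ∃ S : Finset (Quotient isoSetoid), ↑S ⊆ ObsUpTo g (n + M) ∧
      n ^ (2 * q) ≤ 2 ^ M * (n + 1) ^ n * (2 * M * B₀ ^ 2) ^ q * S.card := by
  classical
  let T := Σ m : Fin (n + 1), SimpleGraph (Fin m)
  have hTfin : Fintype T := Fintype.ofFinite T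
  let P : T → Prop := fun A => IsObstruction g A.2 ∧ Nat.card A.2.edgeSet ≤ n + M
  let cls : T → Quotient isoSetoid := fun A => Quotient.mk isoSetoid ⟨A.1, A.2⟩
  let S : Finset (Quotient isoSetoid) := (Finset.univ.filter P).image cls
  refine ⟨S, ?_, ?_⟩
  · intro c hc
    simp only [S, Finset.coe_image, Finset.coe_filter, Finset.mem_univ, true_and] at hc
    obtain ⟨A, hA, rfl⟩ := hc
    exact ⟨⟨A.1, A.2⟩, rfl, hA.1, hA.2⟩
  have hrep : ∀ c : S, ∃ A : T, P A ∧ cls A = c.1 := by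
    intro c
    obtain ⟨A, hA, hc⟩ := Finset.mem_image.1 c.2
    exact ⟨A, (Finset.mem_filter.1 hA).2, hc⟩
  choose rep hrepP hrepc using hrep
  -- the finite set of all lists of length `M`
  have hfinM : {l : List (Fin n × Fin n) | l.length = M}.Finite :=
    List.finite_length_eq (Fin n × Fin n) M
  let 𝓐 : Finset (List (Fin n × Fin n)) := hfinM.toFinset
  have hA : ∀ l, l ∈ 𝓐 ↔ l.length = M := fun l => by simp [𝓐]
  let Q : (A : T) → (Fin n → Option (Fin A.1)) → List (Fin n × Fin n) → Prop :=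
    fun A f l => Good n γ Δ l ∧
      (∀ x, ((addEdges n l).induce {u | f u = some x}).Connected) ∧
      (∀ x y, x ≠ y → Disjoint {u | f u = some x} {u | f u = some y}) ∧
      ∀ x y, A.2.Adj x y → ∃ u ∈ {u | f u = some x}, ∃ v ∈ {u | f u = some y},
        (addEdges n l).Adj u v
  let 𝒢 : Finset (List (Fin n × Fin n)) := 𝓐.filter (Good n γ Δ)
  have hcover : 𝒢 ⊆ (Finset.univ : Finset S).biUnion fun c =>
      (Finset.univ : Finset (Fin n → Option (Fin (rep c).1))).biUnion fun f =>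
        𝓐.filter (Q (rep c) f) := by
    intro l hl
    obtain ⟨hlA, hgood⟩ := Finset.mem_filter.1 hl
    have hlM := (hA l).1 hlA
    obtain ⟨hconn, hcard, -, -, -⟩ := good_props hγ hn hΔ l hgood
    obtain ⟨m, H, hm, hHe, hHo, hHm⟩ := exists_obstruction g (addEdges n l)
      (good_not_embeds hγ hn hΔ h3 l hlM hgood)
    rw [hcard, hlM] at hHe
    let A₀ : T := ⟨⟨m, by omega⟩, H⟩
    have hcS : cls A₀ ∈ S := Finset.mem_image.2 ⟨A₀, Finset.mem_filter.2
      ⟨Finset.mem_univ _, hHo, hHe⟩, rfl⟩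
    have hiso : Nonempty (H ≃g (rep ⟨cls A₀, hcS⟩).2) := by
      have := hrepc ⟨cls A₀, hcS⟩
      have h' : Quotient.mk isoSetoid (⟨A₀.1, A₀.2⟩ : Σ n : ℕ, SimpleGraph (Fin n)) =
        Quotient.mk isoSetoid ⟨(rep ⟨cls A₀, hcS⟩).1, (rep ⟨cls A₀, hcS⟩).2⟩ := this.symm
      exact Quotient.exact h'
    obtain ⟨e⟩ := hiso
    obtain ⟨B, hB1, hB2, hB3⟩ := hHm.of_iso e
    simp only [Finset.mem_biUnion, Finset.mem_univ, true_and, Finset.mem_filter]
    refine ⟨⟨cls A₀, hcS⟩, fun u => if h : ∃ x, u ∈ B x then some h.choose else none, hlA,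
      hgood, ?_⟩
    have hBe : ∀ x, {u | (if h : ∃ x, u ∈ B x then some h.choose else none) = some x} = B x := by
      intro x
      ext u
      simp only [Set.mem_ofPred_eq]
      constructor
      · intro h
        split_ifs at h with h'
        · rw [← Option.some.inj h]
          exact h'.choose_spec
      · intro h
        have h' : ∃ x, u ∈ B x := ⟨x, h⟩
        rw [dif_pos h']
        congr 1
        by_contra hne
        exact Set.disjoint_left.1 (hB2 _ _ hne) h'.choose_spec h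
    refine ⟨fun x => ?_, fun x y hxy => ?_, fun x y hxy => ?_⟩
    · rw [hBe]; exact hB1 x
    · rw [hBe, hBe]; exact hB2 x y hxy
    · rw [hBe, hBe]; exact hB3 x y hxy
  have hgc := good_count hγ hn hΔ h1 h2
  have hgc' : {l : List (Fin n × Fin n) | l.length = M ∧ Good n γ Δ l}.ncard = 𝒢.card := by
    rw [← Set.ncard_coe_finset]
    congr 1
    ext l
    simp [𝒢, hA]
  rw [hgc'] at hgc
  have hfib : ∀ (c : S) (f : Fin n → Option (Fin (rep c).1)),
      (𝓐.filter (Q (rep c) f)).card * (n ^ 2) ^ q ≤ (2 * M * B₀ ^ 2) ^ q * (n ^ 2) ^ M := by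
    intro c f
    have := fiber_count (n := n) (γ := γ) (Δ := Δ) (M := M) (g := g) (t := t) (B₀ := B₀)
      (q := q) hγ hn hΔ ht hq (rep c).2 (hrepP c).1.1 (fun x => {u | f u = some x})
    convert this using 2
    rw [← Set.ncard_coe_finset]
    congr 1
    ext l
    simp only [Finset.coe_filter, hA, Set.mem_ofPred_eq, Q]
  have hnum : ∀ c : S, (Finset.univ : Finset (Fin n → Option (Fin (rep c).1))).card ≤
      (n + 1) ^ n := by
    intro c
    rw [Finset.card_univ, Fintype.card_fun, Fintype.card_option, Fintype.card_fin,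
      Fintype.card_fin]
    exact Nat.pow_le_pow_left (by have := (rep c).1.2; omega) n
  have htot : 𝒢.card * (n ^ 2) ^ q ≤ S.card * ((n + 1) ^ n *
      ((2 * M * B₀ ^ 2) ^ q * (n ^ 2) ^ M)) := by
    calc 𝒢.card * (n ^ 2) ^ q ≤ (∑ c : S, ∑ f : Fin n → Option (Fin (rep c).1),
          (𝓐.filter (Q (rep c) f)).card) * (n ^ 2) ^ q := by
          apply Nat.mul_le_mul_right
          refine (Finset.card_le_card hcover).trans (Finset.card_biUnion_le.trans ?_)
          exact Finset.sum_le_sum fun c _ => Finset.card_biUnion_le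
      _ = ∑ c : S, ∑ f : Fin n → Option (Fin (rep c).1),
          (𝓐.filter (Q (rep c) f)).card * (n ^ 2) ^ q := by
          rw [Finset.sum_mul]
          exact Finset.sum_congr rfl fun c _ => Finset.sum_mul _ _ _
      _ ≤ ∑ c : S, ∑ f : Fin n → Option (Fin (rep c).1),
          (2 * M * B₀ ^ 2) ^ q * (n ^ 2) ^ M :=
          Finset.sum_le_sum fun c _ => Finset.sum_le_sum fun f _ => hfib c f
      _ ≤ ∑ c : S, (n + 1) ^ n * ((2 * M * B₀ ^ 2) ^ q * (n ^ 2) ^ M) := by
          refine Finset.sum_le_sum fun c _ => ?_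
          rw [Finset.sum_const, smul_eq_mul]
          exact Nat.mul_le_mul_right _ (hnum c)
      _ = S.card * ((n + 1) ^ n * ((2 * M * B₀ ^ 2) ^ q * (n ^ 2) ^ M)) := by
          rw [Finset.sum_const, smul_eq_mul, Finset.card_univ, Fintype.card_coe]
  have hnpos : 0 < n ^ (2 * M) := Nat.pow_pos (by omega)
  have hfinal : n ^ (2 * q) * n ^ (2 * M) ≤
      (2 ^ M * (n + 1) ^ n * (2 * M * B₀ ^ 2) ^ q * S.card) * n ^ (2 * M) := by
    calc n ^ (2 * q) * n ^ (2 * M) ≤ n ^ (2 * q) * (2 ^ M * 𝒢.card) :=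
          Nat.mul_le_mul_left _ hgc
      _ = 2 ^ M * (𝒢.card * (n ^ 2) ^ q) := by rw [← pow_mul]; ring
      _ ≤ 2 ^ M * (S.card * ((n + 1) ^ n * ((2 * M * B₀ ^ 2) ^ q * (n ^ 2) ^ M))) :=
          Nat.mul_le_mul_left _ htot
      _ = _ := by rw [← pow_mul n 2 M]; ring
  exact Nat.le_of_mul_le_mul_right hfinal hnpos

end Pool.Agent.Lib.MP_72b45c_co
end

section

/-!
The upper bound for the number of obstructions with a given number of edges.
-/

namespace Pool.Agent.Lib.MP_72b45c_co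

open SimpleGraph

theorem iso_of_delete {m m' : ℕ} (G : SimpleGraph (Fin m)) (G' : SimpleGraph (Fin m'))
    {u v : Fin m} {u' v' : Fin m'} (huv : G.Adj u v) (huv' : G'.Adj u' v')
    (h : G.deleteEdges {s(u, v)} ≃g G'.deleteEdges {s(u', v')}) (hu : h u = u') (hv : h v = v') :
    Nonempty (G ≃g G') := by
  refine ⟨⟨h.toEquiv, ?_⟩⟩
  intro x y
  have h1 : (G'.deleteEdges {s(u', v')}).Adj (h x) (h y) ↔ (G.deleteEdges {s(u, v)}).Adj x y :=
    h.map_adj_iff
  simp only [deleteEdges_adj, Set.mem_singleton_iff] at h1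
  have h2 : s(h x, h y) = s(u', v') ↔ s(x, y) = s(u, v) := by
    have : s(h x, h y) = Sym2.map h s(x, y) := rfl
    have h3 : s(u', v') = Sym2.map h s(u, v) := by
      change _ = s(h u, h v)
      rw [hu, hv]
    exact ⟨fun h' => Sym2.map.injective h.injective (this.symm.trans (h'.trans h3)),
      fun h' => this.trans ((congrArg (Sym2.map h) h').trans h3.symm)⟩
  by_cases hxy : s(x, y) = s(u, v)
  · have a1 : G.Adj x y := by
      rw [← mem_edgeSet, hxy]; exact huv
    have a2 : G'.Adj (h x) (h y) := by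
      rw [← mem_edgeSet, h2.2 hxy]; exact huv'
    exact ⟨fun _ => a1, fun _ => a2⟩
  · have hxy' : ¬ s(h x, h y) = s(u', v') := fun h' => hxy (h2.1 h')
    simp only [hxy, hxy', not_false_eq_true, and_true] at h1
    exact h1

theorem card_obs_le (g e : ℕ) (S : Finset (Quotient isoSetoid)) (hS : ↑S ⊆ ObsUpTo g e) :
    S.card ≤ (2 * e + 1) ^ 4 * (54 ^ (2 * e) * (2 * g + 1) ^ (2 * g)) := by
  classical
  have hdata : ∀ c : S, ∃ (m : ℕ) (G : SimpleGraph (Fin m)) (u v : Fin m),
      Quotient.mk isoSetoid ⟨m, G⟩ = c.1 ∧ G.Adj u v ∧ Embeds g (G.deleteEdges {s(u, v)}) ∧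
      m ≤ 2 * e ∧ 2 * Nat.card (G.deleteEdges {s(u, v)}).edgeSet ≤ 2 * e := by
    intro c
    obtain ⟨⟨m, G⟩, h1, h2, h3⟩ := hS c.2
    obtain ⟨u, v, h4, h5⟩ := h2.exists_delete
    refine ⟨m, G, u, v, h1, h4, h5, ?_, ?_⟩
    · have h6 := h2.card_le
      simp only at h3 h6
      omega
    · have : Nat.card (G.deleteEdges {s(u, v)}).edgeSet ≤ Nat.card G.edgeSet := by
        apply Nat.card_mono (Set.toFinite _)
        exact edgeSet_mono (deleteEdges_le _)
      simp only at h3
      omega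
  choose m G u v hc hadj hemb hm hN using hdata
  let G' : (c : S) → SimpleGraph (Fin (m c)) := fun c => (G c).deleteEdges {s(u c, v c)}
  let cl : S → Quotient isoSetoid := fun c => Quotient.mk isoSetoid ⟨m c, G' c⟩
  let F : S → ℕ × ℕ × Quotient isoSetoid := fun c => (m c, 2 * Nat.card (G' c).edgeSet, cl c)
  set B := 54 ^ (2 * e) * (2 * g + 1) ^ (2 * g) with hB
  -- the fibres of `F`
  have hfib : ∀ a ∈ (Finset.univ : Finset S).image F,
      ((Finset.univ : Finset S).filter fun c => F c = a).card ≤ (2 * e + 1) ^ 2 := by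
    intro a _
    -- isomorphisms with a fixed representative
    have hiso : ∀ c : S, F c = a → Nonempty (G' c ≃g (Quotient.out a.2.2).2) := by
      intro c hca
      have h1 : Quotient.mk isoSetoid ⟨m c, G' c⟩ = Quotient.mk isoSetoid (Quotient.out a.2.2) := by
        rw [Quotient.out_eq, ← hca]
      exact Quotient.exact h1
    have hsize : ∀ c : S, F c = a → (Quotient.out a.2.2).1 = m c := by
      intro c hca
      obtain ⟨f⟩ := hiso c hca
      have := Fintype.card_congr f.toEquiv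
      simpa using this.symm
    let P : S → ℕ × ℕ := fun c => if h : F c = a then
      (((hiso c h).some (u c) : ℕ), ((hiso c h).some (v c) : ℕ)) else (0, 0)
    have hcard : ((Finset.univ : Finset S).filter fun c => F c = a).card ≤
        (Finset.range (2 * e + 1) ×ˢ Finset.range (2 * e + 1)).card := by
      apply Finset.card_le_card_of_injOn P
      · intro c hc'
        have hca : F c = a := by simpa using hc'
        simp only [P, dif_pos hca, Finset.coe_product, Set.mem_prod, Finset.coe_range,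
          Set.mem_Iio]
        have h1 := ((hiso c hca).some (u c)).2
        have h2 := ((hiso c hca).some (v c)).2
        have h3 := hsize c hca
        have h4 := hm c
        constructor <;> omega
      · intro c hc1 c' hc2 hP
        have hca : F c = a := by simpa using hc1
        have hca' : F c' = a := by simpa using hc2
        simp only [P, dif_pos hca, dif_pos hca', Prod.mk.injEq] at hP
        obtain ⟨e1, e2⟩ := hP
        have e1' := Fin.ext e1
        have e2' := Fin.ext e2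
        have : Nonempty (G c ≃g G c') := by
          refine iso_of_delete (G c) (G c') (hadj c) (hadj c')
            ((hiso c hca).some.trans (hiso c' hca').some.symm) ?_ ?_
          · change (hiso c' hca').some.symm ((hiso c hca).some (u c)) = u c'
            rw [e1']; exact RelIso.symm_apply_apply _ _
          · change (hiso c' hca').some.symm ((hiso c hca).some (v c)) = v c'
            rw [e2']; exact RelIso.symm_apply_apply _ _
        apply Subtype.ext
        rw [← hc c, ← hc c']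
        exact Quotient.sound this
    rw [Finset.card_product, Finset.card_range] at hcard
    rw [sq]; exact hcard
  have h1 := Finset.card_le_mul_card_image (Finset.univ : Finset S) ((2 * e + 1) ^ 2) hfib
  -- the image of `F`
  let T : ℕ × ℕ → Finset (Quotient isoSetoid) := fun p =>
    ((Finset.univ : Finset S).filter fun c => m c = p.1 ∧
      2 * Nat.card (G' c).edgeSet = p.2).image cl
  have hT : ∀ p ∈ Finset.range (2 * e + 1) ×ˢ Finset.range (2 * e + 1), (T p).card ≤ B := by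
    rintro ⟨a, b⟩ hp
    simp only [Finset.mem_product, Finset.mem_range] at hp
    have h2 := card_embeddable_classes g a b (T (a, b)) (by
      intro c' hc'
      obtain ⟨c, hcf, rfl⟩ := Finset.mem_image.1 hc'
      obtain ⟨h3, h4⟩ := (Finset.mem_filter.1 hcf).2
      simp only at h3 h4
      subst h3
      exact ⟨G' c, rfl, hemb c, h4⟩)
    refine h2.trans ?_
    rw [hB]
    have : 54 ^ b ≤ 54 ^ (2 * e) := Nat.pow_le_pow_right (by norm_num) (by omega)
    exact Nat.mul_le_mul_right _ this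
  have himg : ((Finset.univ : Finset S).image F).card ≤ (2 * e + 1) ^ 2 * B := by
    have hsub : (Finset.univ : Finset S).image F ⊆
        (Finset.range (2 * e + 1) ×ˢ Finset.range (2 * e + 1)).biUnion fun p =>
          (T p).image fun c' => (p.1, p.2, c') := by
      intro a ha
      obtain ⟨c, -, rfl⟩ := Finset.mem_image.1 ha
      simp only [Finset.mem_biUnion, Finset.mem_image]
      refine ⟨(m c, 2 * Nat.card (G' c).edgeSet), ?_, cl c, ?_, rfl⟩
      · simp only [Finset.mem_product, Finset.mem_range]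
        have h3 := hm c
        have h4 : 2 * Nat.card (G' c).edgeSet ≤ 2 * e := hN c
        omega
      · exact Finset.mem_image_of_mem _ (by simp)
    calc _ ≤ _ := Finset.card_le_card hsub
      _ ≤ ∑ p ∈ Finset.range (2 * e + 1) ×ˢ Finset.range (2 * e + 1),
          ((T p).image fun c' => (p.1, p.2, c')).card := Finset.card_biUnion_le
      _ ≤ ∑ p ∈ Finset.range (2 * e + 1) ×ˢ Finset.range (2 * e + 1), B :=
          Finset.sum_le_sum fun p hp => Finset.card_image_le.trans (hT p hp)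
      _ = (2 * e + 1) ^ 2 * B := by
          rw [Finset.sum_const, Finset.card_product, Finset.card_range, smul_eq_mul, sq]
  have h2 : (Finset.univ : Finset S).card = S.card := by
    rw [Finset.card_univ, Fintype.card_coe]
  rw [h2] at h1
  calc S.card ≤ (2 * e + 1) ^ 2 * ((Finset.univ : Finset S).image F).card := h1
    _ ≤ (2 * e + 1) ^ 2 * ((2 * e + 1) ^ 2 * B) := Nat.mul_le_mul_left _ himg
    _ = (2 * e + 1) ^ 4 * B := by ring

theorem upper_bound (C : ℕ) (ε : ℝ) (hε : 0 < ε) : ∃ g₀ : ℕ, ∀ g ≥ g₀,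
    ∀ S : Finset (Quotient isoSetoid), ↑S ⊆ ObsUpTo g (C * g) →
      (S.card : ℝ) ≤ (g : ℝ) ^ ((2 + ε) * g) := by
  set K : ℝ := 8 * C + 2 * C * Real.log 54 + 2 * Real.log 3 with hK
  refine ⟨max 1 ⌈Real.exp (K / ε)⌉₊, ?_⟩
  intro g hg S hS
  have hg1 : 1 ≤ g := le_trans (le_max_left _ _) hg
  have hgexp : Real.exp (K / ε) ≤ g := by
    have h1 : ⌈Real.exp (K / ε)⌉₊ ≤ g := le_trans (le_max_right _ _) hg
    exact (Nat.le_ceil _).trans (by exact_mod_cast h1)
  have hgR : (0 : ℝ) < g := by exact_mod_cast hg1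
  have hgR1 : (1 : ℝ) ≤ g := by exact_mod_cast hg1
  have hlogg : K ≤ ε * Real.log g := by
    have h1 : K / ε ≤ Real.log g := by
      rw [Real.le_log_iff_exp_le hgR]; exact hgexp
    rw [div_le_iff₀ hε] at h1
    linarith
  have hlogg0 : 0 ≤ Real.log g := Real.log_nonneg hgR1
  have hcard := card_obs_le g (C * g) S hS
  have hcardR : (S.card : ℝ) ≤ (2 * (C * g) + 1) ^ 4 *
      (54 ^ (2 * (C * g)) * (2 * g + 1) ^ (2 * g)) := by exact_mod_cast hcard
  refine hcardR.trans ?_
  have hCg : (0 : ℝ) ≤ C * g := by positivity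
  have hpos1 : (0 : ℝ) < (2 * (C * g) + 1) ^ 4 := by positivity
  have hpos2 : (0 : ℝ) < 54 ^ (2 * (C * g)) := by positivity
  have hpos3 : (0 : ℝ) < (2 * g + 1) ^ (2 * g) := by positivity
  rw [← Real.log_le_log_iff (by positivity) (Real.rpow_pos_of_pos hgR _), Real.log_rpow hgR,
    Real.log_mul hpos1.ne' (mul_pos hpos2 hpos3).ne', Real.log_mul hpos2.ne' hpos3.ne',
    Real.log_pow, Real.log_pow, Real.log_pow]
  push_cast
  have e1 : Real.log (2 * (C * g) + 1) ≤ 2 * (C * g) := by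
    have := Real.log_le_sub_one_of_pos (x := 2 * ((C : ℝ) * g) + 1) (by positivity)
    linarith
  have e2 : Real.log (2 * g + 1) ≤ Real.log 3 + Real.log g := by
    rw [← Real.log_mul (by norm_num) hgR.ne']
    apply Real.log_le_log (by positivity)
    linarith
  have e3 : (2 * (g : ℝ)) * Real.log (2 * g + 1) ≤ 2 * g * (Real.log 3 + Real.log g) := by
    gcongr
  have e4 : (g : ℝ) * K ≤ g * (ε * Real.log g) := by gcongr
  rw [hK] at e4
  have h54 : 0 ≤ Real.log 54 := Real.log_nonneg (by norm_num)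
  nlinarith

end Pool.Agent.Lib.MP_72b45c_co
end

section

/-!
Choice of the parameters.
-/

namespace Pool.Agent.Lib.MP_72b45c_co

open SimpleGraph

theorem params (r z g : ℕ) (hr : 2 ≤ r) (hz : 4 * 2 ^ ((17 * r ^ 2 + 7) * (16 * r ^ 2 + 2)) ≤ z)
    (hg1 : z ^ (17 * r ^ 2) ≤ g) (hg2 : g < (z + 1) ^ (17 * r ^ 2)) :
    ∃ (S : Finset (Quotient isoSetoid)) (q M : ℕ), ↑S ⊆ ObsUpTo g (3 * g) ∧ M ≤ 3 * g ∧
      2 * g ≤ q + g / r + (4 * r + 3) * z ^ (17 * r ^ 2 - 1) + 4 * r ∧
      (z ^ (17 * r ^ 2 - 1)) ^ (2 * q) ≤ 2 ^ M *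
        (z ^ (17 * r ^ 2 - 1) + 1) ^ (z ^ (17 * r ^ 2 - 1)) *
        (2 * M * (z ^ (17 * r)) ^ 2) ^ q * S.card := by
  set A := 17 * r ^ 2 with hA
  set n := z ^ (A - 1) with hn
  set s := 4 * r ^ 2 with hs
  set γ := 16 * r ^ 2 + 2 with hγ
  set M := 2 * g + n + (g / s + 1) with hM
  set Δ := 2 ^ (A + 6) * z with hΔ
  clear_value Δ
  clear_value M
  clear_value γ
  clear_value s
  clear_value n
  clear_value A
  have hr2 : 4 ≤ r ^ 2 := by nlinarith
  have hzbig : 8 ≤ z := by
    have : 1 ≤ 2 ^ ((A + 7) * γ) := Nat.one_le_two_pow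
    have h2 : 2 ^ 1 ≤ 2 ^ ((A + 7) * γ) := Nat.pow_le_pow_right (by norm_num) (by
      have : 0 < (A + 7) * γ := Nat.mul_pos (by omega) (by omega)
      exact this)
    omega
  have hzpos : 0 < z := by omega
  have hnz : z ^ A = n * z := by
    rw [hn, ← pow_succ]; congr 1; omega
  have hnpos : 0 < n := by rw [hn]; exact Nat.pow_pos hzpos
  have hgn : 8 * n ≤ g := by
    calc 8 * n ≤ z * n := Nat.mul_le_mul_right _ hzbig
      _ = z ^ A := by rw [hnz, mul_comm]
      _ ≤ g := hg1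
  have hg2' : g ≤ 2 ^ A * (n * z) := by
    calc g ≤ (z + 1) ^ A := hg2.le
      _ ≤ (2 * z) ^ A := Nat.pow_le_pow_left (by omega) _
      _ = 2 ^ A * (n * z) := by rw [mul_pow, hnz]
  have hs16 : 16 ≤ s := by omega
  have hgs : g / s * s ≤ g := Nat.div_mul_le_self g s
  have hgs' : g < (g / s + 1) * s := by
    have := Nat.lt_div_mul_add (a := g) (b := s) (by omega)
    linarith
  have hgs16 : 16 * (g / s) ≤ g := by nlinarith
  have hn8 : 8 ≤ n := by
    calc 8 ≤ z := hzbig
      _ = z ^ 1 := (pow_one z).symm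
      _ ≤ n := by rw [hn]; exact Nat.pow_le_pow_right hzpos (by omega)
  -- the conditions of `main_count`
  have c1 : 3 ≤ γ := by omega
  have c2 : γ ≤ n := by
    have h1 : γ ≤ 2 ^ γ := Nat.lt_two_pow_self.le
    have h2 : 2 ^ γ ≤ 2 ^ ((A + 7) * γ) := Nat.pow_le_pow_right (by norm_num) (by nlinarith)
    have h3 : z ≤ n := by
      calc z = z ^ 1 := (pow_one z).symm
        _ ≤ n := by rw [hn]; exact Nat.pow_le_pow_right hzpos (by omega)
    omega
  have c3 : 2 ≤ Δ := by
    have : 1 ≤ 2 ^ (A + 6) := Nat.one_le_two_pow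
    nlinarith
  have hpowA : 4 ≤ 2 ^ A := by
    calc 4 = 2 ^ 2 := by norm_num
      _ ≤ 2 ^ A := Nat.pow_le_pow_right (by norm_num) (by omega)
  have c4 : 16 * (n + M) ≤ n * Δ := by
    have h1 : n + M ≤ 4 * g := by omega
    calc 16 * (n + M) ≤ 64 * g := by omega
      _ ≤ 64 * (2 ^ A * (n * z)) := Nat.mul_le_mul_left _ hg2'
      _ = n * Δ := by rw [hΔ, pow_add]; ring
  have c5 : 4 * (Δ + 1) ^ γ ≤ n := by
    have h1 : Δ + 1 ≤ 2 ^ (A + 7) * z := by
      have : 1 ≤ 2 ^ (A + 6) * z := Nat.one_le_iff_ne_zero.2 (by positivity)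
      calc Δ + 1 ≤ 2 ^ (A + 6) * z + 2 ^ (A + 6) * z := by omega
        _ = 2 ^ (A + 7) * z := by rw [show A + 7 = (A + 6) + 1 by ring, pow_succ]; ring
    calc 4 * (Δ + 1) ^ γ ≤ 4 * (2 ^ (A + 7) * z) ^ γ :=
          Nat.mul_le_mul_left _ (Nat.pow_le_pow_left h1 _)
      _ = (4 * 2 ^ ((A + 7) * γ)) * z ^ γ := by rw [mul_pow, ← pow_mul]; ring
      _ ≤ z * z ^ γ := Nat.mul_le_mul_right _ hz
      _ = z ^ (γ + 1) := by rw [pow_succ z γ, mul_comm]
      _ ≤ n := by rw [hn]; exact Nat.pow_le_pow_right hzpos (by omega)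
  have c6 : ∀ F, γ * F ≤ 2 * (n + M) → F + 2 * g < M + 2 := by
    intro F hF
    by_contra hcon
    have h1 : n + (g / s + 1) + 2 ≤ F := by omega
    have hγs : γ = 4 * s + 2 := by omega
    have h2 : γ * (n + (g / s + 1) + 2) ≤ γ * F := Nat.mul_le_mul_left _ h1
    rw [hγs] at h2 hF
    have h3 : (4 * s + 2) * (n + (g / s + 1) + 2) =
      4 * ((g / s + 1) * s) + 4 * (s * n) + 8 * s + 2 * n + 2 * (g / s) + 6 := by ring
    have h4 : 16 * n ≤ s * n := Nat.mul_le_mul_right _ hs16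
    omega
  have hB : (z ^ (17 * r)) ^ r = n * z := by
    rw [← pow_mul, ← hnz]; congr 1; rw [hA]; ring
  have c7 : n < (z ^ (17 * r)) ^ r := by
    rw [hB]; nlinarith
  have hrg : 4 * r * (g / s) ≤ g / r := by
    rw [Nat.le_div_iff_mul_le (by omega)]
    calc 4 * r * (g / s) * r = g / s * s := by rw [hs]; ring
      _ ≤ g := hgs
  have c8 : ∀ q, q = 2 * g - (g / r + (4 * r + 3) * n + 4 * r) →
      g / r + (4 * r + 3) * n + 4 * r ≤ 2 * g →
      q + 4 * r * (M - 2 * g) + 3 * n ≤ 2 * g + 1 := by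
    intro q hq hle
    have h1 : M - 2 * g = n + (g / s + 1) := by omega
    rw [h1]
    have h2 : 4 * r * (n + (g / s + 1)) = 4 * r * n + 4 * r * (g / s) + 4 * r := by ring
    have h3 : (4 * r + 3) * n = 4 * r * n + 3 * n := by ring
    omega
  have hle : g / r + (4 * r + 3) * n + 4 * r ≤ 2 * g := by
    have h1 : g / r ≤ g / 2 := Nat.div_le_div_left hr (by norm_num)
    -- `(4 r + 3) n ≤ g / 8 * ...`, from the size of `z`
    have h2 : 4 * r + 3 ≤ z := by
      have h0 : r < 2 ^ r := Nat.lt_two_pow_self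
      have h5 : r ≤ r ^ 2 := Nat.le_self_pow (by norm_num) r
      have h6 : r + 3 ≤ (A + 7) * γ := by
        calc r + 3 ≤ (A + 7) * 1 := by omega
          _ ≤ (A + 7) * γ := Nat.mul_le_mul_left _ (by omega)
      have h3 : 2 ^ (r + 3) ≤ 2 ^ ((A + 7) * γ) := Nat.pow_le_pow_right (by norm_num) h6
      have h4 : 2 ^ (r + 3) = 2 ^ r * 8 := by rw [pow_add]; norm_num
      calc 4 * r + 3 ≤ 2 ^ r * 8 := by omega
        _ ≤ 2 ^ ((A + 7) * γ) := h4 ▸ h3
        _ ≤ 4 * 2 ^ ((A + 7) * γ) := Nat.le_mul_of_pos_left _ (by norm_num)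
        _ ≤ z := hz
    have h3 : (4 * r + 3) * n ≤ g := by
      calc (4 * r + 3) * n ≤ z * n := Nat.mul_le_mul_right _ h2
        _ = z ^ A := by rw [hnz, mul_comm]
        _ ≤ g := hg1
    have h4 : 8 * (4 * r) ≤ g := by
      calc 8 * (4 * r) ≤ 8 * z := Nat.mul_le_mul_left _ (le_trans (by omega) h2)
        _ ≤ n * z := Nat.mul_le_mul_right _ hn8
        _ = z ^ A := hnz.symm
        _ ≤ g := hg1
    have h5 : (4 * r + 3) * (8 * n) ≤ 8 * g := by
      calc (4 * r + 3) * (8 * n) = 8 * ((4 * r + 3) * n) := by ring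
        _ ≤ 8 * g := Nat.mul_le_mul_left _ h3
    generalize (4 * r + 3) * n = X at h3 h5 ⊢
    generalize g / r = Y at h1 ⊢
    clear hz hg1 hg2 hnz hg2' hB c5 c6 c7 c8 hrg h2 h5
    omega
  obtain ⟨S, hS1, hS2⟩ := main_count c1 c2 c3 c4 c5 c6 c7
    (c8 (2 * g - (g / r + (4 * r + 3) * n + 4 * r)) rfl hle)
  refine ⟨S, 2 * g - (g / r + (4 * r + 3) * n + 4 * r), M, ?_, by omega, by omega, hS2⟩
  intro c hc
  obtain ⟨B, hB1, hB2, hB3⟩ := hS1 hc
  exact ⟨B, hB1, hB2, hB3.trans (by omega)⟩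

set_option maxHeartbeats 2000000 in
theorem real_ineq (r : ℕ) (ε : ℝ) (hε1 : ε ≤ 1) (hr : 6 ≤ ε * r) :
    ∃ z₀ : ℕ, ∀ z ≥ z₀, ∀ g q M N : ℕ, z ^ (17 * r ^ 2) ≤ g → g < (z + 1) ^ (17 * r ^ 2) →
      M ≤ 3 * g → 2 * g ≤ q + g / r + (4 * r + 3) * z ^ (17 * r ^ 2 - 1) + 4 * r →
      (z ^ (17 * r ^ 2 - 1)) ^ (2 * q) ≤ 2 ^ M *
        (z ^ (17 * r ^ 2 - 1) + 1) ^ (z ^ (17 * r ^ 2 - 1)) *
        (2 * M * (z ^ (17 * r)) ^ 2) ^ q * N →
      (g : ℝ) ^ ((2 - ε) * g) ≤ N := by
  have hr6 : (6 : ℝ) ≤ r := by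
    have h0 : (0 : ℝ) ≤ r := Nat.cast_nonneg r
    nlinarith
  have hr6' : 6 ≤ r := by exact_mod_cast hr6
  have hεr : 0 < ε := by
    by_contra h
    push Not at h
    nlinarith
  obtain ⟨A, hA⟩ : ∃ A, A = 17 * r ^ 2 := ⟨_, rfl⟩
  have hAR : (A : ℝ) = 17 * r ^ 2 := by rw [hA]; push_cast; ring
  have hA1 : 1 ≤ A := by rw [hA]; nlinarith
  rw [← hA]
  set P : ℝ := 17 * r ^ 2 - 34 * r - 2 with hP
  set Q : ℝ := (A + 3) * Real.log 2 with hQ
  set K : ℝ := 2 * Q + (8 * r + 3) * P + 3 + A + 2 * A with hK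
  have hl2 : 0 < Real.log 2 := Real.log_pos (by norm_num)
  have hl2' : Real.log 2 < 1 := by
    have := Real.log_two_lt_d9; linarith
  have hPpos : 0 < P := by rw [hP]; nlinarith
  have hP1 : 1 ≤ P := by rw [hP]; nlinarith
  have hQpos : 0 < Q := by rw [hQ]; positivity
  have hKpos : 0 < K := by rw [hK]; positivity
  refine ⟨max 8 ⌈Real.exp K⌉₊, ?_⟩
  intro z hz g q M N hg1 hg2 hM hq hmain
  have hz8 : 8 ≤ z := le_trans (le_max_left _ _) hz
  have hzexp : Real.exp K ≤ z := by
    have h1 : ⌈Real.exp K⌉₊ ≤ z := le_trans (le_max_right _ _) hz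
    exact (Nat.le_ceil _).trans (by exact_mod_cast h1)
  obtain ⟨x, hx⟩ : ∃ x, x = Real.log z := ⟨_, rfl⟩
  have hxK : K ≤ x := by
    rw [hx, Real.le_log_iff_exp_le (by positivity)]; exact hzexp
  have hxz : x ≤ z := by
    rw [hx]
    have := Real.log_le_sub_one_of_pos (x := (z : ℝ)) (by positivity)
    linarith
  have hx0 : 0 < x := lt_of_lt_of_le hKpos hxK
  obtain ⟨n, hn⟩ : ∃ n, n = z ^ (A - 1) := ⟨_, rfl⟩
  rw [← hn] at hq hmain
  have hnz : n * z = z ^ A := by
    rw [hn, ← pow_succ]; congr 1; omega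
  have hnpos : 0 < n := by rw [hn]; exact Nat.pow_pos (by omega)
  have hgpos : 0 < g := lt_of_lt_of_le (Nat.pow_pos (by omega)) hg1
  have hNpos : 0 < N := by
    rcases Nat.eq_zero_or_pos N with h | h
    · exfalso
      rw [h, mul_zero] at hmain
      have : 0 < n ^ (2 * q) := Nat.pow_pos hnpos
      omega
    · exact h
  -- replace `M` by `3 g`
  have hmain2 : n ^ (2 * q) ≤ 2 ^ (3 * g) * (n + 1) ^ n *
      (6 * g * (z ^ (17 * r)) ^ 2) ^ q * N := by
    refine hmain.trans ?_
    have h2M : 2 * M ≤ 6 * g := by omega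
    have e1 : 2 ^ M ≤ 2 ^ (3 * g) := Nat.pow_le_pow_right (by norm_num) hM
    have e2 : (2 * M * (z ^ (17 * r)) ^ 2) ^ q ≤ (6 * g * (z ^ (17 * r)) ^ 2) ^ q :=
      Nat.pow_le_pow_left (Nat.mul_le_mul_right _ h2M) _
    exact Nat.mul_le_mul_right _ (Nat.mul_le_mul (Nat.mul_le_mul_right _ e1) e2)
  have hlogmain : (2 * q : ℝ) * ((A - 1) * x) ≤ 3 * g * Real.log 2 + n * Real.log (n + 1) +
      q * (Real.log (6 * g) + 34 * r * x) + Real.log N := by
    have h1 : Real.log ((n ^ (2 * q) : ℕ) : ℝ) ≤ Real.log ((2 ^ (3 * g) * (n + 1) ^ n *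
      (6 * g * (z ^ (17 * r)) ^ 2) ^ q * N : ℕ) : ℝ) := by
      apply Real.log_le_log
      · have : 0 < n ^ (2 * q) := Nat.pow_pos hnpos
        exact_mod_cast this
      · exact_mod_cast hmain2
    push_cast at h1
    have hz0 : (z : ℝ) ≠ 0 := by positivity
    have hg0 : (g : ℝ) ≠ 0 := by positivity
    have hn0 : (n : ℝ) ≠ 0 := by positivity
    have hN0 : (N : ℝ) ≠ 0 := by positivity
    have hn1 : (n : ℝ) + 1 ≠ 0 := by positivity
    rw [Real.log_mul (by positivity) hN0, Real.log_mul (by positivity) (by positivity),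
      Real.log_mul (by positivity) (by positivity), Real.log_pow, Real.log_pow, Real.log_pow,
      Real.log_pow, Real.log_mul (by positivity) (by positivity), Real.log_pow,
      Real.log_pow] at h1
    have h2 : Real.log n = (A - 1) * x := by
      rw [hn, hx]; push_cast
      rw [Real.log_pow, Nat.cast_sub hA1]; simp
    rw [h2, ← hx] at h1
    push_cast at h1
    have h3 : (2 : ℝ) * (17 * r * x) = 34 * r * x := by ring
    linarith
  have hzR : (0 : ℝ) < z := by positivity
  have hgR : (0 : ℝ) < g := by positivity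
  have hnzR : (n : ℝ) * z ≤ g := by
    have : n * z ≤ g := by rw [hnz]; exact hg1
    exact_mod_cast this
  have hnR : (n : ℝ) ≤ g / z := by rw [le_div_iff₀ hzR]; exact hnzR
  have hlogn : Real.log (n + 1) ≤ A * x := by
    have h1 : (n : ℝ) + 1 ≤ (z : ℝ) ^ A := by
      have : n + 1 ≤ z ^ A := by rw [← hnz]; nlinarith
      exact_mod_cast this
    calc Real.log (n + 1) ≤ Real.log ((z : ℝ) ^ A) := Real.log_le_log (by positivity) h1
      _ = A * x := by rw [Real.log_pow, hx]
  have hAx : 0 ≤ (A : ℝ) * x := by positivity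
  have hlogn0 : 0 ≤ Real.log ((n : ℝ) + 1) := Real.log_nonneg (by
    have : (0 : ℝ) ≤ n := Nat.cast_nonneg n
    linarith)
  have ht1 : n * Real.log (n + 1) ≤ g * A := by
    calc n * Real.log (n + 1) ≤ (g / z) * (A * x) := mul_le_mul hnR hlogn hlogn0 (by positivity)
      _ = g * A * (x / z) := by ring
      _ ≤ g * A * 1 := by
        gcongr
        rw [div_le_one hzR]; exact hxz
      _ = g * A := by ring
  have hlogg : Real.log g ≤ A * (x + Real.log 2) := by
    have h1 : (g : ℝ) ≤ (2 * z : ℝ) ^ A := by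
      have : g ≤ (2 * z) ^ A := hg2.le.trans (Nat.pow_le_pow_left (by omega) _)
      exact_mod_cast this
    calc Real.log g ≤ Real.log ((2 * z : ℝ) ^ A) := Real.log_le_log hgR h1
      _ = A * (x + Real.log 2) := by
        rw [Real.log_pow, Real.log_mul (by norm_num) (by positivity), hx]; ring
  have hlog6g : Real.log (6 * g) ≤ Q + A * x := by
    have h6 : Real.log 6 ≤ 3 * Real.log 2 := by
      have : Real.log 6 ≤ Real.log ((2 : ℝ) ^ 3) := Real.log_le_log (by norm_num) (by norm_num)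
      rwa [Real.log_pow] at this
    rw [Real.log_mul (by norm_num) hgR.ne', hQ]
    linarith
  have hqR : (g : ℝ) * (2 - 1 / r - (8 * r + 3) / z) ≤ q := by
    have h1 : ((2 * g : ℕ) : ℝ) ≤ ((q + g / r + (4 * r + 3) * n + 4 * r : ℕ) : ℝ) := by
      exact_mod_cast hq
    push_cast at h1
    have h2 : ((g / r : ℕ) : ℝ) ≤ g / r := Nat.cast_div_le
    have h3 : (4 * r + 3 : ℝ) * n ≤ (4 * r + 3) * (g / z) := by gcongr
    have h4 : (1 : ℝ) ≤ g / z := by
      rw [le_div_iff₀ hzR, one_mul]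
      have : z ≤ g := by
        calc z = z ^ 1 := (pow_one z).symm
          _ ≤ z ^ A := Nat.pow_le_pow_right (by omega) hA1
          _ ≤ g := hg1
      exact_mod_cast this
    have h5 : (4 * r : ℝ) ≤ 4 * r * (g / z) := by
      have : (0 : ℝ) ≤ 4 * r := by positivity
      nlinarith
    have h6 : (g : ℝ) * (2 - 1 / r - (8 * r + 3) / z) =
      2 * g - g / r - (4 * r + 3) * (g / z) - 4 * r * (g / z) := by ring
    rw [h6]
    linarith
  have hPxQ : 0 ≤ P * x - Q := by
    have h1 : Q ≤ K := by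
      rw [hK]
      have : 0 < (8 * r + 3) * P := by positivity
      have hA0 : (0 : ℝ) < A := by positivity
      linarith
    nlinarith
  have hlogN : (q : ℝ) * (P * x - Q) - 3 * g * Real.log 2 - g * A ≤ Real.log N := by
    have h1 : (q : ℝ) * (Real.log (6 * g) + 34 * r * x) ≤ q * (Q + A * x + 34 * r * x) := by
      gcongr
    have h2 : (q : ℝ) * (P * x - Q) = 2 * q * ((A - 1) * x) - q * (Q + A * x + 34 * r * x) := by
      rw [hP, hAR]; ring
    linarith
  have hfinal : (2 - ε) * g * Real.log g ≤ Real.log N := by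
    have h1 : (g : ℝ) * (2 - 1 / r - (8 * r + 3) / z) * (P * x - Q) ≤ q * (P * x - Q) := by
      gcongr
    have h2 : (2 - ε) * g * Real.log g ≤ (2 - ε) * g * (A * (x + Real.log 2)) := by
      have : 0 ≤ (2 - ε) * g := by
        apply mul_nonneg _ hgR.le
        linarith
      gcongr
    have hrR : (0 : ℝ) < r := by linarith
    have h3 : (8 * r + 3) / z * (P * x) ≤ (8 * r + 3) * P := by
      calc (8 * r + 3) / z * (P * x) = (8 * r + 3) * P * (x / z) := by ring
        _ ≤ (8 * r + 3) * P * 1 := by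
          gcongr
          rw [div_le_one hzR]; exact hxz
        _ = (8 * r + 3) * P := by ring
    have h4 : 0 ≤ (8 * r + 3) / z * Q := by positivity
    have h5 : 0 ≤ 1 / (r : ℝ) * Q := by positivity
    -- the key inequality after division by `g`
    have h6 : (2 - ε) * (A * (x + Real.log 2)) ≤
        (2 - 1 / r - (8 * r + 3) / z) * (P * x - Q) - 3 * Real.log 2 - A := by
      have e1 : (2 - 1 / (r : ℝ)) * P = 34 * r ^ 2 - 85 * r + 30 + 2 / r := by
        rw [hP]; field_simp; ring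
      have e2 : (2 - ε) * (A : ℝ) = 34 * r ^ 2 - 17 * ε * r ^ 2 := by rw [hAR]; ring
      have e3 : (2 - ε) * A + 17 * r ≤ (2 - 1 / (r : ℝ)) * P := by
        rw [e1, e2]
        have : 0 ≤ 2 / (r : ℝ) := by positivity
        nlinarith
      have e4 : ((2 - ε) * A + 17 * r) * x ≤ (2 - 1 / (r : ℝ)) * P * x := by gcongr
      have e5 : K ≤ 17 * r * x := by
        have : 1 * x ≤ 17 * r * x := by
          gcongr
          linarith
        linarith
      have e6 : (2 - ε) * A * Real.log 2 ≤ 2 * A := by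
        have hA0 : (0 : ℝ) < A := by positivity
        have : (2 - ε) * A ≤ 2 * A := by nlinarith
        nlinarith
      have e7 : (2 - 1 / (r : ℝ) - (8 * r + 3) / z) * (P * x - Q) =
        (2 - 1 / (r : ℝ)) * P * x - 2 * Q + 1 / r * Q - (8 * r + 3) / z * (P * x) +
          (8 * r + 3) / z * Q := by ring
      rw [e7]
      rw [hK] at e5
      nlinarith
    have h7 : (2 - ε) * g * (A * (x + Real.log 2)) = g * ((2 - ε) * (A * (x + Real.log 2))) := by
      ring
    have h8 : (g : ℝ) * ((2 - ε) * (A * (x + Real.log 2))) ≤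
      g * ((2 - 1 / r - (8 * r + 3) / z) * (P * x - Q) - 3 * Real.log 2 - A) := by gcongr
    have h9 : (g : ℝ) * ((2 - 1 / r - (8 * r + 3) / z) * (P * x - Q) - 3 * Real.log 2 - A) =
      g * (2 - 1 / r - (8 * r + 3) / z) * (P * x - Q) - 3 * g * Real.log 2 - g * A := by ring
    linarith
  have hNR : (0 : ℝ) < N := by exact_mod_cast hNpos
  rw [← Real.log_le_log_iff (Real.rpow_pos_of_pos hgR _) hNR, Real.log_rpow hgR]
  exact hfinal

/-- The lower bound. -/
theorem lower_bound (ε : ℝ) (hε : 0 < ε) : ∃ g₀ : ℕ, ∀ g ≥ g₀,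
    ∃ S : Finset (Quotient isoSetoid), ↑S ⊆ ObsUpTo g (3 * g) ∧
      (g : ℝ) ^ ((2 - ε) * g) ≤ S.card := by
  obtain ⟨ε', hε', hε'1, hε'ε⟩ : ∃ ε' : ℝ, 0 < ε' ∧ ε' ≤ 1 ∧ ε' ≤ ε :=
    ⟨min ε 1, lt_min hε one_pos, min_le_right _ _, min_le_left _ _⟩
  obtain ⟨r, hr⟩ := exists_nat_ge (6 / ε')
  have hr6 : 6 ≤ ε' * r := by
    rw [div_le_iff₀ hε'] at hr; linarith
  have hrR : (6 : ℝ) ≤ r := by
    have h0 : (0 : ℝ) ≤ r := Nat.cast_nonneg r
    nlinarith
  have hr2 : 2 ≤ r := by
    have : 6 ≤ r := by exact_mod_cast hrR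
    omega
  obtain ⟨z₀, hz₀⟩ := real_ineq r ε' hε'1 hr6
  set z₁ := max z₀ (4 * 2 ^ ((17 * r ^ 2 + 7) * (16 * r ^ 2 + 2))) with hz₁
  refine ⟨max 1 (z₁ ^ (17 * r ^ 2)), ?_⟩
  intro g hg
  have hg1 : 1 ≤ g := le_trans (le_max_left _ _) hg
  have hg2 : z₁ ^ (17 * r ^ 2) ≤ g := le_trans (le_max_right _ _) hg
  have hApos : 17 * r ^ 2 ≠ 0 := by positivity
  -- `z` is the integer part of the root
  obtain ⟨z, hz1, hz2⟩ : ∃ z, z ^ (17 * r ^ 2) ≤ g ∧ g < (z + 1) ^ (17 * r ^ 2) := by
    have hex : ∃ z, g < (z + 1) ^ (17 * r ^ 2) :=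
      ⟨g, lt_of_lt_of_le (Nat.lt_succ_self g) (Nat.le_self_pow hApos _)⟩
    classical
    refine ⟨Nat.find hex, ?_, Nat.find_spec hex⟩
    rcases Nat.eq_zero_or_pos (Nat.find hex) with h | h
    · rw [h, zero_pow hApos]; omega
    · have := Nat.find_min hex (Nat.sub_lt h one_pos)
      have e : Nat.find hex - 1 + 1 = Nat.find hex := by omega
      rw [e] at this
      exact not_lt.1 this
  have hzz : z₁ ≤ z := by
    by_contra h
    push Not at h
    have : (z + 1) ^ (17 * r ^ 2) ≤ z₁ ^ (17 * r ^ 2) := Nat.pow_le_pow_left h _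
    omega
  obtain ⟨S, q, M, hS, hM, hq, hmain⟩ := params r z g hr2 (le_trans (le_max_right _ _) hzz)
    hz1 hz2
  refine ⟨S, hS, ?_⟩
  have h1 := hz₀ z (le_trans (le_max_left _ _) hzz) g q M S.card hz1 hz2 hM hq hmain
  refine le_trans ?_ h1
  apply Real.rpow_le_rpow_of_exponent_le
  · exact_mod_cast hg1
  · have : (0 : ℝ) ≤ g := Nat.cast_nonneg g
    nlinarith

end Pool.Agent.Lib.MP_72b45c_co
end

section

/-!
The number of excluded minors with `e` edges, `3 g ≤ e ≤ δ g log g`, is `g ^ ((2 + o(1)) g)`.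
-/

namespace Pool.Agent.Lib.MP_72b45c_co

open SimpleGraph

theorem obsUpTo_finite (g e : ℕ) : (ObsUpTo g e).Finite := by
  by_contra h
  have h' : (ObsUpTo g e).Infinite := h
  obtain ⟨S, hS, hcard⟩ := h'.exists_subset_card_eq
    ((2 * e + 1) ^ 4 * (54 ^ (2 * e) * (2 * g + 1) ^ (2 * g)) + 1)
  have := card_obs_le g e S hS
  omega

theorem obsUpTo_ncard_le (g e : ℕ) :
    (ObsUpTo g e).ncard ≤ (2 * e + 1) ^ 4 * (54 ^ (2 * e) * (2 * g + 1) ^ (2 * g)) := by
  classical
  rw [Set.ncard_eq_toFinset_card _ (obsUpTo_finite g e)]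
  apply card_obs_le
  simp

theorem obsUpTo_mono (g : ℕ) {e e' : ℕ} (h : e ≤ e') : ObsUpTo g e ⊆ ObsUpTo g e' := by
  rintro c ⟨A, h1, h2, h3⟩
  exact ⟨A, h1, h2, h3.trans h⟩

theorem obsUpTo_subset (g e : ℕ) : ObsUpTo g e ⊆ Obs g := by
  rintro c ⟨A, h1, h2, -⟩
  exact ⟨A, h1, h2⟩

theorem log54_le : Real.log 54 ≤ 5 := by
  have h1 : Real.log 54 ≤ Real.log (2 ^ 6) := Real.log_le_log (by norm_num) (by norm_num)
  rw [Real.log_pow] at h1
  have h2 := Real.log_two_lt_d9
  push_cast at h1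
  linarith

theorem upper_real (ε : ℝ) (hε : 0 < ε) : ∃ δ : ℝ, 0 < δ ∧ ∃ g₀ : ℕ, ∀ g ≥ g₀, ∀ e : ℕ,
    (e : ℝ) ≤ δ * g * Real.log g →
      ((ObsUpTo g e).ncard : ℝ) ≤ (g : ℝ) ^ ((2 + ε) * g) := by
  refine ⟨min 1 (ε / 20), by positivity, ⌈Real.exp (64 / ε + 1)⌉₊, ?_⟩
  intro g hg e he
  have hgexp : Real.exp (64 / ε + 1) ≤ g := (Nat.le_ceil _).trans (by exact_mod_cast hg)
  have hgR : (0 : ℝ) < g := lt_of_lt_of_le (Real.exp_pos _) hgexp
  have hlog : 64 / ε + 1 ≤ Real.log g := by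
    rw [Real.le_log_iff_exp_le hgR]; exact hgexp
  have h64 : 0 < 64 / ε := by positivity
  have hg64 : 64 / ε + 2 ≤ g := by
    have := Real.add_one_le_exp (64 / ε + 1)
    linarith
  have hgR1 : (1 : ℝ) ≤ g := by linarith
  have hlogg0 : 1 ≤ Real.log g := by linarith
  have hlogg : Real.log g ≤ g := by
    have := Real.log_le_sub_one_of_pos hgR
    linarith
  have e5 : (e : ℝ) ≤ g * g := by
    calc (e : ℝ) ≤ min 1 (ε / 20) * g * Real.log g := he
      _ ≤ 1 * g * g := by
          gcongr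
          exact min_le_left _ _
      _ = g * g := by ring
  have e6 : (e : ℝ) ≤ ε / 20 * (g * Real.log g) := by
    calc (e : ℝ) ≤ min 1 (ε / 20) * g * Real.log g := he
      _ ≤ (ε / 20) * g * Real.log g := by
          gcongr
          exact min_le_right _ _
      _ = _ := by ring
  have hcard := obsUpTo_ncard_le g e
  have hcardR : ((ObsUpTo g e).ncard : ℝ) ≤ (2 * e + 1) ^ 4 *
      (54 ^ (2 * e) * (2 * g + 1) ^ (2 * g)) := by exact_mod_cast hcard
  refine hcardR.trans ?_
  have he0 : (0 : ℝ) ≤ e := Nat.cast_nonneg e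
  have hpos1 : (0 : ℝ) < (2 * e + 1) ^ 4 := by positivity
  have hpos2 : (0 : ℝ) < 54 ^ (2 * e) := by positivity
  have hpos3 : (0 : ℝ) < (2 * g + 1) ^ (2 * g) := by positivity
  rw [← Real.log_le_log_iff (by positivity) (Real.rpow_pos_of_pos hgR _), Real.log_rpow hgR,
    Real.log_mul hpos1.ne' (mul_pos hpos2 hpos3).ne', Real.log_mul hpos2.ne' hpos3.ne',
    Real.log_pow, Real.log_pow, Real.log_pow]
  push_cast
  have hl3 : Real.log 3 ≤ 2 := by
    have := Real.log_le_sub_one_of_pos (x := (3 : ℝ)) (by norm_num)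
    linarith
  have e1 : Real.log (2 * e + 1) ≤ 2 + 2 * Real.log g := by
    have h1 : Real.log (2 * e + 1) ≤ Real.log (3 * (g * g)) := by
      apply Real.log_le_log (by positivity)
      nlinarith
    rw [Real.log_mul (by norm_num) (by positivity), Real.log_mul hgR.ne' hgR.ne'] at h1
    linarith
  have e2 : Real.log (2 * g + 1) ≤ 2 + Real.log g := by
    have h1 : Real.log (2 * g + 1) ≤ Real.log (3 * g) := by
      apply Real.log_le_log (by positivity)
      linarith
    rw [Real.log_mul (by norm_num) hgR.ne'] at h1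
    linarith
  have e3 : (2 * (g : ℝ)) * Real.log (2 * g + 1) ≤ 2 * g * (2 + Real.log g) := by
    gcongr
  have e4 : (2 * (e : ℝ)) * Real.log 54 ≤ ε / 2 * (g * Real.log g) := by
    calc (2 * (e : ℝ)) * Real.log 54 ≤ (2 * e) * 5 := by gcongr; exact log54_le
      _ = 10 * e := by ring
      _ ≤ 10 * (ε / 20 * (g * Real.log g)) := by gcongr
      _ = _ := by ring
  have e7 : 16 * Real.log g ≤ ε / 4 * (g * Real.log g) := by
    have h1 : 64 / ε ≤ g := by linarith
    rw [div_le_iff₀ hε] at h1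
    have h2 : 64 * Real.log g ≤ (g * ε) * Real.log g := by gcongr
    nlinarith
  have e8 : 4 * (g : ℝ) ≤ ε / 4 * (g * Real.log g) := by
    have h1 : 64 / ε ≤ Real.log g := by linarith
    rw [div_le_iff₀ hε] at h1
    have h2 : 64 * (g : ℝ) ≤ (Real.log g * ε) * g := by gcongr
    nlinarith
  nlinarith

theorem sharp (ε : ℝ) (hε : 0 < ε) : ∃ δ : ℝ, 0 < δ ∧ ∃ g₀ : ℕ, ∀ g ≥ g₀,
    (∀ e : ℕ, 3 * g ≤ e → (g : ℝ) ^ ((2 - ε) * g) ≤ (ObsUpTo g e).ncard) ∧
    (∀ e : ℕ, (e : ℝ) ≤ δ * g * Real.log g →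
      ((ObsUpTo g e).ncard : ℝ) ≤ (g : ℝ) ^ ((2 + ε) * g)) ∧
    ((Obs g).Finite → (g : ℝ) ^ ((2 - ε) * g) ≤ (Obs g).ncard) := by
  obtain ⟨δ, hδ, g₁, h1⟩ := upper_real ε hε
  obtain ⟨g₂, h2⟩ := lower_bound ε hε
  refine ⟨δ, hδ, max g₁ g₂, ?_⟩
  intro g hg
  obtain ⟨S, hS1, hS2⟩ := h2 g (le_trans (le_max_right _ _) hg)
  refine ⟨?_, h1 g (le_trans (le_max_left _ _) hg), ?_⟩
  · intro e he
    refine hS2.trans ?_
    have h3 : (S : Set (Quotient isoSetoid)).ncard ≤ (ObsUpTo g e).ncard :=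
      Set.ncard_le_ncard (hS1.trans (obsUpTo_mono g he)) (obsUpTo_finite g e)
    rw [Set.ncard_coe_finset] at h3
    exact_mod_cast h3
  · intro hfin
    refine hS2.trans ?_
    have h3 : (S : Set (Quotient isoSetoid)).ncard ≤ (Obs g).ncard :=
      Set.ncard_le_ncard (hS1.trans (obsUpTo_subset g _)) hfin
    rw [Set.ncard_coe_finset] at h3
    exact_mod_cast h3

end Pool.Agent.Lib.MP_72b45c_co
end
end
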